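import Mathlib.Data.Int.Star
import Mathlib.Algebra.Order.Ring.Star
import Mathlib.Analysis.Normed.Module.Connected
import Mathlib.Analysis.Complex.BranchLogRoot
import Mathlib.Topology.Separation.CompletelyRegular
import Mathlib.MeasureTheory.Measure.Lebesgue.VolumeOfBalls
import Pool.Agent.MP_54e5d7_al.atc.Spec
import Pool.Agent.MP_54e5d7_al.atc.Hol1
import Pool.Agent.MP_54e5d7_al.atc.split.Disc

-- ======== part 0: formerly Pool.Agent.MP_54e5d7_al.atc.split.Ball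
section MrgPart0

/-!
PROJECT ATC, block SPLIT: from the splitting theorem on the unit disc to equivariant lifts of the
stabilisers of the discs in the ball.
-/

set_option autoImplicit false

open scoped ComplexConjugate
open Matrix Set Metric

namespace Pool.Agent.MP_54e5d7_al.Atc

open Pool.Agent.MP_54e5d7_al.ATC.Split

/-- The splitting theorem on the unit disc. -/
def CoreStmt : Prop :=
  ∀ (G : Type) [Group G] (A : DiscAct G),
    (∀ g z, ‖z‖ < 1 → A.act g z = z → g = 1) →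
    (∀ r < (1 : ℝ), {g | ‖A.act g 0‖ ≤ r}.Finite) →
    (∃ r < (1 : ℝ), ∀ z, ‖z‖ < 1 → ∃ g, ‖A.act g z‖ ≤ r) →
    ∀ (K : Subgroup G) [K.FiniteIndex] (n : ℕ), n ∣ K.index →
    ∀ lam : G → ℂ → ℂ, (∀ g, ContinuousOn (lam g) (ball 0 1)) →
      (∀ g z, ‖z‖ < 1 → Complex.exp (lam g z) = A.j g z) →
      ∃ c : G → ℤ, ∀ g ∈ K, ∀ h ∈ K, ∀ z, ‖z‖ < 1 → ∃ m : ℤ,
        lam g (A.act h z) + lam h z - lam (g * h) z =
          2 * Real.pi * Complex.I * (c g + c h - c (g * h) + n * m)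

namespace SplitBall

/-- the middle basis vector -/
abbrev e1 : V3 := ![0, 1, 0]

theorem col {g : SU21} (hg : g ∈ stab e1) (i : Fin 3) : g.1.1 i 1 = e1 i := by
  have h : mv g e1 = e1 := hg
  have h1 := congrFun h i
  simpa [mv, Matrix.mulVec, dotProduct, Fin.sum_univ_three] using h1

theorem row {g : SU21} (hg : g ∈ stab e1) (v : V3) : mv g v 1 = v 1 := by
  have h : mv g e1 = e1 := hg
  have h1 := H_mv g v e1
  rw [h] at h1
  simpa [H] using h1

theorem row0 {g : SU21} (hg : g ∈ stab e1) : g.1.1 1 0 = 0 := by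
  simpa [mv, Matrix.mulVec, dotProduct, Fin.sum_univ_three] using row hg ![1, 0, 0]

theorem row2 {g : SU21} (hg : g ∈ stab e1) : g.1.1 1 2 = 0 := by
  simpa [mv, Matrix.mulVec, dotProduct, Fin.sum_univ_three] using row hg ![0, 0, 1]

theorem entry_mul (g h : SU21) (i k : Fin 3) :
    (g * h).1.1 i k = g.1.1 i 0 * h.1.1 0 k + g.1.1 i 1 * h.1.1 1 k + g.1.1 i 2 * h.1.1 2 k := by
  have : (g * h).1.1 = g.1.1 * h.1.1 := rfl
  rw [this, Matrix.mul_apply, Fin.sum_univ_three]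

variable {G : Type} [Group G]

/-- the action on the standard disc -/
def discAct (θ : G →* SU21) (hθ : ∀ g, θ g ∈ stab e1) : DiscAct G where
  a g := (θ g).1.1 0 0
  b g := (θ g).1.1 0 2
  c g := (θ g).1.1 2 0
  d g := (θ g).1.1 2 2
  a_mul g h := by rw [map_mul, entry_mul, row0 (hθ h)]; ring
  b_mul g h := by rw [map_mul, entry_mul, row2 (hθ h)]; ring
  c_mul g h := by rw [map_mul, entry_mul, row0 (hθ h)]; ring
  d_mul g h := by rw [map_mul, entry_mul, row2 (hθ h)]; ring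
  a_one := by simp
  b_one := by simp
  c_one := by simp
  d_one := by simp
  u1 g := by
    have h := H_mv (θ g) ![1, 0, 0] ![1, 0, 0]
    simpa [H, mv, Matrix.mulVec, dotProduct, Fin.sum_univ_three, row0 (hθ g)] using h
  u2 g := by
    have h := H_mv (θ g) ![0, 0, 1] ![0, 0, 1]
    simpa [H, mv, Matrix.mulVec, dotProduct, Fin.sum_univ_three, row2 (hθ g)] using h
  u3 g := by
    have h := H_mv (θ g) ![1, 0, 0] ![0, 0, 1]
    simpa [H, mv, Matrix.mulVec, dotProduct, Fin.sum_univ_three, row0 (hθ g), row2 (hθ g)] using h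

theorem jf_eq (θ : G →* SU21) (hθ : ∀ g, θ g ∈ stab e1) (g : G) (z : ℂ) :
    jf (θ g) (z, 0) = (discAct θ hθ).j g z := by
  simp [jf, mv, hat, Matrix.mulVec, dotProduct, Fin.sum_univ_three, DiscAct.j, discAct]

theorem act_eq (θ : G →* SU21) (hθ : ∀ g, θ g ∈ stab e1) (g : G) (z : ℂ) :
    act (θ g) (z, 0) = ((discAct θ hθ).act g z, 0) := by
  unfold act DiscAct.act
  rw [jf_eq θ hθ, row (hθ g)]
  simp [mv, hat, Matrix.mulVec, dotProduct, Fin.sum_univ_three, discAct]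

theorem nsq_pair (z : ℂ) : nsq (z, 0) = ‖z‖ ^ 2 := by simp [nsq]

theorem mem_B {z : ℂ} (hz : ‖z‖ < 1) : ((z, 0) : C2) ∈ B := by
  show nsq (z, 0) < 1
  rw [nsq_pair]
  nlinarith [norm_nonneg z]

theorem exists_log (A : DiscAct G) : ∃ lam : G → ℂ → ℂ,
    (∀ g, ContinuousOn (lam g) (ball 0 1)) ∧
      ∀ g z, ‖z‖ < 1 → Complex.exp (lam g z) = A.j g z := by
  have hs : IsSimplyConnected (ball (0 : ℂ) 1) := by
    have := (convex_ball (0 : ℂ) 1).contractibleSpace (nonempty_ball.2 one_pos)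
    exact SimplyConnectedSpace.ofContractible _
  have h : ∀ g, ∃ f : ℂ → ℂ, ContinuousOn f (ball 0 1) ∧
      EqOn (Complex.exp ∘ f) (A.j g) (ball 0 1) := by
    intro g
    refine Complex.exists_continuousOn_eqOn_exp_comp hs isOpen_ball ?_ ?_
    · unfold DiscAct.j
      fun_prop
    · rintro ⟨z, hz, h0⟩
      exact A.j_ne g (by simpa using hz) h0
  choose lam h1 h2 using h
  exact ⟨lam, h1, fun g z hz => h2 g (by simpa using hz)⟩

/-- a cocycle of continuous roots on the subgroup -/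
theorem exists_root (hc : CoreStmt) (A : DiscAct G)
    (h1 : ∀ g z, ‖z‖ < 1 → A.act g z = z → g = 1)
    (h2 : ∀ r < (1 : ℝ), {g | ‖A.act g 0‖ ≤ r}.Finite)
    (h3 : ∃ r < (1 : ℝ), ∀ z, ‖z‖ < 1 → ∃ g, ‖A.act g z‖ ≤ r)
    (K : Subgroup G) [K.FiniteIndex] {n : ℕ} (hn : 0 < n) (hd : n ∣ K.index) :
    ∃ J : G → ℂ → ℂ, (∀ g, ContinuousOn (J g) (ball 0 1)) ∧
      (∀ g z, ‖z‖ < 1 → J g z ^ n = A.j g z) ∧
      ∀ g ∈ K, ∀ h ∈ K, ∀ z, ‖z‖ < 1 → J (g * h) z = J g (A.act h z) * J h z := by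
  obtain ⟨lam, hl, he⟩ := exists_log A
  obtain ⟨c, hcc⟩ := hc G A h1 h2 h3 K n hd lam hl he
  have hn' : (n : ℂ) ≠ 0 := by exact_mod_cast hn.ne'
  refine ⟨fun g z => Complex.exp ((lam g z - c g * (2 * Real.pi * Complex.I)) / n), ?_, ?_, ?_⟩
  · intro g
    exact Complex.continuous_exp.comp_continuousOn
      (((hl g).sub continuousOn_const).div_const _)
  · intro g z hz
    rw [← Complex.exp_nat_mul, mul_div_cancel₀ _ hn', Complex.exp_sub,
      Complex.exp_int_mul_two_pi_mul_I, div_one, he g z hz]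
  · intro g hg h hh z hz
    obtain ⟨m, hm⟩ := hcc g hg h hh z hz
    rw [← Complex.exp_add, eq_comm, Complex.exp_eq_exp_iff_exists_int]
    refine ⟨m, ?_⟩
    field_simp
    linear_combination hm

variable {n : ℕ} {U : Type} [Group U]

/-- a section of the cover over a subgroup fixing the standard disc -/
theorem exists_section (C : Cover n U) (hn : 0 < n) (θ : G →* SU21) (hθ : ∀ g, θ g ∈ stab e1)
    (hi : ∀ g, θ g = 1 → g = 1) (K : Subgroup G) (J : G → ℂ → ℂ)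
    (hJ : ∀ g, ContinuousOn (J g) (ball 0 1))
    (hp : ∀ g z, ‖z‖ < 1 → J g z ^ n = (discAct θ hθ).j g z)
    (hm : ∀ g ∈ K, ∀ h ∈ K, ∀ z, ‖z‖ < 1 →
      J (g * h) z = J g ((discAct θ hθ).act h z) * J h z) :
    ∃ N : Subgroup U, (∀ ν ∈ N, ∃ g ∈ K, C.p ν = θ g) ∧ (∀ ν ∈ N, C.p ν = 1 → ν = 1) ∧
      ∀ g ∈ K, ∃ ν ∈ N, C.p ν = θ g := by
  set A := discAct θ hθ with hA
  have hne : ∀ g z, ‖z‖ < 1 → J g z ≠ 0 := by
    intro g z hz h0
    have h := hp g z hz
    rw [h0, zero_pow hn.ne'] at h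
    exact A.j_ne g hz h.symm
  have hone : ∀ z, ‖z‖ < 1 → J 1 z = 1 := by
    intro z hz
    have h := hm 1 K.one_mem 1 K.one_mem z hz
    rw [mul_one, A.act_one] at h
    exact (mul_right_cancel₀ (hne 1 z hz) (by rw [one_mul]; exact h)).symm
  let N : Subgroup U :=
    { carrier := {ν | ∃ g ∈ K, C.p ν = θ g ∧ ∀ z, ‖z‖ < 1 → C.φ ν (z, 0) = J g z}
      mul_mem' := by
        rintro a b ⟨g, hg, ha, ha'⟩ ⟨h, hh, hb, hb'⟩
        refine ⟨g * h, K.mul_mem hg hh, by rw [map_mul, map_mul, ha, hb], fun z hz => ?_⟩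
        rw [C.mul a b _ (mem_B hz), hb, act_eq θ hθ, ha' _ (A.act_lt h hz), hb' z hz,
          hm g hg h hh z hz]
      one_mem' := ⟨1, K.one_mem, by rw [map_one, map_one], fun z hz => by
        rw [C.φ_one hn (mem_B hz), hone z hz]⟩
      inv_mem' := by
        rintro a ⟨g, hg, ha, ha'⟩
        have hq : C.p a⁻¹ = θ g⁻¹ := by rw [map_inv, map_inv, ha]
        refine ⟨g⁻¹, K.inv_mem hg, hq, fun z hz => ?_⟩
        have e1 := C.mul a a⁻¹ _ (mem_B hz)
        rw [mul_inv_cancel, C.φ_one hn (mem_B hz), hq, act_eq θ hθ,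
          ha' _ (A.act_lt g⁻¹ hz)] at e1
        have e2 := hm g hg g⁻¹ (K.inv_mem hg) z hz
        rw [mul_inv_cancel, hone z hz] at e2
        exact mul_left_cancel₀ (hne g _ (A.act_lt g⁻¹ hz)) (e1.symm.trans e2) }
  refine ⟨N, ?_, ?_, ?_⟩
  · rintro ν ⟨g, hg, h, -⟩
    exact ⟨g, hg, h⟩
  · rintro ν ⟨g, hg, h, h'⟩ h1
    have hg1 : g = 1 := hi g (h.symm.trans h1)
    refine C.inj ν h1 ?_
    have := h' 0 (by simp)
    rw [hg1, hone 0 (by simp)] at this
    exact this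
  · intro g hg
    have h0 : J g 0 ^ n = jf (θ g) 0 := by
      rw [hp g 0 (by simp), ← jf_eq θ hθ]
      rfl
    obtain ⟨ν, hν, hν'⟩ := C.full (θ g) (J g 0) h0
    refine ⟨ν, ⟨g, hg, hν, fun z hz => ?_⟩, hν⟩
    let V : Set C2 := (fun z : ℂ => ((z, 0) : C2)) '' ball 0 1
    have hV : IsPreconnected V :=
      (convex_ball (0 : ℂ) 1).isPreconnected.image _ (by fun_prop)
    have hVB : V ⊆ B := by
      rintro _ ⟨w, hw, rfl⟩
      exact mem_B (by simpa using hw)
    have key := root_unique (n := n) hn hV (f := C.φ ν) (g := fun y => J g y.1)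
      ((C.hol ν).continuousOn.mono hVB)
      ((hJ g).comp continuousOn_fst (by rintro _ ⟨w, hw, rfl⟩; exact hw))
      (by
        rintro _ ⟨w, hw, rfl⟩
        have hw' : ‖w‖ < 1 := by simpa using hw
        rw [C.pow ν _ (mem_B hw'), hν, jf_eq θ hθ, hp g w hw'])
      (by
        rintro _ ⟨w, hw, rfl⟩
        exact hne g w (by simpa using hw))
      (y := (0, 0)) ⟨0, by simp, rfl⟩ hν'
    exact key (z, 0) ⟨z, by simpa using hz, rfl⟩

theorem image_Bl (g : SU21) {r : ℝ} (hr : r < 1) :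
    ∃ r' < (1 : ℝ), ∀ z, nsq z ≤ r → act g z ∈ Bl r' := by
  have hs : {z : C2 | nsq z ≤ r} ⊆ B := fun z hz => lt_of_le_of_lt hz hr
  obtain ⟨r', h1, h2⟩ := exists_Bl_of_isCompact
    ((isCompact_nsq_le r).image_of_continuousOn ((continuousOn_act g).mono hs))
    (by rintro _ ⟨z, hz, rfl⟩; exact act_mem g (hs hz))
  exact ⟨r', h1, fun z hz => h2 ⟨z, hz, rfl⟩⟩

/-- the lift of the stabiliser of one disc -/
theorem exists_lift (hc : CoreStmt) (C : Cover n U) (hn : 0 < n) {Γ₁ Γ₂ : Subgroup SU21}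
    {X : Set V3} {ε : ℝ} (hL : Lat Γ₁) (hD : Discs Γ₁ X ε) (hle : Γ₂ ≤ Γ₁)
    (hi : Γ₂.relIndex Γ₁ ≠ 0) {x : V3} (hx : x ∈ X)
    (hd : n ∣ (Γ₂ ⊓ stab x).relIndex (Γ₁ ⊓ stab x)) :
    ∃ N : Subgroup U, (∀ ν ∈ N, C.p ν ∈ Γ₂ ⊓ stab x) ∧ (∀ ν ∈ N, C.p ν = 1 → ν = 1) ∧
      ∀ γ ∈ Γ₂ ⊓ stab x, ∃ ν ∈ N, C.p ν = γ := by
  obtain ⟨g, hg⟩ := exists_mv_e1 (hD.unit x hx)
  let θ : ↥(Γ₁ ⊓ stab x) →* SU21 :=
    (MulAut.conj g⁻¹).toMonoidHom.comp (Γ₁ ⊓ stab x).subtype
  have hθv : ∀ h, θ h = g⁻¹ * h.1 * g := fun h => by simp [θ]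
  have hθ : ∀ h, θ h ∈ stab e1 := by
    intro h
    show mv (θ h) e1 = e1
    have h2 : mv h.1 x = x := h.2.2
    rw [hθv, mv_mul, mv_mul, hg, h2, ← hg, ← mv_mul, inv_mul_cancel, mv_one]
  have hact : ∀ (h : ↥(Γ₁ ⊓ stab x)) (z : ℂ), ‖z‖ < 1 →
      act h.1 (act g (z, 0)) = act g ((discAct θ hθ).act h z, 0) := by
    intro h z hz
    rw [← act_eq θ hθ, ← act_mul _ _ (mem_B hz), ← act_mul _ _ (mem_B hz), hθv]
    congr 1
    group
  let K : Subgroup ↥(Γ₁ ⊓ stab x) := (Γ₂ ⊓ stab x).subgroupOf (Γ₁ ⊓ stab x)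
  have : K.FiniteIndex := ⟨Subgroup.relIndex_inter_ne_zero hi (stab x)⟩
  have f1 : ∀ h z, ‖z‖ < 1 → (discAct θ hθ).act h z = z → h = 1 := by
    intro h z hz he
    have := hact h z hz
    rw [he] at this
    exact Subtype.ext (hL.free _ h.2.1 _ (act_mem g (mem_B hz)) this)
  have f2 : ∀ r < (1 : ℝ), {h | ‖(discAct θ hθ).act h 0‖ ≤ r}.Finite := by
    intro r hr
    rcases lt_or_ge r 0 with h0 | h0
    · refine Set.finite_empty.subset fun h hh => ?_
      have : ‖(discAct θ hθ).act h 0‖ ≤ r := hh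
      linarith [norm_nonneg ((discAct θ hθ).act h 0)]
    obtain ⟨r', h1, h2⟩ := image_Bl g (r := r ^ 2) (by nlinarith)
    refine ((hL.finite_meet h1).preimage Subtype.val_injective.injOn).subset fun h hh => ?_
    have hh' : ‖(discAct θ hθ).act h 0‖ ≤ r := hh
    refine ⟨h.2.1, act g (0, 0), h2 _ (by rw [nsq_pair]; simp; positivity), ?_⟩
    rw [hact h 0 (by simp)]
    refine h2 _ ?_
    rw [nsq_pair]
    exact pow_le_pow_left₀ (norm_nonneg _) hh' 2
  have f3 : ∃ r < (1 : ℝ), ∀ z, ‖z‖ < 1 → ∃ h, ‖(discAct θ hθ).act h z‖ ≤ r := by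
    obtain ⟨r, hr, h1⟩ := hD.cocpt hL hx
    obtain ⟨r', hr', h2⟩ := image_Bl g⁻¹ hr
    refine ⟨Real.sqrt r', ?_, fun z hz => ?_⟩
    · rw [Real.sqrt_lt' one_pos]
      simpa using hr'
    have hz0 : ell x (act g (z, 0)) = 0 := by
      have h3 := ell_act g e1 (mem_B hz)
      rw [hg] at h3
      have h4 : ell e1 (z, 0) = 0 := by simp [ell, H, hat]
      rw [h4] at h3
      exact (mul_eq_zero.1 h3).resolve_right (jf_ne_zero g (mem_B hz))
    obtain ⟨γ, hγ, h3⟩ := h1 _ (act_mem g (mem_B hz)) hz0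
    refine ⟨⟨γ, hγ⟩, ?_⟩
    have h4 := h2 _ (le_of_lt h3)
    have h5 := hact ⟨γ, hγ⟩ z hz
    rw [h5, act_inv_act g (mem_B ((discAct θ hθ).act_lt _ hz))] at h4
    have h6 : nsq ((discAct θ hθ).act ⟨γ, hγ⟩ z, 0) < r' := h4
    rw [nsq_pair] at h6
    exact Real.le_sqrt_of_sq_le h6.le
  obtain ⟨J, hJ, hp, hm⟩ := exists_root hc (discAct θ hθ) f1 f2 f3 K hn hd
  obtain ⟨N, h1, h2, h3⟩ := exists_section C hn θ hθ
    (fun h hh => by
      rw [hθv] at hh
      apply Subtype.ext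
      have : h.1 = g * (g⁻¹ * h.1 * g) * g⁻¹ := by group
      rw [this, hh]
      simp) K J hJ hp hm
  obtain ⟨a, ha⟩ := C.surj hn g
  refine ⟨N.comap (MulAut.conj a⁻¹).toMonoidHom, ?_, ?_, ?_⟩
  · intro ν hν
    obtain ⟨h, hh, e⟩ := h1 _ hν
    have e' : C.p ν = h.1 := by
      rw [hθv] at e
      simpa [ha] using e
    rw [e']
    exact hh
  · intro ν hν h0
    have h4 : a⁻¹ * ν * a = 1 := by simpa using h2 _ hν (by simp [h0])
    calc ν = a * (a⁻¹ * ν * a) * a⁻¹ := by group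
      _ = 1 := by rw [h4]; simp
  · intro γ hγ
    obtain ⟨ν, hν, e⟩ := h3 ⟨γ, hle hγ.1, hγ.2⟩ hγ
    refine ⟨a * ν * a⁻¹, ?_, ?_⟩
    · rw [Subgroup.mem_comap]
      simpa [mul_assoc] using hν
    · rw [map_mul, map_mul, map_inv, e, ha, hθv]
      group

/-- equivariant lifts from lifts -/
theorem exists_fill (C : Cover n U) (hn : 0 < n) {Γ : Subgroup SU21} {X : Set V3}
    (hX : ∀ γ ∈ Γ, ∀ x ∈ X, mv γ x ∈ X)
    (h : ∀ x ∈ X, ∃ N : Subgroup U, (∀ ν ∈ N, C.p ν ∈ Γ ⊓ stab x) ∧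
      (∀ ν ∈ N, C.p ν = 1 → ν = 1) ∧ ∀ γ ∈ Γ ⊓ stab x, ∃ ν ∈ N, C.p ν = γ) :
    ∃ N, Fill C Γ X N := by
  classical
  choose! N₀ h1 h2 h3 using h
  let rep : V3 → V3 := fun x => Classical.epsilon fun y => ∃ γ ∈ Γ, mv γ y = x
  have hrep : ∀ x, ∃ γ ∈ Γ, mv γ (rep x) = x := fun x =>
    Classical.epsilon_spec (p := fun y => ∃ γ ∈ Γ, mv γ y = x) ⟨x, 1, Γ.one_mem, mv_one x⟩
  have hback : ∀ (γ : SU21) (y : V3), mv γ⁻¹ (mv γ y) = y := fun γ y => by
    rw [← mv_mul, inv_mul_cancel, mv_one]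
  have hinv : ∀ γ ∈ Γ, ∀ x, rep (mv γ x) = rep x := by
    intro γ hγ x
    have : (fun y => ∃ δ ∈ Γ, mv δ y = mv γ x) = fun y => ∃ δ ∈ Γ, mv δ y = x := by
      funext y
      apply propext
      constructor
      · rintro ⟨δ, hδ, e⟩
        exact ⟨γ⁻¹ * δ, Γ.mul_mem (Γ.inv_mem hγ) hδ, by rw [mv_mul, e, hback]⟩
      · rintro ⟨δ, hδ, e⟩
        exact ⟨γ * δ, Γ.mul_mem hγ hδ, by rw [mv_mul, e]⟩
    simp only [rep, this]
  have hrX : ∀ x ∈ X, rep x ∈ X := by
    intro x hx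
    obtain ⟨γ, hγ, e⟩ := hrep x
    have := hX γ⁻¹ (Γ.inv_mem hγ) x hx
    rw [← e, hback] at this
    exact this
  have hlift : ∀ x, ∃ a, C.p a ∈ Γ ∧ mv (C.p a) (rep x) = x := by
    intro x
    obtain ⟨γ, hγ, e⟩ := hrep x
    obtain ⟨a, ha⟩ := C.surj hn γ
    exact ⟨a, by rw [ha]; exact hγ, by rw [ha]; exact e⟩
  let N : V3 → Subgroup U := fun x =>
    { carrier := {ν | ∀ a, C.p a ∈ Γ → mv (C.p a) (rep x) = x → a⁻¹ * ν * a ∈ N₀ (rep x)}
      mul_mem' := by
        intro u v hu hv a ha hb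
        have := (N₀ (rep x)).mul_mem (hu a ha hb) (hv a ha hb)
        rwa [show a⁻¹ * u * a * (a⁻¹ * v * a) = a⁻¹ * (u * v) * a by group] at this
      one_mem' := by
        intro a _ _
        simp
      inv_mem' := by
        intro u hu a ha hb
        have := (N₀ (rep x)).inv_mem (hu a ha hb)
        rwa [show (a⁻¹ * u * a)⁻¹ = a⁻¹ * u⁻¹ * a by group] at this }
  refine ⟨N, ?_, ?_, ?_, ?_⟩
  · intro x hx ν hν
    obtain ⟨a, ha, hb⟩ := hlift x
    obtain ⟨e1, e2⟩ := h1 _ (hrX x hx) _ (hν a ha hb)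
    have e3 : C.p ν = C.p a * C.p (a⁻¹ * ν * a) * (C.p a)⁻¹ := by
      rw [map_mul, map_mul, map_inv]
      group
    rw [e3]
    refine ⟨Γ.mul_mem (Γ.mul_mem ha e1) (Γ.inv_mem ha), ?_⟩
    have e4 : mv (C.p (a⁻¹ * ν * a)) (rep x) = rep x := e2
    have e5 : mv (C.p a)⁻¹ x = rep x := by
      have := hback (C.p a) (rep x)
      rwa [hb] at this
    show mv _ x = x
    rw [mv_mul, mv_mul, e5, e4, hb]
  · intro x hx ν hν h0
    obtain ⟨a, ha, hb⟩ := hlift x
    have := h2 _ (hrX x hx) _ (hν a ha hb) (by simp [h0])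
    calc ν = a * (a⁻¹ * ν * a) * a⁻¹ := by group
      _ = 1 := by rw [this]; simp
  · intro x hx γ hγ
    obtain ⟨a, ha, hb⟩ := hlift x
    have e5 : mv (C.p a)⁻¹ x = rep x := by
      have := hback (C.p a) (rep x)
      rwa [hb] at this
    have hγ2 : mv γ x = x := hγ.2
    obtain ⟨ν, hν, e⟩ := h3 _ (hrX x hx) ((C.p a)⁻¹ * γ * C.p a)
      ⟨Γ.mul_mem (Γ.mul_mem (Γ.inv_mem ha) hγ.1) ha, by
        show mv _ (rep x) = rep x
        rw [mv_mul, mv_mul, hb, hγ2, e5]⟩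
    refine ⟨a * ν * a⁻¹, fun a' ha' hb' => ?_, by
      rw [map_mul, map_mul, map_inv, e]
      group⟩
    obtain ⟨ν', hν', e'⟩ := h3 _ (hrX x hx) ((C.p a)⁻¹ * C.p a')
      ⟨Γ.mul_mem (Γ.inv_mem ha) ha', by
        show mv _ (rep x) = rep x
        rw [mv_mul, hb', e5]⟩
    have hz : C.p (ν'⁻¹ * (a⁻¹ * a')) = 1 := by
      rw [map_mul, map_mul, map_inv, map_inv, e', inv_mul_cancel]
    have hc := C.central hn hz (ν'⁻¹ * ν * ν')
    have hmem : ν'⁻¹ * ν * ν' ∈ N₀ (rep x) :=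
      (N₀ (rep x)).mul_mem ((N₀ (rep x)).mul_mem ((N₀ (rep x)).inv_mem hν') hν) hν'
    have : a'⁻¹ * (a * ν * a⁻¹) * a' = ν'⁻¹ * ν * ν' := by
      calc a'⁻¹ * (a * ν * a⁻¹) * a'
          = (ν'⁻¹ * (a⁻¹ * a'))⁻¹ * ((ν'⁻¹ * ν * ν') * (ν'⁻¹ * (a⁻¹ * a'))) := by group
        _ = ν'⁻¹ * ν * ν' := by rw [← hc]; group
    rw [this]
    exact hmem
  · intro b hb x hx ν hν a ha hc
    rw [hinv _ hb] at hc ⊢
    have := hν (b⁻¹ * a) (by rw [map_mul, map_inv]; exact Γ.mul_mem (Γ.inv_mem hb) ha)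
      (by rw [map_mul, map_inv, mv_mul, hc, hback])
    rwa [show (b⁻¹ * a)⁻¹ * ν * (b⁻¹ * a) = a⁻¹ * (b * ν * b⁻¹) * a by group] at this

end SplitBall

theorem split_of_core (hc : CoreStmt) : SplitStmt := by
  intro n U _ C Γ₁ Γ₂ X ε hn hL hD hle hi hd
  exact SplitBall.exists_fill C hn (fun γ hγ x hx => hD.inv γ (hle hγ) x hx)
    fun x hx => SplitBall.exists_lift hc C hn hL hD hle hi hx (hd x hx)

end Pool.Agent.MP_54e5d7_al.Atc

end MrgPart0

-- ======== part 1: formerly Pool.Agent.MP_54e5d7_al.atc.split.Poin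
section MrgPart1

/-! Splitting, part 2: separation of the orbit of the origin and Poincare series. -/

namespace Pool.Agent.MP_54e5d7_al.ATC.Split

open Complex Metric Filter Topology ComplexConjugate MeasureTheory

namespace DiscAct

variable {H : Type*} [Group H] (A : DiscAct H)

/-- Free, proper and cocompact action on the disc. -/
structure Good : Prop where
  free : ∀ g z, ‖z‖ < 1 → A.act g z = z → g = 1
  proper : ∀ r : ℝ, r < 1 → {g | ‖A.act g 0‖ ≤ r}.Finite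
  cocompact : ∃ r : ℝ, r < 1 ∧ ∀ z, ‖z‖ < 1 → ∃ g, ‖A.act g z‖ ≤ r

variable {A}

lemma exists_sep (hA : A.Good) :
    ∃ δ : ℝ, 0 < δ ∧ δ ≤ 1 / 2 ∧ ∀ g, g ≠ 1 → δ ≤ ‖A.act g 0‖ := by
  have hF := (hA.proper (1 / 2) (by norm_num)).subset
    (t := {g | ‖A.act g 0‖ ≤ 1 / 2 ∧ g ≠ 1}) fun g hg => hg.1
  have hT := (hF.image fun g => ‖A.act g 0‖).insert (1 / 2)
  obtain ⟨δ, hδ, hmin⟩ := Set.exists_min_image _ id hT (Set.insert_nonempty _ _)
  refine ⟨δ, ?_, hmin _ (Set.mem_insert _ _), fun g hg => ?_⟩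
  · rcases hδ with rfl | ⟨g, hg, rfl⟩
    · norm_num
    · exact norm_pos_iff.2 fun h => hg.2 (hA.free g 0 (by simp) h)
  · by_cases h : ‖A.act g 0‖ ≤ 1 / 2
    · exact hmin _ (Set.mem_insert_of_mem _ ⟨g, ⟨h, hg⟩, rfl⟩)
    · exact (hmin _ (Set.mem_insert _ _)).trans (not_le.1 h).le

lemma sep_dist {δ : ℝ} (hδ : 0 < δ) (h : ∀ g, g ≠ 1 → δ ≤ ‖A.act g 0‖) {g g' : H}
    (hne : g ≠ g') : δ * (1 - ‖A.act g 0‖) ≤ ‖A.act g' 0 - A.act g 0‖ := by
  have h0 : ‖(0 : ℂ)‖ < 1 := by simp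
  have hw := A.act_lt (g⁻¹ * g') h0
  have h1 := A.phi_act g h0 hw
  rw [← A.act_mul _ _ h0, mul_inv_cancel_left, phi_zero] at h1
  have h2 := congrArg norm h1
  rw [norm_mul, A.norm_eps g h0, one_mul, phi, norm_div,
    div_eq_iff (norm_ne_zero_iff.2 (one_sub_ne (A.act_lt g h0) (A.act_lt g' h0)))] at h2
  have h3 := h (g⁻¹ * g') (by rwa [Ne, inv_mul_eq_one])
  have h4 := norm_one_sub_ge (A.act g 0) (A.act g' 0)
  have h5 := A.act_lt g' h0
  have h6 := A.act_lt g h0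
  have h7 : 1 - ‖A.act g 0‖ ≤ ‖1 - conj (A.act g 0) * A.act g' 0‖ := by
    nlinarith [norm_nonneg (A.act g 0)]
  rw [h2]
  exact mul_le_mul h3 h7 (by linarith) (norm_nonneg _)

lemma inv_d_sq (g : H) : ‖A.d g‖⁻¹ ^ 2 = 1 - ‖A.act g 0‖ ^ 2 := by
  rw [A.one_sub_norm_act g (by simp), A.j_zero]; simp

lemma summable_d (hA : A.Good) : Summable fun g => ‖A.d g‖⁻¹ ^ 4 := by
  obtain ⟨δ, hδ, hδ2, h⟩ := exists_sep hA
  have h0 : ‖(0 : ℂ)‖ < 1 := by simp
  have hρ : ∀ g, 0 < 1 - ‖A.act g 0‖ := fun g => by linarith [A.act_lt g h0]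
  have key : Summable fun g => (δ * (1 - ‖A.act g 0‖) / 2) ^ 2 := by
    refine summable_of_sum_le (c := 2 ^ 2) (fun g => by positivity) fun s => ?_
    have hd : Set.PairwiseDisjoint (s : Set H)
        fun g => ball (A.act g 0) (δ * (1 - ‖A.act g 0‖) / 2) := by
      intro g _ g' _ hne
      apply ball_disjoint_ball
      have a1 := sep_dist hδ h hne
      have a2 := sep_dist hδ h hne.symm
      rw [norm_sub_rev] at a1
      rw [dist_eq_norm]; linarith
    have hm := measure_biUnion_finset (μ := volume) hd fun g _ => measurableSet_ball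
    have hsub : (⋃ g ∈ s, ball (A.act g 0) (δ * (1 - ‖A.act g 0‖) / 2)) ⊆ ball (0 : ℂ) 2 := by
      refine Set.iUnion₂_subset fun g _ => ball_subset_ball' ?_
      rw [dist_zero_right]
      nlinarith [hρ g, norm_nonneg (A.act g 0)]
    have hle := measure_mono (μ := volume) hsub
    rw [hm] at hle
    simp only [Complex.volume_ball] at hle
    rw [← Finset.sum_mul, ENNReal.mul_le_mul_iff_left (by simpa using NNReal.pi_ne_zero)
      ENNReal.coe_ne_top] at hle
    have e : ∀ g ∈ s, ENNReal.ofReal (δ * (1 - ‖A.act g 0‖) / 2) ^ 2 =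
        ENNReal.ofReal ((δ * (1 - ‖A.act g 0‖) / 2) ^ 2) := fun g _ => by
      rw [ENNReal.ofReal_pow (by have := hρ g; positivity)]
    rw [Finset.sum_congr rfl e, ← ENNReal.ofReal_sum_of_nonneg (fun g _ => by positivity),
      ← ENNReal.ofReal_pow (by norm_num), ENNReal.ofReal_le_ofReal_iff (by norm_num)] at hle
    exact hle
  refine Summable.of_nonneg_of_le (fun g => by positivity) (fun g => ?_) (key.mul_left (16 / δ ^ 2))
  have e : ‖A.d g‖⁻¹ ^ 4 = (1 - ‖A.act g 0‖ ^ 2) ^ 2 := by rw [← inv_d_sq]; ring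
  have e2 : 16 / δ ^ 2 * (δ * (1 - ‖A.act g 0‖) / 2) ^ 2 = (2 * (1 - ‖A.act g 0‖)) ^ 2 := by
    field_simp; ring
  rw [e, e2]
  have h1 := hρ g
  have h2 := norm_nonneg (A.act g 0)
  apply pow_le_pow_left₀ <;> nlinarith

lemma inv_d_le_one (g : H) : ‖A.d g‖⁻¹ ≤ 1 := by
  have h := inv_d_sq (A := A) g
  have h1 : 0 ≤ ‖A.d g‖⁻¹ := by positivity
  nlinarith [sq_nonneg ‖A.act g 0‖]

lemma tendsto_inv_d (hA : A.Good) : Tendsto (fun g => ‖A.d g‖⁻¹) cofinite (𝓝 0) := by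
  have h := (summable_d hA).tendsto_cofinite_zero
  have h2 := (Real.continuous_sqrt.tendsto 0).comp ((Real.continuous_sqrt.tendsto 0).comp
    h |>.trans (by simp))
  rw [Real.sqrt_zero] at h2
  refine h2.congr fun g => ?_
  have h1 : 0 ≤ ‖A.d g‖⁻¹ := by positivity
  simp only [Function.comp]
  rw [show ‖A.d g‖⁻¹ ^ 4 = (‖A.d g‖⁻¹ ^ 2) ^ 2 by ring, Real.sqrt_sq (by positivity),
    Real.sqrt_sq h1]

lemma norm_inv_j_le (g : H) {z : ℂ} {r : ℝ} (hr : r < 1) (hz : ‖z‖ ≤ r) :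
    ‖(A.j g z)⁻¹‖ ≤ ‖A.d g‖⁻¹ * (1 - r)⁻¹ := by
  rw [norm_inv, ← mul_inv]
  have h1 := A.d_pos g
  apply inv_anti₀ (mul_pos h1 (by linarith))
  exact le_trans (mul_le_mul_of_nonneg_left (by linarith) h1.le) (A.norm_j_ge g z)

/-- Poincare series of weight `k`. -/
noncomputable def ps (A : DiscAct H) (k : ℕ) (z : ℂ) : ℂ := ∑' g, (A.j g z)⁻¹ ^ k

lemma ps_bound {k : ℕ} (hk : 4 ≤ k) (g : H) {z : ℂ} {r : ℝ} (hr : r < 1) (hz : ‖z‖ ≤ r) :
    ‖(A.j g z)⁻¹ ^ k‖ ≤ (1 - r)⁻¹ ^ k * ‖A.d g‖⁻¹ ^ 4 := by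
  rw [norm_pow]
  have h1 : 0 ≤ ‖A.d g‖⁻¹ := by positivity
  have h2 : 0 ≤ (1 - r)⁻¹ := inv_nonneg.2 (by linarith)
  calc ‖(A.j g z)⁻¹‖ ^ k ≤ (‖A.d g‖⁻¹ * (1 - r)⁻¹) ^ k :=
        pow_le_pow_left₀ (norm_nonneg _) (norm_inv_j_le g hr hz) k
    _ = (1 - r)⁻¹ ^ k * ‖A.d g‖⁻¹ ^ k := by ring
    _ ≤ _ := mul_le_mul_of_nonneg_left (pow_le_pow_of_le_one h1 (inv_d_le_one g) hk)
        (by positivity)

lemma ps_analytic (hA : A.Good) {k : ℕ} (hk : 4 ≤ k) : AnalyticOnNhd ℂ (A.ps k) (ball 0 1) := by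
  intro z hz
  rw [mem_ball_zero_iff] at hz
  obtain ⟨r, hr1, hr2⟩ := exists_between hz
  have hd : DifferentiableOn ℂ (A.ps k) (ball 0 r) := by
    refine differentiableOn_tsum_of_summable_norm ((summable_d hA).mul_left ((1 - r)⁻¹ ^ k))
      (fun g => ?_) isOpen_ball fun g w hw => ps_bound hk g hr2 (mem_ball_zero_iff.1 hw).le
    refine DifferentiableOn.pow (DifferentiableOn.inv ?_ fun w hw => ?_) k
    · unfold j; fun_prop
    · exact A.j_ne g ((mem_ball_zero_iff.1 hw).trans hr2)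
  exact hd.analyticAt (isOpen_ball.mem_nhds (mem_ball_zero_iff.2 hr1))

lemma ps_act (k : ℕ) (h : H) {z : ℂ} (hz : ‖z‖ < 1) :
    A.ps k (A.act h z) = A.j h z ^ k * A.ps k z := by
  rw [ps, ps, ← tsum_mul_left, ← (Equiv.mulRight h).tsum_eq fun g => A.j h z ^ k * (A.j g z)⁻¹ ^ k]
  refine tsum_congr fun g => ?_
  have h1 := A.j_ne h hz
  have h2 := A.j_ne g (A.act_lt h hz)
  rw [Equiv.coe_mulRight, A.j_mul g h hz, ← mul_pow]
  congr 1
  field_simp

lemma ps_zero_ne (hA : A.Good) : ∃ k0 : ℕ, ∀ k, k0 ≤ k → A.ps k 0 ≠ 0 := by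
  classical
  obtain ⟨δ, hδ, hδ2, h⟩ := exists_sep hA
  have hs := summable_d hA
  set q : ℝ := 1 - δ ^ 2 / 2 with hq
  have hq0 : 0 ≤ q := by nlinarith
  have hq1 : q < 1 := by nlinarith
  have hle : ∀ g, g ≠ 1 → ‖A.d g‖⁻¹ ≤ q := fun g hg => by
    have h1 := inv_d_sq (A := A) g
    have h2 := h g hg
    have h3 : δ ^ 2 ≤ ‖A.act g 0‖ ^ 2 := pow_le_pow_left₀ hδ.le h2 2
    apply le_of_sq_le_sq _ hq0 |>.trans le_rfl
    nlinarith [sq_nonneg (δ ^ 2)]
  have ht := (tendsto_pow_atTop_nhds_zero_of_lt_one hq0 hq1).mul_const (∑' g, ‖A.d g‖⁻¹ ^ 4)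
  rw [zero_mul] at ht
  obtain ⟨m, hm⟩ := eventually_atTop.1 (ht.eventually (gt_mem_nhds one_pos))
  refine ⟨m + 4, fun k hk => ?_⟩
  obtain ⟨i, rfl⟩ : ∃ i, k = i + 4 := ⟨k - 4, by omega⟩
  have hsum : Summable fun g => (A.j g 0)⁻¹ ^ (i + 4) :=
    Summable.of_norm_bounded (hs.mul_left ((1 - 0)⁻¹ ^ (i + 4))) fun g =>
      ps_bound (by omega) g one_pos (by simp)
  rw [ps, hsum.tsum_eq_add_tsum_ite 1]
  have hb : ‖∑' g, if g = 1 then 0 else (A.j g 0)⁻¹ ^ (i + 4)‖ ≤ ∑' g, q ^ i * ‖A.d g‖⁻¹ ^ 4 := by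
    refine tsum_of_norm_bounded (hs.mul_left (q ^ i)).hasSum fun g => ?_
    split_ifs with hg
    · simp only [norm_zero]; positivity
    · rw [norm_pow, norm_inv, A.j_zero, pow_add]
      exact mul_le_mul_of_nonneg_right (pow_le_pow_left₀ (by positivity) (hle g hg) i)
        (by positivity)
  rw [tsum_mul_left] at hb
  have hlt := hb.trans_lt (hm i (by omega))
  intro h0
  simp only [j_one, inv_one, one_pow] at h0
  rw [eq_neg_of_add_eq_zero_right h0] at hlt
  simp at hlt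

/-- A nonzero automorphic form whose weight is `1` modulo `n`. -/
theorem exists_form (hA : A.Good) {n : ℕ} (hn : 0 < n) :
    ∃ (k : ℕ) (f : ℂ → ℂ), AnalyticOnNhd ℂ f (ball 0 1) ∧ f 0 ≠ 0 ∧
      ∀ g z, ‖z‖ < 1 → f (A.act g z) = A.j g z ^ (n * k + 1) * f z := by
  obtain ⟨k0, hk0⟩ := ps_zero_ne hA
  refine ⟨k0 + 4, A.ps (n * (k0 + 4) + 1), ps_analytic hA (by nlinarith), hk0 _ (by nlinarith),
    fun g z hz => ps_act _ g hz⟩

end DiscAct

end Pool.Agent.MP_54e5d7_al.ATC.Split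

end MrgPart1

-- ======== part 2: formerly Pool.Agent.MP_54e5d7_al.atc.split.Tau
section MrgPart2

/-! Splitting, part 3: the integer cochains counting orbit points in triangles;
their class does not depend on the point. -/

namespace Pool.Agent.MP_54e5d7_al.ATC.Split

open Complex Metric Filter Topology ComplexConjugate

lemma ratio_tendsto {ι : Type*} {F : Filter ι} {u v : ι → ℂ} {α β : ℂ} {ε : ℝ} (hε : 0 < ε)
    (h : ∀ᶠ i in F, ε ≤ ‖α * u i + β‖) (hd : Tendsto (fun i => v i - u i) F (𝓝 0)) :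
    Tendsto (fun i => (α * v i + β) / (α * u i + β)) F (𝓝 1) := by
  rw [tendsto_iff_norm_sub_tendsto_zero]
  have h1 := (hd.norm.const_mul ‖α‖).div_const ε
  simp only [norm_zero, mul_zero, zero_div] at h1
  refine squeeze_zero' (Eventually.of_forall fun i => norm_nonneg _) ?_ h1
  filter_upwards [h] with i hi
  have hp : 0 < ‖α * u i + β‖ := hε.trans_le hi
  have hne : α * u i + β ≠ 0 := norm_pos_iff.1 hp
  have e : (α * v i + β) / (α * u i + β) - 1 = α * (v i - u i) / (α * u i + β) := by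
    field_simp; ring
  rw [e, norm_div, norm_mul]
  exact div_le_div_of_nonneg_left (by positivity) hε hi

/-- Argument of `phi p z / z`, cut along the segment from `0` to `p`. -/
noncomputable def theta (p z : ℂ) : ℝ := arg (1 - p / z) - arg (1 - conj p * z)

lemma arg_phi {p z : ℂ} (hp : ‖p‖ < 1) (hz : ‖z‖ < 1) (h : z ≠ p) (h0 : z ≠ 0) :
    (arg (phi p z) : Real.Angle) = arg z + theta p z := by
  have h1 : 1 - p / z ≠ 0 := by
    rw [sub_ne_zero, Ne, eq_div_iff h0, one_mul]; exact h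
  have e : phi p z = z * (1 - p / z) / (1 - conj p * z) := by
    rw [phi]; congr 1; field_simp
  rw [e, arg_div_coe_angle (mul_ne_zero h0 h1) (one_sub_ne hp hz), arg_mul_coe_angle h0 h1, theta,
    Real.Angle.coe_sub]
  abel

lemma re_one_sub_pos {w : ℂ} (h : ‖w‖ < 1) : 0 < (1 - w).re := by
  have := Complex.re_le_norm w
  simp only [sub_re, one_re]; linarith

namespace DiscAct

variable {H : Type*} [Group H] {A : DiscAct H}

lemma eventually_lt_norm (hA : A.Good) {y : ℂ} (hy : ‖y‖ < 1) {ρ : ℝ} (hρ : ρ < 1) :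
    ∀ᶠ g in cofinite, ρ < ‖A.act g y‖ := by
  have h1 : Tendsto (fun g => (‖A.d g‖⁻¹ * (1 - ‖y‖)⁻¹) ^ 2) cofinite (𝓝 0) := by
    simpa using ((tendsto_inv_d hA).mul_const (1 - ‖y‖)⁻¹).pow 2
  filter_upwards [h1.eventually (gt_mem_nhds (by linarith : (0 : ℝ) < 1 - ρ))] with g hg
  have h2 := A.one_sub_norm_act g hy
  have h3 := pow_le_pow_left₀ (norm_nonneg _) (norm_inv_j_le (A := A) g hy le_rfl) 2
  rw [norm_inv] at h3
  rw [div_eq_mul_inv, ← inv_pow] at h2
  have h4 : 0 ≤ ‖A.j g y‖⁻¹ ^ 2 := by positivity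
  have h5 := A.act_lt g hy
  have h6 := norm_nonneg (A.act g y)
  nlinarith [mul_nonneg (sq_nonneg ‖y‖) h4]

lemma tendsto_act_sub (hA : A.Good) {y y' : ℂ} (hy : ‖y‖ < 1) (hy' : ‖y'‖ < 1) :
    Tendsto (fun g => A.act g y' - A.act g y) cofinite (𝓝 0) := by
  rw [tendsto_zero_iff_norm_tendsto_zero]
  have h1 := (((tendsto_inv_d hA).mul_const (1 - ‖y'‖)⁻¹).mul
    ((tendsto_inv_d hA).mul_const (1 - ‖y‖)⁻¹)).const_mul ‖y' - y‖
  simp only [zero_mul, mul_zero] at h1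
  refine squeeze_zero (fun g => norm_nonneg _) (fun g => ?_) h1
  rw [A.act_sub g hy' hy, div_eq_mul_inv, mul_inv, norm_mul, norm_mul, norm_mul, A.norm_det,
    one_mul]
  exact mul_le_mul_of_nonneg_left (mul_le_mul (norm_inv_j_le g hy' le_rfl)
    (norm_inv_j_le g hy le_rfl) (norm_nonneg _) ((norm_nonneg _).trans
      (norm_inv_j_le g hy' le_rfl))) (norm_nonneg _)

lemma tendsto_r1 (hA : A.Good) {p y y' : ℂ} (hp : ‖p‖ < 1) (hy : ‖y‖ < 1) (hy' : ‖y'‖ < 1) :
    Tendsto (fun g => (A.act g y' - p) / (A.act g y - p)) cofinite (𝓝 1) := by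
  have := ratio_tendsto (α := 1) (β := -p) (ε := (1 - ‖p‖) / 2) (by linarith) ?_
    (tendsto_act_sub hA hy hy')
  · simpa [sub_eq_add_neg] using this
  · filter_upwards [eventually_lt_norm hA hy (by linarith : (1 + ‖p‖) / 2 < 1)] with g hg
    have := norm_sub_norm_le (A.act g y) p
    rw [one_mul, ← sub_eq_add_neg]; linarith

lemma tendsto_r2 (hA : A.Good) {p y y' : ℂ} (hp : ‖p‖ < 1) (hy : ‖y‖ < 1) (hy' : ‖y'‖ < 1) :
    Tendsto (fun g => (1 - conj p * A.act g y') / (1 - conj p * A.act g y)) cofinite (𝓝 1) := by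
  have := ratio_tendsto (α := -conj p) (β := 1) (ε := 1 - ‖p‖) (by linarith) ?_
    (tendsto_act_sub hA hy hy')
  · refine this.congr fun g => ?_
    congr 1 <;> ring
  · refine Eventually.of_forall fun g => ?_
    have h1 := norm_one_sub_ge p (A.act g y)
    have h2 := A.act_lt g hy
    rw [show -conj p * A.act g y + 1 = 1 - conj p * A.act g y by ring]
    nlinarith [norm_nonneg p]

lemma tendsto_ang (hA : A.Good) {p y y' : ℂ} (hp : ‖p‖ < 1) (hy : ‖y‖ < 1) (hy' : ‖y'‖ < 1) :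
    Tendsto (fun g => ang p (A.act g y) (A.act g y')) cofinite (𝓝 0) := by
  apply tendsto_arg_one
  have := (tendsto_r1 hA hp hy hy').mul (tendsto_r2 hA hp hy' hy)
  rw [mul_one] at this
  refine this.congr fun g => ?_
  rw [phi, phi, div_div_div_eq, div_mul_div_comm, mul_comm (A.act g y - p)]

lemma tendsto_theta (hA : A.Good) {p y y' : ℂ} (hp : ‖p‖ < 1) (hy : ‖y‖ < 1) (hy' : ‖y'‖ < 1) :
    Tendsto (fun g => theta p (A.act g y') - theta p (A.act g y)) cofinite (𝓝 0) := by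
  have h0 : ‖(0 : ℂ)‖ < 1 := by simp
  have h1 := (tendsto_r1 hA hp hy hy').mul (tendsto_r1 hA h0 hy' hy)
  rw [mul_one] at h1
  have h2 := (tendsto_arg_one h1).sub (tendsto_arg_one (tendsto_r2 hA hp hy hy'))
  rw [sub_zero] at h2
  refine h2.congr' ?_
  filter_upwards [eventually_lt_norm hA hy hp, eventually_lt_norm hA hy' hp] with g hg hg'
  have a1 : ∀ {u : ℂ}, ‖p‖ < ‖u‖ → 0 < (1 - p / u).re := fun {u} hu => by
    apply re_one_sub_pos
    rw [norm_div, div_lt_one ((norm_nonneg p).trans_lt hu)]; exact hu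
  have a2 : ∀ {u : ℂ}, ‖u‖ < 1 → 0 < (1 - conj p * u).re := fun {u} hu => by
    apply re_one_sub_pos
    rw [norm_mul, Complex.norm_conj]; nlinarith [norm_nonneg p, norm_nonneg u]
  have n1 : A.act g y ≠ 0 := norm_pos_iff.1 ((norm_nonneg p).trans_lt hg)
  have n2 : A.act g y' ≠ 0 := norm_pos_iff.1 ((norm_nonneg p).trans_lt hg')
  have n3 : A.act g y - p ≠ 0 := sub_ne_zero.2 fun h => by rw [h] at hg; exact lt_irrefl _ hg
  have e : (A.act g y' - p) / (A.act g y - p) * ((A.act g y - 0) / (A.act g y' - 0)) =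
      (1 - p / A.act g y') / (1 - p / A.act g y) := by
    rw [sub_zero, sub_zero]
    have : 1 - p / A.act g y ≠ 0 := by
      intro h; apply n3; field_simp at h; linear_combination h
    field_simp
  rw [e, arg_div_of_re_pos (a1 hg') (a1 hg), arg_div_of_re_pos (a2 (A.act_lt g hy'))
    (a2 (A.act_lt g hy)), theta, theta]
  ring

/-- One term of the counting cochain. -/
noncomputable def W (A : DiscAct H) (o p : ℂ) (g h γ : H) : ℝ :=
  tri p (A.act γ o) (A.act (γ * g) o) (A.act (γ * g * h) o)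

/-- The counting cochain: `2 π` times the signed number of points of the orbit of `p` in the
triangle with vertices `o, g o, g h o`. -/
noncomputable def T (A : DiscAct H) (K : Subgroup H) (o p : ℂ) (g h : H) : ℝ :=
  ∑' γ : K, A.W o p g h γ

/-- One term of the crossing cochain. -/
noncomputable def I1 (A : DiscAct H) (o p : ℂ) (g γ : H) : ℝ :=
  ang p (A.act γ o) (A.act (γ * g) o) - ang 0 (A.act γ o) (A.act (γ * g) o) -
    (theta p (A.act (γ * g) o) - theta p (A.act γ o))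

/-- The crossing cochain. -/
noncomputable def B1 (A : DiscAct H) (K : Subgroup H) (o p : ℂ) (g : H) : ℝ :=
  ∑' γ : K, A.I1 o p g γ

variable {o p : ℂ}

lemma W_z2 (ho : ‖o‖ < 1) (hp : ‖p‖ < 1) (hne : ∀ g, A.act g o ≠ p) (g h γ : H) :
    Z2 (A.W o p g h γ) :=
  tri_z2 (phi_ne hp (A.act_lt _ ho) (hne _)) (phi_ne hp (A.act_lt _ ho) (hne _))
    (phi_ne hp (A.act_lt _ ho) (hne _))

lemma W_finite (hA : A.Good) (ho : ‖o‖ < 1) (hp : ‖p‖ < 1) (hne : ∀ g, A.act g o ≠ p) (g h : H) :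
    (Function.support (A.W o p g h)).Finite := by
  refine finite_support_of_tendsto (W_z2 ho hp hne g h) ?_
  have := ((tendsto_ang hA hp ho (A.act_lt g ho)).add
    (tendsto_ang hA hp (A.act_lt g ho) (A.act_lt (g * h) ho))).sub
    (tendsto_ang hA hp ho (A.act_lt (g * h) ho))
  simp only [add_zero, sub_zero] at this
  refine this.congr fun γ => ?_
  rw [W, tri, mul_assoc, A.act_mul γ g ho, A.act_mul γ (g * h) ho]

lemma I1_z2 (ho : ‖o‖ < 1) (hp : ‖p‖ < 1) (hne : ∀ g, A.act g o ≠ p) (h0 : ∀ g, A.act g o ≠ 0)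
    (g γ : H) : Z2 (A.I1 o p g γ) := by
  rw [z2_iff, I1, ang, ang, phi_zero, phi_zero, Real.Angle.coe_sub, Real.Angle.coe_sub,
    Real.Angle.coe_sub, arg_div_coe_angle (phi_ne hp (A.act_lt _ ho) (hne _))
      (phi_ne hp (A.act_lt _ ho) (hne _)), arg_div_coe_angle (h0 _) (h0 _),
    arg_phi hp (A.act_lt _ ho) (hne _) (h0 _), arg_phi hp (A.act_lt _ ho) (hne _) (h0 _)]
  abel

lemma I1_finite (hA : A.Good) (ho : ‖o‖ < 1) (hp : ‖p‖ < 1) (hne : ∀ g, A.act g o ≠ p)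
    (h0 : ∀ g, A.act g o ≠ 0) (g : H) : (Function.support (A.I1 o p g)).Finite := by
  refine finite_support_of_tendsto (I1_z2 ho hp hne h0 g) ?_
  have := ((tendsto_ang hA hp ho (A.act_lt g ho)).sub
    (tendsto_ang hA (p := 0) (by simp) ho (A.act_lt g ho))).sub
    (tendsto_theta hA hp ho (A.act_lt g ho))
  simp only [sub_zero] at this
  refine this.congr fun γ => ?_
  rw [I1, A.act_mul γ g ho]

lemma finite_restrict (K : Subgroup H) {f : H → ℝ} (hf : (Function.support f).Finite) :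
    (Function.support fun γ : K => f γ).Finite :=
  hf.preimage (f := ((↑) : K → H)) Subtype.val_injective.injOn

lemma T_z2 (hA : A.Good) (K : Subgroup H) (ho : ‖o‖ < 1) (hp : ‖p‖ < 1)
    (hne : ∀ g, A.act g o ≠ p) (g h : H) : Z2 (A.T K o p g h) :=
  Z2.tsum (finite_restrict K (W_finite hA ho hp hne g h)) fun γ => W_z2 ho hp hne g h γ

lemma B1_z2 (hA : A.Good) (K : Subgroup H) (ho : ‖o‖ < 1) (hp : ‖p‖ < 1)
    (hne : ∀ g, A.act g o ≠ p) (h0 : ∀ g, A.act g o ≠ 0) (g : H) : Z2 (A.B1 K o p g) :=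
  Z2.tsum (finite_restrict K (I1_finite hA ho hp hne h0 g)) fun γ => I1_z2 ho hp hne h0 g γ

/-- The class of the counting cochain does not depend on the point. -/
lemma T_eq (hA : A.Good) (K : Subgroup H) (ho : ‖o‖ < 1) (hp : ‖p‖ < 1)
    (hne : ∀ g, A.act g o ≠ p) (h0 : ∀ g, A.act g o ≠ 0) {g : H} (hg : g ∈ K) (h : H) :
    A.T K o p g h = A.T K o 0 g h + (A.B1 K o p g + A.B1 K o p h - A.B1 K o p (g * h)) := by
  have s : ∀ g, Summable fun γ : K => A.I1 o p g γ := fun g =>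
    summable_of_hasFiniteSupport (finite_restrict K (I1_finite hA ho hp hne h0 g))
  have s0 : Summable fun γ : K => A.W o 0 g h γ :=
    summable_of_hasFiniteSupport (finite_restrict K (W_finite hA ho (by simp) h0 g h))
  have s2 : Summable fun γ : K => A.I1 o p h (γ * g) :=
    ((Equiv.mulRight (⟨g, hg⟩ : K)).summable_iff (f := fun γ : K => A.I1 o p h γ)).2 (s h)
  have e2 : A.B1 K o p h = ∑' γ : K, A.I1 o p h (γ * g) :=
    ((Equiv.mulRight (⟨g, hg⟩ : K)).tsum_eq fun γ : K => A.I1 o p h γ).symm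
  rw [e2, B1, B1, T, T, ← (s g).tsum_add s2, ← ((s g).add s2).tsum_sub (s _),
    ← s0.tsum_add (((s g).add s2).sub (s _))]
  refine tsum_congr fun γ => ?_
  simp only [W, I1, tri, mul_assoc]
  ring

end DiscAct

end Pool.Agent.MP_54e5d7_al.ATC.Split

end MrgPart2

-- ======== part 3: formerly Pool.Agent.MP_54e5d7_al.atc.split.Fac
section MrgPart3

/-! Splitting, part 4: variation of the argument of an automorphic form. -/

namespace Pool.Agent.MP_54e5d7_al.ATC.Split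

open Complex Metric Filter Topology ComplexConjugate

lemma const_of_exp {X : Type*} [TopologicalSpace X] {s : Set X} (hs : IsPreconnected s)
    {F : X → ℂ} (hF : ContinuousOn F s) (h : ∀ a ∈ s, ∀ a' ∈ s, exp (F a) = exp (F a'))
    {a a' : X} (ha : a ∈ s) (ha' : a' ∈ s) : F a = F a' :=
  isCoveringMap_exp.constOn_of_comp hs hF (fun a ha a' ha' => Subtype.ext (h a ha a' ha')) ha ha'

lemma factor_one {U : Set ℂ} {f : ℂ → ℂ} (hf : AnalyticOnNhd ℂ f U) {Q : ℂ} (hQ : Q ∈ U)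
    (hfin : analyticOrderAt f Q ≠ ⊤) :
    ∃ g : ℂ → ℂ, AnalyticOnNhd ℂ g U ∧ g Q ≠ 0 ∧
      ∀ z, f z = (z - Q) ^ analyticOrderNatAt f Q * g z := by
  classical
  obtain ⟨g0, hg0, hne, heq⟩ := ((hf Q hQ).analyticOrderNatAt_eq_iff hfin).1 rfl
  set m := analyticOrderNatAt f Q
  refine ⟨fun z => if z = Q then g0 Q else f z / (z - Q) ^ m, fun z hz => ?_, by simpa using hne,
    fun z => ?_⟩
  · by_cases h : z = Q
    · subst h
      refine hg0.congr ?_
      filter_upwards [heq] with w hw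
      split_ifs with h1
      · rw [h1]
      · rw [hw, smul_eq_mul, mul_div_cancel_left₀ _ (pow_ne_zero _ (sub_ne_zero.2 h1))]
    · have : AnalyticAt ℂ (fun w => f w / (w - Q) ^ m) z :=
        (hf z hz).div (by fun_prop) (pow_ne_zero _ (sub_ne_zero.2 h))
      refine this.congr ?_
      filter_upwards [isOpen_ne.mem_nhds h] with w hw
      rw [if_neg hw]
  · dsimp only
    split_ifs with h
    · subst h; simpa using heq.self_of_nhds
    · rw [mul_div_cancel₀ _ (pow_ne_zero _ (sub_ne_zero.2 h))]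

lemma factor {U : Set ℂ} {f : ℂ → ℂ} (hf : AnalyticOnNhd ℂ f U)
    (hfin : ∀ P ∈ U, analyticOrderAt f P ≠ ⊤) (S : Finset ℂ) (hS : ∀ P ∈ S, P ∈ U) :
    ∃ g : ℂ → ℂ, AnalyticOnNhd ℂ g U ∧ (∀ P ∈ S, g P ≠ 0) ∧
      ∀ z, f z = (∏ P ∈ S, (z - P) ^ analyticOrderNatAt f P) * g z := by
  classical
  induction S using Finset.induction_on with
  | empty => exact ⟨f, hf, by simp, by simp⟩
  | insert Q S hQ ih =>
    obtain ⟨g, hg, hne, heq⟩ := ih fun P hP => hS P (Finset.mem_insert_of_mem hP)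
    have hQU := hS Q (Finset.mem_insert_self _ _)
    have hpa : AnalyticAt ℂ (fun z => ∏ P ∈ S, (z - P) ^ analyticOrderNatAt f P) Q :=
      Finset.analyticAt_fun_prod _ fun P _ => by fun_prop
    have hp0 : (∏ P ∈ S, (Q - P) ^ analyticOrderNatAt f P) ≠ 0 :=
      Finset.prod_ne_zero_iff.2 fun P hP => pow_ne_zero _ (sub_ne_zero.2 fun h => hQ (h ▸ hP))
    have hord : analyticOrderAt f Q = analyticOrderAt g Q := by
      have e : f = (fun z => ∏ P ∈ S, (z - P) ^ analyticOrderNatAt f P) * g := funext heq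
      have := analyticOrderAt_mul hpa (hg Q hQU)
      rw [← e, hpa.analyticOrderAt_eq_zero.2 hp0, zero_add] at this
      exact this
    obtain ⟨g1, hg1, hne1, heq1⟩ := factor_one hg hQU (hord ▸ hfin Q hQU)
    have hn : analyticOrderNatAt g Q = analyticOrderNatAt f Q := by
      simp only [analyticOrderNatAt, hord]
    refine ⟨g1, hg1, fun P hP => ?_, fun z => ?_⟩
    · rcases Finset.mem_insert.1 hP with rfl | hP
      · exact hne1
      · intro h; exact hne P hP (by rw [heq1, h, mul_zero])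
    · rw [Finset.prod_insert hQ, heq z, heq1 z, hn]; ring

/-- Factorisation of `f` on the disc of radius `r`. -/
structure Pres (f : ℂ → ℂ) (r : ℝ) (S : Finset ℂ) (G : ℂ → ℂ) : Prop where
  mem : ∀ P, P ∈ S ↔ ‖P‖ < r ∧ f P = 0
  cont : ContinuousOn G (ball 0 r)
  eq : ∀ z, ‖z‖ < r → f z = (∏ P ∈ S, phi P z ^ analyticOrderNatAt f P) * exp (G z)

/-- Variation of the argument of `f` from `x` to `y`. -/
noncomputable def val (f : ℂ → ℂ) (S : Finset ℂ) (G : ℂ → ℂ) (x y : ℂ) : ℝ :=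
  ∑ P ∈ S, analyticOrderNatAt f P * ang P x y + (G y - G x).im

lemma order_ne_top {f : ℂ → ℂ} (hf : AnalyticOnNhd ℂ f (ball 0 1)) (h0 : f 0 ≠ 0) {P : ℂ}
    (hP : ‖P‖ < 1) : analyticOrderAt f P ≠ ⊤ := by
  have h1 : (0 : ℂ) ∈ ball (0 : ℂ) 1 := by simp
  refine hf.analyticOrderAt_ne_top_of_isPreconnected (convex_ball _ _).isPreconnected h1
    (mem_ball_zero_iff.2 hP) ?_
  rw [(hf 0 h1).analyticOrderAt_eq_zero.2 h0]; exact ENat.zero_ne_top

lemma zeros_finite {f : ℂ → ℂ} (hf : AnalyticOnNhd ℂ f (ball 0 1)) (h0 : f 0 ≠ 0) {r : ℝ}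
    (hr0 : 0 ≤ r) (hr : r < 1) : {P : ℂ | ‖P‖ ≤ r ∧ f P = 0}.Finite := by
  have h1 := (hf.mono (closedBall_subset_ball hr)).preimage_zero_mem_codiscreteWithin h0
    (mem_closedBall_self hr0) (isConnected_closedBall hr0)
  refine ((isCompact_closedBall (0 : ℂ) r).finite_sdiff_of_mem_codiscreteWithin h1).subset
    fun P hP => ⟨mem_closedBall_zero_iff.2 hP.1, by simpa using hP.2⟩

lemma exists_pres {f : ℂ → ℂ} (hf : AnalyticOnNhd ℂ f (ball 0 1)) (h0 : f 0 ≠ 0) {r : ℝ}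
    (hr0 : 0 < r) (hr : r < 1) : ∃ S G, Pres f r S G := by
  have hfin := (zeros_finite hf h0 hr0.le hr).subset
    (t := {P : ℂ | ‖P‖ < r ∧ f P = 0}) fun P hP => ⟨hP.1.le, hP.2⟩
  have hmem : ∀ P, P ∈ hfin.toFinset ↔ ‖P‖ < r ∧ f P = 0 := fun P => by simp
  set S := hfin.toFinset
  obtain ⟨g, hg, hne, heq⟩ := factor hf (fun P hP => order_ne_top hf h0 (mem_ball_zero_iff.1 hP)) S
    fun P hP => mem_ball_zero_iff.2 (((hmem P).1 hP).1.trans hr)
  have hsc : IsSimplyConnected (ball (0 : ℂ) r) := by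
    have := (convex_ball (0 : ℂ) r).contractibleSpace (nonempty_ball.2 hr0)
    exact (inferInstance : SimplyConnectedSpace (ball (0 : ℂ) r))
  have h1 : ∀ P ∈ S, ∀ z, ‖z‖ < r → 1 - conj P * z ≠ 0 := fun P hP z hz =>
    one_sub_ne (((hmem P).1 hP).1.trans hr) (hz.trans hr)
  obtain ⟨G, hG, hexp⟩ := exists_continuousOn_eqOn_exp_comp hsc isOpen_ball
    (g := fun z => (∏ P ∈ S, (1 - conj P * z) ^ analyticOrderNatAt f P) * g z)
    (ContinuousOn.mul (by fun_prop) (hg.continuousOn.mono (ball_subset_ball hr.le))) (by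
      rintro ⟨z, hz, hz0⟩
      rw [mem_ball_zero_iff] at hz
      refine mul_ne_zero (Finset.prod_ne_zero_iff.2 fun P hP => pow_ne_zero _ (h1 P hP z hz))
        (fun h => ?_) hz0
      exact hne z ((hmem z).2 ⟨hz, by rw [heq, h, mul_zero]⟩) h)
  refine ⟨S, G, hmem, hG, fun z hz => ?_⟩
  have := hexp (mem_ball_zero_iff.2 hz)
  simp only [Function.comp] at this
  rw [this, heq z, ← mul_assoc, ← Finset.prod_mul_distrib]
  congr 1
  refine Finset.prod_congr rfl fun P hP => ?_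
  rw [← mul_pow, phi, div_mul_cancel₀ _ (h1 P hP z hz)]

lemma Pres.angle {f : ℂ → ℂ} {r : ℝ} {S : Finset ℂ} {G : ℂ → ℂ} (h : Pres f r S G) {x y : ℂ}
    (hx : ‖x‖ < r) (hy : ‖y‖ < r) (hfx : f x ≠ 0) (hfy : f y ≠ 0) :
    (val f S G x y : Real.Angle) = arg (f y) - arg (f x) := by
  have key : ∀ z, ‖z‖ < r → f z ≠ 0 → (arg (f z) : Real.Angle) =
      ∑ P ∈ S, analyticOrderNatAt f P • (arg (phi P z) : Real.Angle) + (G z).im := by
    intro z hz hfz
    have h1 := h.eq z hz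
    have h2 : ∀ P ∈ S, phi P z ^ analyticOrderNatAt f P ≠ 0 :=
      Finset.prod_ne_zero_iff.1 (left_ne_zero_of_mul (h1 ▸ hfz))
    rw [h1, arg_mul_coe_angle (Finset.prod_ne_zero_iff.2 h2) (exp_ne_zero _), arg_exp,
      Real.Angle.coe_toIocMod]
    congr 1
    clear h1 h
    classical
    induction S using Finset.induction_on with
    | empty => simp
    | insert Q S hQ ih =>
      have h3 : ∀ P ∈ S, phi P z ^ analyticOrderNatAt f P ≠ 0 := fun P hP =>
        h2 P (Finset.mem_insert_of_mem hP)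
      rw [Finset.prod_insert hQ, Finset.sum_insert hQ, arg_mul_coe_angle
        (h2 Q (Finset.mem_insert_self _ _)) (Finset.prod_ne_zero_iff.2 h3), ih h3,
        arg_pow_coe_angle]
  have h3 : ∀ P ∈ S, ∀ z, ‖z‖ < r → f z ≠ 0 → analyticOrderNatAt f P ≠ 0 → phi P z ≠ 0 := by
    intro P hP z hz hfz hm h0
    apply hfz
    rw [h.eq z hz, Finset.prod_eq_zero hP (by rw [h0, zero_pow hm]), zero_mul]
  have h4 : ((∑ P ∈ S, analyticOrderNatAt f P * ang P x y : ℝ) : Real.Angle) =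
      ∑ P ∈ S, (analyticOrderNatAt f P • (arg (phi P y) : Real.Angle) -
        analyticOrderNatAt f P • (arg (phi P x) : Real.Angle)) := by
    rw [← Real.Angle.coe_coeHom, map_sum]
    refine Finset.sum_congr rfl fun P hP => ?_
    by_cases hm : analyticOrderNatAt f P = 0
    · simp [hm]
    · rw [← nsmul_eq_mul, map_nsmul, Real.Angle.coe_coeHom, ang,
        arg_div_coe_angle (h3 P hP y hy hfy hm) (h3 P hP x hx hfx hm), smul_sub]
  rw [key x hx hfx, key y hy hfy, val, Real.Angle.coe_add, h4, Finset.sum_sub_distrib, sub_im,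
    Real.Angle.coe_sub]
  abel

namespace DiscAct

variable {H : Type*} [Group H] {A : DiscAct H} {f : ℂ → ℂ} {k : ℕ}

lemma order_act (hf : AnalyticOnNhd ℂ f (ball 0 1)) (h0 : f 0 ≠ 0) {g : H}
    (hg : ∀ z, ‖z‖ < 1 → f (A.act g z) = A.j g z ^ k * f z) {Q : ℂ} (hQ : ‖Q‖ < 1) :
    analyticOrderNatAt f (A.act g Q) = analyticOrderNatAt f Q := by
  have hQ' := A.act_lt g hQ
  obtain ⟨g0, hg0, hne, heq⟩ := ((hf _ (mem_ball_zero_iff.2 hQ')).analyticOrderNatAt_eq_iff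
    (order_ne_top hf h0 hQ')).1 rfl
  set m := analyticOrderNatAt f (A.act g Q)
  symm
  have hnb : ball (0 : ℂ) 1 ∈ 𝓝 Q := isOpen_ball.mem_nhds (mem_ball_zero_iff.2 hQ)
  have hact : AnalyticAt ℂ (A.act g) Q := (A.differentiableOn_act g).analyticAt hnb
  have hj : AnalyticAt ℂ (A.j g) Q := by unfold j; fun_prop
  have hjQ := A.j_ne g hQ
  rw [(hf _ (mem_ball_zero_iff.2 hQ)).analyticOrderNatAt_eq_iff (order_ne_top hf h0 hQ)]
  refine ⟨fun w => (A.det g / (A.j g w * A.j g Q)) ^ m * g0 (A.act g w) / A.j g w ^ k, ?_, ?_, ?_⟩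
  · refine AnalyticAt.div (AnalyticAt.mul (AnalyticAt.pow (AnalyticAt.div analyticAt_const
      (hj.mul analyticAt_const) (mul_ne_zero hjQ hjQ)) m) (hg0.comp hact)) (hj.pow k)
      (pow_ne_zero _ hjQ)
  · exact div_ne_zero (mul_ne_zero (pow_ne_zero _ (div_ne_zero (A.det_ne g)
      (mul_ne_zero hjQ hjQ))) hne) (pow_ne_zero _ hjQ)
  · filter_upwards [hact.continuousAt.eventually heq, hnb] with w hw hw1
    rw [mem_ball_zero_iff] at hw1
    have hjw := A.j_ne g hw1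
    rw [hg w hw1, A.act_sub g hw1 hQ, smul_eq_mul] at hw
    rw [smul_eq_mul, ← mul_div_assoc, eq_div_iff (pow_ne_zero _ hjw), mul_comm, hw, ← mul_assoc,
      ← mul_pow]
    congr 2; ring

/-- Transformation of the variation of the argument under the group. -/
lemma val_act (hf : AnalyticOnNhd ℂ f (ball 0 1)) (h0 : f 0 ≠ 0) {g : H}
    (hg : ∀ z, ‖z‖ < 1 → f (A.act g z) = A.j g z ^ k * f z) {r R : ℝ} (hr : r < 1) (hR : R < 1)
    {S S' : Finset ℂ} {G G' : ℂ → ℂ} (h : Pres f r S G) (h' : Pres f R S' G')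
    (hmap : ∀ z, ‖z‖ < r → ‖A.act g z‖ < R) {lam : ℂ → ℂ} (hlam : ContinuousOn lam (ball 0 r))
    (hexp : ∀ z, ‖z‖ < r → exp (lam z) = A.j g z) {x y : ℂ} (hx : ‖x‖ < r) (hy : ‖y‖ < r) :
    val f S' G' (A.act g x) (A.act g y) = val f S G x y + k * (lam y - lam x).im := by
  classical
  set m := analyticOrderNatAt f with hm
  have hS1 : ∀ P ∈ S, ‖P‖ < 1 := fun P hP => ((h.mem P).1 hP).1.trans hr
  have hS1' : ∀ P ∈ S', ‖P‖ < 1 := fun P hP => ((h'.mem P).1 hP).1.trans hR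
  have himg : S'.filter (fun P => ‖A.act g⁻¹ P‖ < r) = S.image (A.act g) := by
    ext P
    rw [Finset.mem_filter, Finset.mem_image]
    constructor
    · rintro ⟨hP, hlt⟩
      refine ⟨A.act g⁻¹ P, (h.mem _).2 ⟨hlt, ?_⟩, A.act_act_inv g (hS1' P hP)⟩
      have := hg _ (hlt.trans hr)
      rw [A.act_act_inv g (hS1' P hP), ((h'.mem P).1 hP).2] at this
      exact (mul_eq_zero.1 this.symm).resolve_left (pow_ne_zero _ (A.j_ne g (hlt.trans hr)))
    · rintro ⟨Q, hQ, rfl⟩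
      have hQ' := (h.mem Q).1 hQ
      refine ⟨(h'.mem _).2 ⟨hmap Q hQ'.1, ?_⟩, ?_⟩
      · rw [hg Q (hS1 Q hQ), hQ'.2, mul_zero]
      · rw [A.act_inv_act g (hS1 Q hQ)]; exact hQ'.1
  have hinj : Set.InjOn (A.act g) S := fun P hP Q hQ e => by
    rw [← A.act_inv_act g (hS1 P hP), e, A.act_inv_act g (hS1 Q hQ)]
  set So := S'.filter (fun P => ¬ ‖A.act g⁻¹ P‖ < r) with hSo
  have hSo1 : ∀ P ∈ So, ‖A.act g⁻¹ P‖ < 1 := fun P hP =>
    A.act_lt _ (hS1' P (Finset.mem_filter.1 hP).1)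
  have hSo2 : ∀ P ∈ So, ∀ z : ℂ, ‖z‖ < r → ‖z‖ < ‖A.act g⁻¹ P‖ := fun P hP z hz =>
    hz.trans_le (not_lt.1 (Finset.mem_filter.1 hP).2)
  have hSo3 : ∀ P ∈ So, A.act g (A.act g⁻¹ P) = P := fun P hP =>
    A.act_act_inv g (hS1' P (Finset.mem_filter.1 hP).1)
  set L : ℂ → ℂ → ℂ := fun P z => log (-(conj (A.act g⁻¹ P)) * phi (A.act g⁻¹ P) z) with hL
  set E : ℂ → ℂ := fun z => ∑ P ∈ So, m P * L P z + G' (A.act g z) - (k * lam z + G z) with hE
  set C : ℂ := (∏ Q ∈ S, A.eps g Q ^ m Q) *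
    ∏ P ∈ So, (A.eps g (A.act g⁻¹ P) / -(conj (A.act g⁻¹ P))) ^ m P with hC
  have hne0 : ∀ P ∈ So, -(conj (A.act g⁻¹ P)) ≠ 0 := fun P hP => by
    have := (norm_nonneg x).trans_lt (hSo2 P hP x hx)
    simpa using norm_pos_iff.1 this
  have hEc : ContinuousOn E (ball 0 r) := by
    refine ContinuousOn.sub (ContinuousOn.add (continuousOn_finsetSum _ fun P hP => ?_) ?_)
      ((hlam.const_mul _).add h.cont)
    · refine ContinuousOn.const_mul (ContinuousOn.clog (ContinuousOn.const_mul ?_ _)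
        fun z hz => Or.inl (re_pos_out (hSo1 P hP) (hSo2 P hP z (mem_ball_zero_iff.1 hz)))) _
      unfold phi
      exact ContinuousOn.div (by fun_prop) (by fun_prop) fun z hz =>
        one_sub_ne (hSo1 P hP) ((mem_ball_zero_iff.1 hz).trans hr)
    · exact h'.cont.comp ((A.differentiableOn_act g).continuousOn.mono (ball_subset_ball hr.le))
        fun z hz => mem_ball_zero_iff.2 (hmap z (mem_ball_zero_iff.1 hz))
  have hmain : Set.EqOn (fun z => C * exp (E z)) (fun _ => 1) (ball 0 r ∩ (S : Set ℂ)ᶜ) := by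
    rintro z ⟨hz, hzS⟩
    rw [mem_ball_zero_iff] at hz
    have hz1 := hz.trans hr
    have e1 := h'.eq _ (hmap z hz)
    rw [hg z hz1, h.eq z hz, ← Finset.prod_filter_mul_prod_filter_not S'
      (fun P => ‖A.act g⁻¹ P‖ < r), himg, Finset.prod_image hinj, ← hSo, ← hexp z hz] at e1
    have e2 : ∏ Q ∈ S, phi (A.act g Q) (A.act g z) ^ m (A.act g Q) =
        (∏ Q ∈ S, A.eps g Q ^ m Q) * ∏ Q ∈ S, phi Q z ^ m Q := by
      rw [← Finset.prod_mul_distrib]
      refine Finset.prod_congr rfl fun Q hQ => ?_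
      rw [hm, order_act hf h0 hg (hS1 Q hQ), A.phi_act g (hS1 Q hQ) hz1, mul_pow]
    have e3 : ∏ P ∈ So, phi P (A.act g z) ^ m P =
        (∏ P ∈ So, (A.eps g (A.act g⁻¹ P) / -(conj (A.act g⁻¹ P))) ^ m P) *
          exp (∑ P ∈ So, m P * L P z) := by
      rw [exp_sum, ← Finset.prod_mul_distrib]
      refine Finset.prod_congr rfl fun P hP => ?_
      have a1 := A.phi_act g (hSo1 P hP) hz1
      rw [hSo3 P hP] at a1
      have a2 : -(conj (A.act g⁻¹ P)) * phi (A.act g⁻¹ P) z ≠ 0 := fun h0 => by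
        have := re_pos_out (hSo1 P hP) (hSo2 P hP z hz)
        rw [h0] at this; simp at this
      rw [exp_nat_mul, hL]
      simp only
      rw [exp_log a2, ← mul_pow, a1, ← mul_assoc, div_mul_cancel₀ _ (hne0 P hP)]
    have e4 : ∏ Q ∈ S, phi Q z ^ m Q ≠ 0 := Finset.prod_ne_zero_iff.2 fun Q hQ =>
      pow_ne_zero _ (phi_ne (hS1 Q hQ) hz1 fun e => hzS (e ▸ hQ))
    rw [← hm, e2, e3] at e1
    simp only [hE, hC]
    rw [exp_sub, exp_add, exp_add, exp_nat_mul, ← mul_div_assoc,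
      div_eq_one_iff_eq (mul_ne_zero (pow_ne_zero _ (exp_ne_zero _)) (exp_ne_zero _))]
    apply mul_left_cancel₀ e4
    linear_combination -e1
  have hall : Set.EqOn (fun z => C * exp (E z)) (fun _ => 1) (ball 0 r) :=
    hmain.of_subset_closure (hEc.cexp.const_mul C) continuousOn_const Set.inter_subset_left
      ((S.finite_toSet.countable.dense_compl ℂ).open_subset_closure_inter isOpen_ball)
  have hconst : E y = E x := by
    refine const_of_exp (convex_ball _ _).isPreconnected hEc (fun a ha a' ha' => ?_)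
      (mem_ball_zero_iff.2 hy) (mem_ball_zero_iff.2 hx)
    have a1 : C * exp (E a) = 1 := hall ha
    have a2 : C * exp (E a') = 1 := hall ha'
    exact mul_left_cancel₀ (left_ne_zero_of_mul_eq_one a1) (a1.trans a2.symm)
  have him := congrArg Complex.im hconst
  simp only [hE, sub_im, add_im, im_sum, mul_im, natCast_re, natCast_im, zero_mul, add_zero, hL,
    log_im] at him
  have s1 : ∑ P ∈ S', (m P : ℝ) * ang P (A.act g x) (A.act g y) =
      ∑ Q ∈ S, (m Q : ℝ) * ang Q x y + (∑ P ∈ So, (m P : ℝ) *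
        arg (-(conj (A.act g⁻¹ P)) * phi (A.act g⁻¹ P) y) - ∑ P ∈ So, (m P : ℝ) *
        arg (-(conj (A.act g⁻¹ P)) * phi (A.act g⁻¹ P) x)) := by
    rw [← Finset.sum_filter_add_sum_filter_not S' (fun P => ‖A.act g⁻¹ P‖ < r), himg,
      Finset.sum_image hinj, ← hSo, ← Finset.sum_sub_distrib]
    congr 1
    · refine Finset.sum_congr rfl fun Q hQ => ?_
      rw [hm, order_act hf h0 hg (hS1 Q hQ), A.ang_act g (hS1 Q hQ) (hx.trans hr) (hy.trans hr)]
    · refine Finset.sum_congr rfl fun P hP => ?_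
      rw [← mul_sub, ← ang_out (hSo1 P hP) (hSo2 P hP x hx) (hSo2 P hP y hy),
        ← A.ang_act g (hSo1 P hP) (hx.trans hr) (hy.trans hr), hSo3 P hP]
  rw [val, val, ← hm, s1, sub_im, sub_im, sub_im]
  linarith

end DiscAct

end Pool.Agent.MP_54e5d7_al.ATC.Split

end MrgPart3

-- ======== part 4: formerly Pool.Agent.MP_54e5d7_al.atc.split.Main
section MrgPart4

/-! Splitting, part 5: the `n`-th root extension of the automorphy factor splits over every
subgroup of index divisible by `n` of a group acting freely, properly and cocompactly. -/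

namespace Pool.Agent.MP_54e5d7_al.ATC.Split

open Complex Metric Filter Topology ComplexConjugate

namespace DiscAct

variable {H : Type*} [Group H] {A : DiscAct H} {f : ℂ → ℂ} {k : ℕ}

/-- A chosen point in the orbit of `P`. -/
noncomputable def rep (A : DiscAct H) (P : ℂ) : ℂ :=
  Classical.epsilon fun Q => ∃ g, Q = A.act g P

lemma rep_spec (P : ℂ) : ∃ g, A.rep P = A.act g P :=
  Classical.epsilon_spec (p := fun Q => ∃ g, Q = A.act g P) ⟨P, 1, by simp⟩

lemma rep_act (h : H) {P : ℂ} (hP : ‖P‖ < 1) : A.rep (A.act h P) = A.rep P := by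
  unfold rep
  congr 1
  funext Q
  apply propext
  constructor
  · rintro ⟨g, rfl⟩; exact ⟨g * h, (A.act_mul g h hP).symm⟩
  · rintro ⟨g, rfl⟩; exact ⟨g * h⁻¹, by rw [← A.act_mul _ _ hP]; simp⟩

lemma exists_R (g : H) {r : ℝ} (hr0 : 0 ≤ r) (hr : r < 1) :
    ∃ R : ℝ, R < 1 ∧ ∀ z : ℂ, ‖z‖ < r → ‖A.act g z‖ < R := by
  obtain ⟨w, hw, hmax⟩ := (isCompact_closedBall (0 : ℂ) r).exists_isMaxOn
    (nonempty_closedBall.2 hr0)
    ((A.differentiableOn_act g).continuousOn.mono (closedBall_subset_ball hr)).norm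
  obtain ⟨R, h1, h2⟩ := exists_between (A.act_lt g ((mem_closedBall_zero_iff.1 hw).trans_lt hr))
  exact ⟨R, h2, fun z hz => lt_of_le_of_lt (hmax (mem_closedBall_zero_iff.2 hz.le)) h1⟩

/-- The sum over all zeros of a form, unfolded over a subgroup of finite index. -/
lemma zero_sum (hA : A.Good) (hf : AnalyticOnNhd ℂ f (ball 0 1)) (h0 : f 0 ≠ 0)
    (hg : ∀ g z, ‖z‖ < 1 → f (A.act g z) = A.j g z ^ k * f z) (K : Subgroup H)
    [Fintype (H ⧸ K)] :
    ∃ Z : Finset ℂ, (∀ p ∈ Z, ‖p‖ < 1 ∧ f p = 0) ∧ ∀ (o : ℂ) (g h : H) (R : ℝ) (S : Finset ℂ),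
      R < 1 → (∀ P, P ∈ S ↔ ‖P‖ < R ∧ f P = 0) → ‖o‖ < R → ‖A.act g o‖ < R →
      ‖A.act (g * h) o‖ < R →
      ∑ P ∈ S, analyticOrderNatAt f P * tri P o (A.act g o) (A.act (g * h) o) =
        ∑ p ∈ Z, analyticOrderNatAt f p * ∑ q : H ⧸ K, A.T K o (A.act q.out⁻¹ p) g h := by
  classical
  obtain ⟨r, hr, hcc⟩ := hA.cocompact
  have hr0 : 0 ≤ r := by
    obtain ⟨g, hg⟩ := hcc 0 (by simp)
    exact (norm_nonneg _).trans hg
  have hfin := zeros_finite hf h0 hr0 hr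
  have hzero : ∀ g P, ‖P‖ < 1 → f P = 0 → f (A.act g P) = 0 := fun g P hP h => by
    rw [hg g P hP, h, mul_zero]
  set Z := hfin.toFinset.image A.rep with hZ
  have hZ1 : ∀ p ∈ Z, (‖p‖ < 1 ∧ f p = 0) ∧ A.rep p = p := by
    intro p hp
    obtain ⟨P, hP, rfl⟩ := Finset.mem_image.1 hp
    have hP' : ‖P‖ ≤ r ∧ f P = 0 := by simpa using hP
    have hP1 := hP'.1.trans_lt hr
    obtain ⟨g, e⟩ := rep_spec (A := A) P
    refine ⟨⟨by rw [e]; exact A.act_lt g hP1, by rw [e]; exact hzero g P hP1 hP'.2⟩, ?_⟩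
    conv_lhs => rw [e, rep_act g hP1]
  refine ⟨Z, fun p hp => (hZ1 p hp).1, fun o g h R S hR hS ho hx hy => ?_⟩
  have ho1 := ho.trans hR
  set F : ℂ → ℝ := fun P => if ‖P‖ < 1 ∧ f P = 0 then
    analyticOrderNatAt f P * tri P o (A.act g o) (A.act (g * h) o) else 0 with hF
  have hF0 : ∀ P ∉ S, F P = 0 := by
    intro P hP
    simp only [hF]
    split_ifs with h1
    · have : R ≤ ‖P‖ := not_lt.1 fun h2 => hP ((hS P).2 ⟨h2, h1.2⟩)
      rw [tri_out h1.1 (ho.trans_le this) (hx.trans_le this) (hy.trans_le this), mul_zero]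
    · rfl
  have e1 : ∑ P ∈ S, analyticOrderNatAt f P * tri P o (A.act g o) (A.act (g * h) o) =
      ∑' P, F P := by
    rw [tsum_eq_sum hF0]
    refine Finset.sum_congr rfl fun P hP => ?_
    simp only [hF]
    rw [if_pos ⟨((hS P).1 hP).1.trans hR, ((hS P).1 hP).2⟩]
  set Φ : Z × (H ⧸ K) × K → ℂ := fun t => A.act (t.2.1.out * t.2.2)⁻¹ t.1 with hΦ
  have hinj : Function.Injective Φ := by
    rintro ⟨⟨p, hp⟩, q, γ⟩ ⟨⟨p', hp'⟩, q', γ'⟩ e
    simp only [hΦ] at e
    have hp1 := (hZ1 p hp).1.1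
    have hpp : p = p' := by
      rw [← (hZ1 p hp).2, ← (hZ1 p' hp').2, ← rep_act (q.out * γ)⁻¹ hp1, e,
        rep_act _ (hZ1 p' hp').1.1]
    subst hpp
    have e2 := congrArg (A.act (q'.out * γ')) e
    rw [A.act_act_inv _ hp1, ← A.act_mul _ _ hp1] at e2
    have e3 : q'.out * γ' = q.out * γ := mul_inv_eq_one.1 (hA.free _ p hp1 e2)
    have e4 : q' = q := by
      have := congrArg (QuotientGroup.mk (s := K)) e3
      rwa [QuotientGroup.mk_mul_of_mem _ γ'.2, QuotientGroup.mk_mul_of_mem _ γ.2,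
        QuotientGroup.out_eq', QuotientGroup.out_eq'] at this
    subst e4
    rw [Subtype.ext (mul_left_cancel e3)]
  have hsurj : Function.support F ⊆ Set.range Φ := by
    intro P hP
    have h1 : ‖P‖ < 1 ∧ f P = 0 := by
      by_contra hc
      exact hP (by simp only [hF]; rw [if_neg hc])
    obtain ⟨a, ha⟩ := hcc P h1.1
    obtain ⟨η, e⟩ := rep_spec (A := A) P
    have hmem : A.rep P ∈ Z := Finset.mem_image.2
      ⟨A.act a P, by simpa using ⟨ha, hzero a P h1.1 h1.2⟩, rep_act a h1.1⟩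
    obtain ⟨γ, hγ⟩ := QuotientGroup.mk_out_eq_mul K η
    refine ⟨⟨⟨_, hmem⟩, QuotientGroup.mk η, γ⁻¹⟩, ?_⟩
    simp only [hΦ, hγ, e, Subgroup.coe_inv, mul_inv_cancel_right]
    exact A.act_inv_act η h1.1
  have hsum : Summable fun t => F (Φ t) := by
    apply summable_of_hasFiniteSupport
    refine (S.finite_toSet.preimage hinj.injOn).subset fun t ht => ?_
    by_contra hc
    exact ht (hF0 _ hc)
  rw [e1, ← hinj.tsum_eq hsurj, hsum.tsum_prod, tsum_fintype, ← Finset.sum_coe_sort Z]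
  refine Finset.sum_congr rfl fun p _ => ?_
  rw [(hsum.prod_factor p).tsum_prod, tsum_fintype, Finset.mul_sum]
  refine Finset.sum_congr rfl fun q _ => ?_
  rw [T, ← tsum_mul_left]
  refine tsum_congr fun γ => ?_
  obtain ⟨⟨hp1, hp0⟩, -⟩ := hZ1 p p.2
  simp only [hF, hΦ]
  rw [if_pos ⟨A.act_lt _ hp1, hzero _ _ hp1 hp0⟩, order_act hf h0 (hg _) hp1, W,
    ← A.tri_act γ (A.act_lt _ hp1) ho1 (A.act_lt _ ho1) (A.act_lt _ ho1),
    ← A.act_mul _ _ hp1, ← A.act_mul _ _ ho1, ← A.act_mul _ _ ho1]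
  simp [mul_assoc]

/-- The cochain measuring the variation of the argument of the form along the edges. -/
lemma exists_beta (hf : AnalyticOnNhd ℂ f (ball 0 1)) (h0 : f 0 ≠ 0)
    (hg : ∀ g z, ‖z‖ < 1 → f (A.act g z) = A.j g z ^ k * f z) {lam : H → ℂ → ℂ}
    (hc : ∀ g, ContinuousOn (lam g) (ball 0 1))
    (he : ∀ g z, ‖z‖ < 1 → exp (lam g z) = A.j g z) {o : ℂ} (ho : ‖o‖ < 1) (hfo : f o ≠ 0) :
    ∃ β : H → ℝ, (∀ g, Z2 (β g)) ∧ ∀ g h, ∃ (R : ℝ) (S : Finset ℂ), R < 1 ∧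
      (∀ P, P ∈ S ↔ ‖P‖ < R ∧ f P = 0) ∧ ‖o‖ < R ∧ ‖A.act g o‖ < R ∧ ‖A.act (g * h) o‖ < R ∧
      ∑ P ∈ S, analyticOrderNatAt f P * tri P o (A.act g o) (A.act (g * h) o) =
        β g + β h - β (g * h) + k * (lam g (A.act h o) + lam h o - lam (g * h) o).im := by
  have h1 : ∀ g, ∃ (r : ℝ) (S : Finset ℂ) (G : ℂ → ℂ), r < 1 ∧ ‖o‖ < r ∧ ‖A.act g o‖ < r ∧
      Pres f r S G := fun g => by
    obtain ⟨r, a1, a2⟩ := exists_between (max_lt ho (A.act_lt g ho))
    rw [max_lt_iff] at a1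
    obtain ⟨S, G, hP⟩ := exists_pres hf h0 ((norm_nonneg o).trans_lt a1.1) a2
    exact ⟨r, S, G, a2, a1.1, a1.2, hP⟩
  choose r S G hr hor hxr hP using h1
  have hfx : ∀ g, f (A.act g o) ≠ 0 := fun g => by
    rw [hg g o ho]; exact mul_ne_zero (pow_ne_zero _ (A.j_ne g ho)) hfo
  refine ⟨fun g => val f (S g) (G g) o (A.act g o) - k * (lam g o).im, fun g => ?_, fun g h => ?_⟩
  · rw [z2_iff, Real.Angle.coe_sub, (hP g).angle (hor g) (hxr g) hfo (hfx g), hg g o ho,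
      arg_mul_coe_angle (pow_ne_zero _ (A.j_ne g ho)) hfo, arg_pow_coe_angle, ← he g o ho, arg_exp,
      Real.Angle.coe_toIocMod, ← nsmul_eq_mul, Real.Angle.coe_nsmul]
    abel
  · obtain ⟨R0, hR0, hmap⟩ := exists_R (A := A) g ((norm_nonneg o).trans (hor h).le) (hr h)
    set R := max R0 (max (r g) (r (g * h))) with hRdef
    have hR : R < 1 := max_lt hR0 (max_lt (hr _) (hr _))
    have l1 : r g ≤ R := (le_max_left _ _).trans (le_max_right _ _)
    have l2 : r (g * h) ≤ R := (le_max_right _ _).trans (le_max_right _ _)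
    obtain ⟨S', G', hP'⟩ := exists_pres hf h0 (((norm_nonneg o).trans_lt (hor g)).trans_le l1) hR
    have ind : ∀ a, r a ≤ R → val f S' G' o (A.act a o) = val f (S a) (G a) o (A.act a o) := by
      intro a ha
      have := val_act (A := A) (g := 1) (k := k) hf h0 (hg 1) (hr a) hR (hP a) hP'
        (fun z hz => by rw [A.act_one]; exact hz.trans_le ha) (lam := fun _ => 0)
        continuousOn_const (by simp) (hor a) (hxr a)
      simpa using this
    have tr := val_act hf h0 (hg g) (hr h) hR (hP h) hP'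
      (fun z hz => (hmap z hz).trans_le (le_max_left _ _))
      ((hc g).mono (ball_subset_ball (hr h).le)) (fun z hz => he g z (hz.trans (hr h)))
      (hor h) (hxr h)
    rw [← A.act_mul g h ho] at tr
    refine ⟨R, S', hR, hP'.mem, (hor g).trans_le l1, (hxr g).trans_le l1, (hxr _).trans_le l2, ?_⟩
    have e : ∑ P ∈ S', analyticOrderNatAt f P * tri P o (A.act g o) (A.act (g * h) o) =
        val f S' G' o (A.act g o) + val f S' G' (A.act g o) (A.act (g * h) o) -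
          val f S' G' o (A.act (g * h) o) := by
      simp only [val, tri, mul_sub, mul_add, Finset.sum_sub_distrib, Finset.sum_add_distrib,
        sub_im]
      ring
    rw [e, ind g l1, ind _ l2, tr]
    simp only [sub_im, add_im]
    ring

/-- Main theorem: the integer cocycle of any family of continuous logarithms of the automorphy
factor is a coboundary modulo `n` on a subgroup of index divisible by `n`. -/
theorem split (hA : A.Good) (K : Subgroup H) [K.FiniteIndex] {n : ℕ} (hn : n ∣ K.index)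
    (lam : H → ℂ → ℂ) (hc : ∀ g, ContinuousOn (lam g) (ball 0 1))
    (he : ∀ g z, ‖z‖ < 1 → exp (lam g z) = A.j g z) :
    ∃ C : H → ℤ, ∀ g ∈ K, ∀ h : H, ∃ m : ℤ, ∀ z : ℂ, ‖z‖ < 1 →
      lam g (A.act h z) + lam h z - lam (g * h) z =
        2 * Real.pi * I * (C g + C h - C (g * h) + n * m) := by
  classical
  have hn0 : 0 < n := Nat.pos_of_dvd_of_pos hn (Nat.pos_of_ne_zero Subgroup.FiniteIndex.index_ne_zero)
  obtain ⟨k, f, hf, h0, hg⟩ := exists_form hA hn0
  obtain ⟨δ, hδ, hδ2, hsep⟩ := exists_sep hA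
  obtain ⟨o, ho0, hoδ, hfo⟩ : ∃ o : ℂ, o ≠ 0 ∧ ‖o‖ < δ ∧ f o ≠ 0 := by
    have a1 : ∀ᶠ z in 𝓝 (0 : ℂ), f z ≠ 0 := (hf 0 (by simp)).continuousAt.eventually_ne h0
    have a2 : ∀ᶠ z in 𝓝 (0 : ℂ), ‖z‖ < δ := by
      filter_upwards [ball_mem_nhds (0 : ℂ) hδ] with z hz using mem_ball_zero_iff.1 hz
    have a3 : ∀ᶠ z in 𝓝[≠] (0 : ℂ), z ≠ 0 ∧ ‖z‖ < δ ∧ f z ≠ 0 :=
      (eventually_mem_nhdsWithin).and ((a2.and a1).filter_mono nhdsWithin_le_nhds)
    exact a3.exists
  have ho : ‖o‖ < 1 := by linarith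
  have hx0 : ∀ g, A.act g o ≠ 0 := fun g e => by
    have e2 : A.act g⁻¹ 0 = o := by rw [← e, A.act_inv_act g ho]
    by_cases h1 : g⁻¹ = 1
    · rw [h1, A.act_one] at e2; exact ho0 e2.symm
    · have := hsep _ h1
      rw [e2] at this; linarith
  have hfx : ∀ g, f (A.act g o) ≠ 0 := fun g => by
    rw [hg g o ho]; exact mul_ne_zero (pow_ne_zero _ (A.j_ne g ho)) hfo
  have := Fintype.ofFinite (H ⧸ K)
  obtain ⟨Z, hZ, hsum⟩ := zero_sum hA hf h0 hg K
  obtain ⟨β, hβ, htri⟩ := exists_beta hf h0 hg hc he ho hfo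
  have hp1 : ∀ p ∈ Z, ∀ c : H, ‖A.act c p‖ < 1 := fun p hp c => A.act_lt c (hZ p hp).1
  have hp2 : ∀ p ∈ Z, ∀ c g : H, A.act g o ≠ A.act c p := fun p hp c g e =>
    hfx g (by rw [e, hg c p (hZ p hp).1, (hZ p hp).2, mul_zero])
  set B : H → ℝ := fun g =>
    ∑ p ∈ Z, analyticOrderNatAt f p * ∑ q : H ⧸ K, A.B1 K o (A.act q.out⁻¹ p) g with hB
  have hBz : ∀ g, Z2 (B g - β g) := fun g =>
    (Z2.sum _ fun p hp => (Z2.sum _ fun q _ =>
      B1_z2 hA K ho (hp1 p hp _) (hp2 p hp _) hx0 g).natMul _).sub (hβ g)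
  choose C hC using hBz
  refine ⟨C, fun g hgK h => ?_⟩
  obtain ⟨R, S, hR, hS, a1, a2, a3, e1⟩ := htri g h
  rw [hsum o g h R S hR hS a1 a2 a3] at e1
  obtain ⟨t0, ht0⟩ := T_z2 hA K ho (p := 0) (by simp) hx0 g h
  obtain ⟨u, hu⟩ := hn
  have e2 : ∑ p ∈ Z, analyticOrderNatAt f p * ∑ q : H ⧸ K, A.T K o (A.act q.out⁻¹ p) g h =
      (∑ p ∈ Z, analyticOrderNatAt f p : ℕ) * ((n * u : ℕ) * A.T K o 0 g h) +
        (B g + B h - B (g * h)) := by
    simp only [hB]
    rw [Nat.cast_sum, Finset.sum_mul, ← Finset.sum_add_distrib, ← Finset.sum_sub_distrib,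
      ← Finset.sum_add_distrib]
    refine Finset.sum_congr rfl fun p hp => ?_
    rw [Finset.sum_congr rfl fun q _ => T_eq hA K ho (hp1 p hp q.out⁻¹) (hp2 p hp _) hx0 hgK h,
      Finset.sum_add_distrib, Finset.sum_sub_distrib, Finset.sum_add_distrib, Finset.sum_const,
      Finset.card_univ, ← Nat.card_eq_fintype_card, ← Subgroup.index_eq_card, hu, nsmul_eq_mul]
    ring
  have hD : ∀ z, ‖z‖ < 1 → exp (lam g (A.act h z) + lam h z - lam (g * h) z) = 1 := fun z hz => by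
    rw [exp_sub, exp_add, he _ _ (A.act_lt h hz), he _ _ hz, he _ _ hz, ← A.j_mul g h hz,
      div_self (A.j_ne _ hz)]
  obtain ⟨s, hs⟩ := exp_eq_one_iff.1 (hD o ho)
  have hcont : ContinuousOn (fun z => lam g (A.act h z) + lam h z - lam (g * h) z) (ball 0 1) :=
    (((hc g).comp (A.differentiableOn_act h).continuousOn fun z hz =>
      mem_ball_zero_iff.2 (A.act_lt h (mem_ball_zero_iff.1 hz))).add (hc h)).sub (hc _)
  set N : ℕ := ∑ p ∈ Z, analyticOrderNatAt f p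
  refine ⟨N * u * t0 - k * s, fun z hz => ?_⟩
  have e3 := const_of_exp (convex_ball (0 : ℂ) 1).isPreconnected hcont
    (fun a ha a' ha' => by rw [hD a (mem_ball_zero_iff.1 ha), hD a' (mem_ball_zero_iff.1 ha')])
    (mem_ball_zero_iff.2 hz) (mem_ball_zero_iff.2 ho)
  rw [e3, hs]
  have e4 : (lam g (A.act h o) + lam h o - lam (g * h) o).im = 2 * Real.pi * s := by
    rw [hs]; simp; ring
  rw [e2, e4, ht0] at e1
  have c1 := hC g
  have c2 := hC h
  have c3 := hC (g * h)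
  have e5 : (s : ℝ) = C g + C h - C (g * h) + n * (N * u * t0 - k * s) := by
    apply mul_left_cancel₀ Real.two_pi_pos.ne'
    push_cast at e1
    linear_combination -e1 + c1 + c2 - c3
  have e6 : (s : ℂ) = C g + C h - C (g * h) + n * (N * u * t0 - k * s) := by exact_mod_cast e5
  push_cast
  rw [← e6]; ring

end DiscAct

end Pool.Agent.MP_54e5d7_al.ATC.Split

end MrgPart4

-- ======== part 5: formerly Pool.Agent.MP_54e5d7_al.atc.split.Final
section MrgPart5

/-!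
PROJECT ATC, block SPLIT: the theorem.
-/

set_option autoImplicit false

namespace Pool.Agent.MP_54e5d7_al.Atc

theorem split_core : CoreStmt := by
  intro G _ A h1 h2 h3 K _ n hn lam hl he
  obtain ⟨c, hc⟩ := ATC.Split.DiscAct.split (A := A) ⟨h1, h2, h3⟩ K hn lam hl he
  refine ⟨c, fun g hg h _ z hz => ?_⟩
  obtain ⟨m, hm⟩ := hc g hg h
  exact ⟨m, hm z hz⟩

theorem split : SplitStmt := split_of_core split_core

theorem split_stmt : SplitStmt := split

end Pool.Agent.MP_54e5d7_al.Atc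

end MrgPart5

-- ======== part 6: formerly Pool.Agent.MP_54e5d7_al.atc.Hol2
section MrgPart6

/-!
PROJECT ATC, library Hol, part 2: division by affine functions, gluing, division estimate.
-/

set_option autoImplicit false

open scoped ComplexConjugate ContDiff Topology
open Set MeasureTheory Filter Metric

namespace Pool.Agent.MP_54e5d7_al.Atc

theorem h2_ell_eq (x : V3) (z : C2) :
    ell x z = z.1 * conj (x 0) + z.2 * conj (x 1) - conj (x 2) := by
  simp [ell, H, hat]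

/-- the linear part of `ell x` -/
noncomputable def h2L (x : V3) (w : C2) : ℂ := w.1 * conj (x 0) + w.2 * conj (x 1)

theorem h2_ell_add (x : V3) (z w : C2) (t : ℂ) : ell x (z + t • w) = ell x z + t * h2L x w := by
  simp only [h2_ell_eq, h2L, Prod.fst_add, Prod.snd_add, Prod.smul_fst, Prod.smul_snd,
    smul_eq_mul]
  ring

theorem h2_ell_diff (x : V3) : Differentiable ℂ (ell x) := by
  have : ell x = fun z : C2 => z.1 * conj (x 0) + z.2 * conj (x 1) - conj (x 2) :=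
    funext (h2_ell_eq x)
  rw [this]
  fun_prop

theorem h2_ne {x : V3} (hx : H x x = 1) : x 0 ≠ 0 ∨ x 1 ≠ 0 := by
  by_contra h
  push Not at h
  have h1 : H x x = -((‖x 2‖ ^ 2 : ℝ) : ℂ) := by
    simp [H, h.1, h.2, Complex.mul_conj, Complex.normSq_eq_norm_sq]
  rw [h1] at hx
  have h2 : -(‖x 2‖ ^ 2) = (1 : ℝ) := by exact_mod_cast hx
  nlinarith [sq_nonneg ‖x 2‖]

theorem h2_exists_e {x : V3} (hx : H x x = 1) : ∃ e : C2, h2L x e = 1 := by
  rcases h2_ne hx with h | h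
  · refine ⟨((conj (x 0))⁻¹, 0), ?_⟩
    have : conj (x 0) ≠ 0 := by simpa using h
    simp [h2L, inv_mul_cancel₀ this]
  · refine ⟨(0, (conj (x 1))⁻¹), ?_⟩
    have : conj (x 1) ≠ 0 := by simpa using h
    simp [h2L, inv_mul_cancel₀ this]

theorem h2_tendsto (z w : C2) : Tendsto (fun t : ℂ => z + t • w) (𝓝 0) (𝓝 z) := by
  have hc : Continuous fun t : ℂ => z + t • w := by fun_prop
  simpa using hc.tendsto 0

/-- a function continuous at `z` which vanishes along a punctured complex line vanishes at `z` -/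
theorem h2_zero_of_line {q : C2 → ℂ} {z w : C2} (hq : ContinuousAt q z)
    (h : ∀ᶠ t in 𝓝[≠] (0 : ℂ), q (z + t • w) = 0) : q z = 0 := by
  have h1 : Tendsto (fun t : ℂ => q (z + t • w)) (𝓝[≠] 0) (𝓝 (q z)) :=
    (hq.tendsto.comp (h2_tendsto z w)).mono_left nhdsWithin_le_nhds
  have h2 : Tendsto (fun t : ℂ => q (z + t • w)) (𝓝[≠] 0) (𝓝 0) :=
    tendsto_const_nhds.congr' (h.mono fun t ht => ht.symm)
  exact tendsto_nhds_unique h1 h2

theorem h2_aff_ne {a b : ℂ} (h : a ≠ 0 ∨ b ≠ 0) : ∀ᶠ t in 𝓝[≠] (0 : ℂ), a + t * b ≠ 0 := by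
  by_cases ha : a = 0
  · have hb : b ≠ 0 := h.resolve_left (by simpa using ha)
    filter_upwards [self_mem_nhdsWithin] with t ht
    rw [ha, zero_add]
    exact mul_ne_zero ht hb
  · have hc : Continuous fun t : ℂ => a + t * b := by fun_prop
    have h0 : (fun t : ℂ => a + t * b) 0 ≠ 0 := by simpa using ha
    exact (hc.continuousAt.eventually_ne h0).filter_mono nhdsWithin_le_nhds

/-- cancellation of the factor `ell x` -/
theorem h2_cancel {x : V3} (hx : H x x = 1) {A : C2 → ℂ} {y : C2}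
    (hA : ∀ᶠ z in 𝓝 y, ContinuousAt A z) (h : ∀ᶠ z in 𝓝 y, ell x z * A z = 0) :
    ∀ᶠ z in 𝓝 y, A z = 0 := by
  obtain ⟨e, he⟩ := h2_exists_e hx
  filter_upwards [hA, h.eventually_nhds] with z hz hz'
  refine h2_zero_of_line (w := e) hz ?_
  have h1 := ((h2_tendsto z e).eventually hz').filter_mono (nhdsWithin_le_nhds (s := {0}ᶜ))
  have h2 : ∀ᶠ t in 𝓝[≠] (0 : ℂ), ell x z + t * 1 ≠ 0 := h2_aff_ne (Or.inr one_ne_zero)
  filter_upwards [h1, h2] with t ht ht'
  rw [h2_ell_add, he] at ht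
  exact (mul_eq_zero.1 ht).resolve_left ht'

/-- Osgood's lemma along arbitrary directions -/
theorem h2_osgood {V : Set C2} (hV : IsOpen V) {f : C2 → ℂ} (hc : ContinuousOn f V)
    (h : ∀ z ∈ V, ∀ w : C2, DifferentiableAt ℂ (fun t : ℂ => f (z + t • w)) 0) :
    DifferentiableOn ℂ f V := by
  refine osgood hV hc (fun z hz => ?_) (fun z hz => ?_)
  · have h1 := h z hz (1, 0)
    have h2 : DifferentiableAt ℂ (fun u : ℂ => u - z.1) z.1 := by fun_prop
    have h3 : DifferentiableAt ℂ (fun t : ℂ => f (z + t • ((1 : ℂ), (0 : ℂ)))) (z.1 - z.1) := by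
      rw [sub_self]; exact h1
    have h4 := DifferentiableAt.comp z.1 (g := fun t : ℂ => f (z + t • ((1 : ℂ), (0 : ℂ))))
      (f := fun u : ℂ => u - z.1) h3 h2
    have h5 : ((fun t : ℂ => f (z + t • ((1 : ℂ), (0 : ℂ)))) ∘ fun u : ℂ => u - z.1) =
        fun u => f (u, z.2) := by
      funext u
      have : z + (u - z.1) • ((1 : ℂ), (0 : ℂ)) = (u, z.2) := by
        ext <;> simp
      simp only [Function.comp, this]
    rwa [h5] at h4
  · have h1 := h z hz (0, 1)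
    have h2 : DifferentiableAt ℂ (fun u : ℂ => u - z.2) z.2 := by fun_prop
    have h3 : DifferentiableAt ℂ (fun t : ℂ => f (z + t • ((0 : ℂ), (1 : ℂ)))) (z.2 - z.2) := by
      rw [sub_self]; exact h1
    have h4 := DifferentiableAt.comp z.2 (g := fun t : ℂ => f (z + t • ((0 : ℂ), (1 : ℂ))))
      (f := fun u : ℂ => u - z.2) h3 h2
    have h5 : ((fun t : ℂ => f (z + t • ((0 : ℂ), (1 : ℂ)))) ∘ fun u : ℂ => u - z.2) =
        fun u => f (z.1, u) := by
      funext u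
      have : z + (u - z.2) • ((0 : ℂ), (1 : ℂ)) = (z.1, u) := by
        ext <;> simp
      simp only [Function.comp, this]
    rwa [h5] at h4

/-- the quotient of `f` by `ell x`, completed on the line by the derivative -/
noncomputable def h2q (x : V3) (e : C2) (f : C2 → ℂ) (z : C2) : ℂ :=
  if ell x z = 0 then fderiv ℂ f z e else f z / ell x z

theorem h2q_diff {x : V3} (e : C2) {f : C2 → ℂ} {z : C2} (hf : DifferentiableAt ℂ f z)
    (hz : ell x z ≠ 0) : DifferentiableAt ℂ (h2q x e f) z := by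
  have h1 : DifferentiableAt ℂ (fun z => f z / ell x z) z := by
    simp only [div_eq_mul_inv]
    exact hf.mul ((h2_ell_diff x z).inv hz)
  refine h1.congr_of_eventuallyEq ?_
  filter_upwards [(h2_ell_diff x).continuous.continuousAt.eventually_ne hz] with w hw
  simp [h2q, hw]

theorem h2q_cont {x : V3} {e : C2} (he : h2L x e = 1) {f : C2 → ℂ} {V : Set C2} (hV : IsOpen V)
    (hf : DifferentiableOn ℂ f V) (h0 : ∀ z ∈ V, ell x z = 0 → f z = 0) {z : C2} (hz : z ∈ V)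
    (hl : ell x z = 0) : ContinuousAt (h2q x e f) z := by
  have hVz := hV.mem_nhds hz
  have hcd : ContDiffAt ℂ ∞ f z := (hol_contDiffOn hV hf).contDiffAt hVz
  have hs : HasStrictFDerivAt f (fderiv ℂ f z) z := hcd.hasStrictFDerivAt (by simp)
  have hd : ContinuousAt (fun w => fderiv ℂ f w e) z :=
    ((hol_fderiv hV hf e).continuousOn.continuousAt hVz)
  have hP : Tendsto (fun w : C2 => w + (-ell x w) • e) (𝓝 z) (𝓝 z) := by
    have hc : Continuous fun w : C2 => w + (-ell x w) • e := by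
      have := (h2_ell_diff x).continuous
      fun_prop
    simpa [hl] using hc.tendsto z
  have hPP : Tendsto (fun w : C2 => (w, w + (-ell x w) • e)) (𝓝 z) (𝓝 (z, z)) :=
    tendsto_id.prodMk_nhds hP
  have ho := hs.isLittleO.comp_tendsto hPP
  rw [ContinuousAt, Metric.tendsto_nhds]
  intro ε hε
  have hq : h2q x e f z = fderiv ℂ f z e := by simp [h2q, hl]
  have hε' : 0 < ε / (‖e‖ + 1) := by positivity
  filter_upwards [ho.def hε', Metric.tendsto_nhds.1 hd ε hε, hP.eventually hVz] with w h1 h2 h3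
  rw [hq]
  by_cases hw : ell x w = 0
  · simpa [h2q, hw] using h2
  · have h4 : f (w + (-ell x w) • e) = 0 := by
      apply h0 _ h3
      rw [h2_ell_add, he]; ring
    have h5 : w - (w + (-ell x w) • e) = ell x w • e := by
      rw [neg_smul]; abel
    simp only [Function.comp, h4, h5, sub_zero, map_smul, smul_eq_mul, norm_smul] at h1
    have hn : 0 < ‖ell x w‖ := norm_pos_iff.2 hw
    have h6 : h2q x e f w - fderiv ℂ f z e = (f w - ell x w * fderiv ℂ f z e) / ell x w := by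
      simp only [h2q, hw, if_false]
      field_simp
    rw [dist_eq_norm, h6, norm_div, div_lt_iff₀ hn]
    refine h1.trans_lt ?_
    have h7 : ε / (‖e‖ + 1) * ‖e‖ < ε := by
      rw [div_mul_eq_mul_div, div_lt_iff₀ (by positivity)]
      nlinarith
    nlinarith

/-- division by an affine function -/
theorem van_one {x : V3} (hx : H x x = 1) {f : C2 → ℂ} {y : C2}
    (hf : ∀ᶠ z in 𝓝 y, DifferentiableAt ℂ f z) (h : ∀ᶠ z in 𝓝 y, ell x z = 0 → f z = 0) :
    Van 1 x f {y} := by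
  obtain ⟨e, he⟩ := h2_exists_e hx
  obtain ⟨V, hV1, hV, hy⟩ := _root_.eventually_nhds_iff.1 (hf.and h)
  have hfV : DifferentiableOn ℂ f V := fun z hz => (hV1 z hz).1.differentiableWithinAt
  have h0 : ∀ z ∈ V, ell x z = 0 → f z = 0 := fun z hz => (hV1 z hz).2
  have hcont : ∀ z ∈ V, ContinuousAt (h2q x e f) z := by
    intro z hz
    by_cases hl : ell x z = 0
    · exact h2q_cont he hV hfV h0 hz hl
    · exact (h2q_diff e (hV1 z hz).1 hl).continuousAt
  intro y' hy'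
  rw [mem_singleton_iff] at hy'
  subst hy'
  refine ⟨V, hV.mem_nhds hy, h2q x e f, ?_, ?_⟩
  · refine h2_osgood hV (fun z hz => (hcont z hz).continuousWithinAt) fun z hz w => ?_
    have hline : ∀ t : ℂ, DifferentiableAt ℂ (fun t : ℂ => z + t • w) t := fun t => by fun_prop
    have hz0 : z + (0 : ℂ) • w = z := by simp
    have hin : ∀ᶠ t in 𝓝 (0 : ℂ), z + t • w ∈ V := (h2_tendsto z w).eventually (hV.mem_nhds hz)
    by_cases hl : ell x z ≠ 0 ∨ h2L x w ≠ 0
    · refine (Complex.analyticAt_of_differentiable_on_punctured_nhds_of_continuousAt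
        ?_ ?_).differentiableAt
      · filter_upwards [h2_aff_ne hl, hin.filter_mono nhdsWithin_le_nhds] with t ht ht'
        rw [← h2_ell_add] at ht
        exact (h2q_diff e (hV1 _ ht').1 ht).comp t (hline t)
      · have hc : ContinuousAt (h2q x e f) (z + (0 : ℂ) • w) := by rw [hz0]; exact hcont z hz
        exact ContinuousAt.comp (f := fun t : ℂ => z + t • w) hc (hline 0).continuousAt
    · push Not at hl
      have h1 : DifferentiableAt ℂ (fun u => fderiv ℂ f u e) (z + (0 : ℂ) • w) := by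
        rw [hz0]; exact (hol_fderiv hV hfV e).differentiableAt (hV.mem_nhds hz)
      have h2 := DifferentiableAt.comp (0 : ℂ) (f := fun t : ℂ => z + t • w) h1 (hline 0)
      have h3 : (fun t : ℂ => h2q x e f (z + t • w)) =
          (fun u => fderiv ℂ f u e) ∘ fun t : ℂ => z + t • w := by
        funext t
        have : ell x (z + t • w) = 0 := by rw [h2_ell_add, hl.1, hl.2]; ring
        simp [h2q, this]
      rw [h3]; exact h2
  · intro z hz
    by_cases hl : ell x z = 0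
    · rw [h0 z hz hl, hl]; simp
    · simp only [h2q, hl, if_false, pow_one]
      field_simp

/-- the pointwise form of a local quotient -/
theorem h2_van_iff {k : ℕ} {x : V3} {f : C2 → ℂ} {y : C2} (h : Van k x f {y}) :
    ∃ q : C2 → ℂ, (∀ᶠ z in 𝓝 y, DifferentiableAt ℂ q z) ∧
      ∀ᶠ z in 𝓝 y, f z = ell x z ^ k * q z := by
  obtain ⟨O, hO, q, hq, he⟩ := h y rfl
  refine ⟨q, ?_, mem_of_superset hO he⟩
  filter_upwards [interior_mem_nhds.2 hO] with z hz
  exact hq.differentiableAt (mem_interior_iff_mem_nhds.1 hz)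

/-- two distinct lines have no common segment -/
theorem h2_two {x x' : V3} (hx : H x x = 1) (hne : ∀ c : ℂ, x' ≠ c • x) {z : C2}
    (hz : ell x z = 0) : ell x' z ≠ 0 ∨ h2L x' (conj (x 1), -conj (x 0)) ≠ 0 := by
  by_contra h
  push Not at h
  obtain ⟨h1, h2⟩ := h
  rw [h2_ell_eq] at hz h1
  simp only [h2L] at h2
  have c1 := congrArg conj hz
  have c2 := congrArg conj h1
  have c3 := congrArg conj h2
  simp only [map_sub, map_add, map_mul, map_neg, Complex.conj_conj, map_zero] at c1 c2 c3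
  rcases h2_ne hx with h | h
  · apply hne (x' 0 / x 0)
    have e1 : x' 1 = x' 0 / x 0 * x 1 := by field_simp; linear_combination -c3
    funext i
    fin_cases i
    · show x' 0 = x' 0 / x 0 * x 0
      field_simp
    · exact e1
    · show x' 2 = x' 0 / x 0 * x 2
      field_simp
      linear_combination (-x 0) * c2 + x' 0 * c1 - conj z.2 * c3
  · apply hne (x' 1 / x 1)
    funext i
    fin_cases i
    · show x' 0 = x' 1 / x 1 * x 0
      field_simp
      linear_combination c3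
    · show x' 1 = x' 1 / x 1 * x 1
      field_simp
    · show x' 2 = x' 1 / x 1 * x 2
      field_simp
      linear_combination (-x 1) * c2 + x' 1 * c1 + conj z.1 * c3

/-- coprimality: a power of `ell x` that divides `g q` divides `q` -/
theorem h2_coprime {x : V3} (hx : H x x = 1) {g : C2 → ℂ} (hg : Differentiable ℂ g) {y : C2}
    (hl : ∀ z, ell x z = 0 →
      ∀ᶠ t in 𝓝[≠] (0 : ℂ), g (z + t • ((conj (x 1), -conj (x 0)) : C2)) ≠ 0) (k : ℕ) :
    ∀ q h : C2 → ℂ, (∀ᶠ z in 𝓝 y, DifferentiableAt ℂ q z) →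
      (∀ᶠ z in 𝓝 y, DifferentiableAt ℂ h z) → (∀ᶠ z in 𝓝 y, g z * q z = ell x z ^ k * h z) →
      ∃ q' : C2 → ℂ, (∀ᶠ z in 𝓝 y, DifferentiableAt ℂ q' z) ∧
        ∀ᶠ z in 𝓝 y, q z = ell x z ^ k * q' z := by
  induction k with
  | zero => exact fun q h hq _ _ => ⟨q, hq, Eventually.of_forall fun z => by simp⟩
  | succ k ih =>
    intro q h hq hh he
    have h0 : ∀ᶠ z in 𝓝 y, ell x z = 0 → q z = 0 := by
      filter_upwards [hq, he.eventually_nhds] with z hz hz' hl0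
      refine h2_zero_of_line (w := (conj (x 1), -conj (x 0))) hz.continuousAt ?_
      have h1 := ((h2_tendsto z (conj (x 1), -conj (x 0))).eventually hz').filter_mono
        (nhdsWithin_le_nhds (s := {0}ᶜ))
      filter_upwards [h1, hl z hl0] with t ht ht'
      have h2 : ell x (z + t • ((conj (x 1), -conj (x 0)) : C2)) = 0 := by
        rw [h2_ell_add, hl0]
        simp only [h2L]
        ring
      rw [h2, zero_pow (Nat.succ_ne_zero k), zero_mul] at ht
      exact (mul_eq_zero.1 ht).resolve_left ht'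
    obtain ⟨q1, hq1, he1⟩ := h2_van_iff (van_one hx hq h0)
    have h3 : ∀ᶠ z in 𝓝 y, g z * q1 z - ell x z ^ k * h z = 0 := by
      refine h2_cancel hx ?_ ?_
      · filter_upwards [hq1, hh] with z h1 h2
        exact (((hg z).mul h1).sub (((h2_ell_diff x z).pow k).mul h2)).continuousAt
      · filter_upwards [he, he1] with z h1 h2
        rw [h2] at h1
        linear_combination h1
    obtain ⟨q', hq', he'⟩ := ih q1 h hq1 hh (h3.mono fun z hz => sub_eq_zero.1 hz)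
    refine ⟨q', hq', ?_⟩
    filter_upwards [he1, he'] with z h1 h2
    rw [h1, h2]; ring

theorem h2_prod (m : V3 → ℕ) {f : C2 → ℂ} {y : C2} (hf : ∀ᶠ z in 𝓝 y, DifferentiableAt ℂ f z)
    (S : Finset V3) : (∀ x ∈ S, H x x = 1) →
    (∀ x ∈ S, ∀ x' ∈ S, ∀ c : ℂ, x' = c • x → x' = x) → (∀ x ∈ S, Van (m x) x f {y}) →
    ∃ q : C2 → ℂ, (∀ᶠ z in 𝓝 y, DifferentiableAt ℂ q z) ∧
      ∀ᶠ z in 𝓝 y, f z = (∏ x ∈ S, ell x z ^ m x) * q z := by
  classical
  induction S using Finset.induction_on with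
  | empty => exact fun _ _ _ => ⟨f, hf, Eventually.of_forall fun z => by simp⟩
  | insert x S hxS ih =>
    intro hS hne h
    obtain ⟨q, hq, he⟩ := ih (fun a ha => hS a (Finset.mem_insert_of_mem ha))
      (fun a ha b hb => hne a (Finset.mem_insert_of_mem ha) b (Finset.mem_insert_of_mem hb))
      (fun a ha => h a (Finset.mem_insert_of_mem ha))
    have hx := hS x (Finset.mem_insert_self x S)
    obtain ⟨q0, hq0, he0⟩ := h2_van_iff (h x (Finset.mem_insert_self x S))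
    have hg : Differentiable ℂ fun z => ∏ a ∈ S, ell a z ^ m a :=
      fun z => (HasFDerivAt.finsetProd (g := fun a z => ell a z ^ m a)
        fun a _ => ((h2_ell_diff a z).pow (m a)).hasFDerivAt).differentiableAt
    have hl : ∀ z, ell x z = 0 → ∀ᶠ t in 𝓝[≠] (0 : ℂ),
        (fun z => ∏ a ∈ S, ell a z ^ m a) (z + t • ((conj (x 1), -conj (x 0)) : C2)) ≠ 0 := by
      intro z hz
      have h1 : ∀ a ∈ S, ∀ᶠ t in 𝓝[≠] (0 : ℂ),
          ell a (z + t • ((conj (x 1), -conj (x 0)) : C2)) ≠ 0 := by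
        intro a ha
        have h2 : ∀ c : ℂ, a ≠ c • x := fun c hc => hxS
          (hne x (Finset.mem_insert_self x S) a (Finset.mem_insert_of_mem ha) c hc ▸ ha)
        filter_upwards [h2_aff_ne (h2_two hx h2 hz)] with t ht
        rwa [h2_ell_add]
      filter_upwards [(eventually_all_finset S).2 h1] with t ht
      exact Finset.prod_ne_zero_iff.2 fun a ha => pow_ne_zero _ (ht a ha)
    obtain ⟨q', hq', he'⟩ := h2_coprime hx hg hl (m x) q q0 hq hq0 (by
      filter_upwards [he, he0] with z h1 h2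
      rw [← h1, h2])
    refine ⟨q', hq', ?_⟩
    filter_upwards [he, he'] with z h1 h2
    rw [Finset.prod_insert hxS, h1, h2]; ring

/-- distinct lines are coprime: joint division -/
theorem van_prod {S : Finset V3} (hS : ∀ x ∈ S, H x x = 1)
    (hne : ∀ x ∈ S, ∀ x' ∈ S, ∀ c : ℂ, x' = c • x → x' = x) (m : V3 → ℕ) {f : C2 → ℂ} {y : C2}
    (hy : y ∈ B) (hf : ∀ᶠ z in 𝓝 y, DifferentiableAt ℂ f z) (h : ∀ x ∈ S, Van (m x) x f {y}) :
    ∃ O ∈ 𝓝 y, ∃ q : C2 → ℂ, DifferentiableOn ℂ q O ∧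
      ∀ z ∈ O, f z = (∏ x ∈ S, ell x z ^ m x) * q z := by
  have _ := hy
  obtain ⟨q, hq, he⟩ := h2_prod m hf S hS hne h
  exact ⟨_, hq.and he, q, fun z hz => hz.1.differentiableWithinAt, fun z hz => hz.2⟩

/-- local quotients glue -/
theorem div_glue {V : Set C2} (hV : IsOpen V) {f g : C2 → ℂ} (hg : ContinuousOn g V)
    (hd : ∀ y ∈ V, ∃ᶠ z in 𝓝 y, g z ≠ 0)
    (h : ∀ y ∈ V, ∃ O ∈ 𝓝 y, ∃ q : C2 → ℂ, DifferentiableOn ℂ q O ∧ ∀ z ∈ O, f z = g z * q z) :
    ∃ q : C2 → ℂ, DifferentiableOn ℂ q V ∧ ∀ z ∈ V, f z = g z * q z := by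
  have _ := hg
  have h' : ∀ y : C2, ∃ q : C2 → ℂ, y ∈ V →
      ∀ᶠ z in 𝓝 y, DifferentiableAt ℂ q z ∧ f z = g z * q z := by
    intro y
    by_cases hy : y ∈ V
    · obtain ⟨O, hO, q, hq, he⟩ := h y hy
      refine ⟨q, fun _ => ?_⟩
      filter_upwards [interior_mem_nhds.2 hO] with z hz
      exact ⟨hq.differentiableAt (mem_interior_iff_mem_nhds.1 hz), he z (interior_subset hz)⟩
    · exact ⟨0, fun h => absurd h hy⟩
  choose Q hQ using h'
  refine ⟨fun z => Q z z, fun y hy => ?_, fun z hz => (hQ z hz).self_of_nhds.2⟩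
  have h1 : (fun z => Q z z) =ᶠ[𝓝 y] Q y := by
    filter_upwards [(hQ y hy).eventually_nhds, hV.mem_nhds hy] with z hz hzV
    have hc : ContinuousAt (fun u => Q z u - Q y u) z :=
      ((hQ z hzV).self_of_nhds.1.sub hz.self_of_nhds.1).continuousAt
    have h2 : ∃ᶠ u in 𝓝 z, Q z u - Q y u = 0 := by
      refine ((hd z hzV).and_eventually ((hQ z hzV).and hz)).mono fun u hu => ?_
      have h3 : g u * (Q z u - Q y u) = 0 := by
        rw [mul_sub, ← hu.2.1.2, ← hu.2.2.2, sub_self]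
      exact (mul_eq_zero.1 h3).resolve_left hu.1
    by_contra hne
    exact h2 (hc.eventually_ne (sub_ne_zero.2 hne))
  exact ((hQ y hy).self_of_nhds.1.congr_of_eventuallyEq h1).differentiableWithinAt

/-- a small circle around a point on which `g` does not vanish -/
theorem h2_circle {V : Set C2} (hV : IsOpen V) {g : C2 → ℂ} (hg : DifferentiableOn ℂ g V)
    {y : C2} (hy : y ∈ V) (hd : ∃ᶠ z in 𝓝 y, g z ≠ 0) :
    ∃ (w : C2) (r : ℝ), 0 < r ∧ (∀ t ∈ closedBall (0 : ℂ) r, y + t • w ∈ V) ∧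
      ∀ t ∈ sphere (0 : ℂ) r, g (y + t • w) ≠ 0 := by
  obtain ⟨R, hR, hRV⟩ := Metric.isOpen_iff.1 hV y hy
  obtain ⟨z, hz, hzR⟩ := (hd.and_eventually (ball_mem_nhds y hR)).exists
  set w := z - y with hw
  have hA : IsOpen {t : ℂ | y + t • w ∈ ball y R} :=
    isOpen_ball.preimage (f := fun t : ℂ => y + t • w) (by fun_prop)
  have hconv : Convex ℝ {t : ℂ | y + t • w ∈ ball y R} := by
    intro a ha b hb s u hs hu hsu
    have h1 := (convex_ball y R) ha hb hs hu hsu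
    have h2 : y + (s • a + u • b) • w = s • (y + a • w) + u • (y + b • w) := by
      rw [smul_add, smul_add, add_smul, smul_assoc, smul_assoc, add_add_add_comm, ← add_smul,
        hsu, one_smul]
    show y + (s • a + u • b) • w ∈ ball y R
    rw [h2]; exact h1
  have h0 : (0 : ℂ) ∈ {t : ℂ | y + t • w ∈ ball y R} := by simpa using hR
  have h1 : (1 : ℂ) ∈ {t : ℂ | y + t • w ∈ ball y R} := by
    show y + (1 : ℂ) • w ∈ ball y R
    rw [hw, one_smul, add_sub_cancel]; exact hzR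
  have han : AnalyticOnNhd ℂ (fun t : ℂ => g (y + t • w)) {t : ℂ | y + t • w ∈ ball y R} := by
    refine DifferentiableOn.analyticOnNhd ?_ hA
    exact hg.comp (f := fun t : ℂ => y + t • w) (by fun_prop) fun t ht => hRV ht
  rcases (han 0 h0).eventually_eq_zero_or_eventually_ne_zero with h | h
  · have h2 := han.eqOn_zero_of_preconnected_of_eventuallyEq_zero hconv.isPreconnected h0 h h1
    simp only [hw, one_smul, add_sub_cancel, Pi.zero_apply] at h2
    exact absurd h2 hz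
  · rw [eventually_nhdsWithin_iff] at h
    obtain ⟨r, hr, hb⟩ := Metric.nhds_basis_closedBall.eventually_iff.1
      (h.and (hA.mem_nhds h0))
    refine ⟨w, r, hr, fun t ht => hRV (hb ht).2, fun t ht => (hb (sphere_subset_closedBall ht)).1 ?_⟩
    intro h0
    rw [mem_singleton_iff] at h0
    rw [h0, mem_sphere, dist_self] at ht
    exact hr.ne ht

theorem h2_local {V : Set C2} (hV : IsOpen V) {g : C2 → ℂ} (hg : DifferentiableOn ℂ g V)
    {y : C2} (hy : y ∈ V) (hd : ∃ᶠ z in 𝓝 y, g z ≠ 0) :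
    ∃ c : ℝ, 0 ≤ c ∧ ∀ᶠ z in 𝓝 y, ∀ (q : C2 → ℂ) (M : ℝ), DifferentiableOn ℂ q V →
      (∀ z ∈ V, ‖g z * q z‖ ≤ M) → ‖q z‖ ≤ c * M := by
  obtain ⟨w, r, hr, hin, hne⟩ := h2_circle hV hg hy hd
  have hL : Continuous fun p : C2 × ℂ => p.1 + p.2 • w := by fun_prop
  have hcont : ContinuousOn (fun t : ℂ => ‖g (y + t • w)‖) (sphere 0 r) :=
    (hg.continuousOn.comp (f := fun t : ℂ => y + t • w) (by fun_prop)
      fun t ht => hin t (sphere_subset_closedBall ht)).norm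
  obtain ⟨δ, hδ, hδ'⟩ := (isCompact_sphere (0 : ℂ) r).exists_forall_le' hcont
    (a := 0) fun t ht => norm_pos_iff.2 (hne t ht)
  have e1 : ∀ᶠ z in 𝓝 y, ∀ t ∈ closedBall (0 : ℂ) r, z + t • w ∈ V :=
    (isCompact_closedBall (0 : ℂ) r).eventually_forall_of_forall_eventually
      (P := fun z t => z + t • w ∈ V) fun t ht =>
      (hL.tendsto (y, t)).eventually (hV.mem_nhds (hin t ht))
  have e2 : ∀ᶠ z in 𝓝 y, ∀ t ∈ sphere (0 : ℂ) r, δ / 2 < ‖g (z + t • w)‖ := by
    refine (isCompact_sphere (0 : ℂ) r).eventually_forall_of_forall_eventually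
      (P := fun z t => δ / 2 < ‖g (z + t • w)‖) fun t ht => ?_
    have h1 : ContinuousAt g (y + t • w) :=
      hg.continuousOn.continuousAt (hV.mem_nhds (hin t (sphere_subset_closedBall ht)))
    have h2 : Tendsto (fun p : C2 × ℂ => ‖g (p.1 + p.2 • w)‖) (𝓝 (y, t)) (𝓝 ‖g (y + t • w)‖) :=
      (h1.tendsto.comp (hL.tendsto (y, t))).norm
    exact h2.eventually (lt_mem_nhds (by linarith [hδ' t ht]))
  refine ⟨2 / δ, by positivity, ?_⟩
  filter_upwards [e1, e2] with z h1 h2 q M hq hM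
  have hd' : DiffContOnCl ℂ (fun t : ℂ => q (z + t • w)) (ball 0 r) := by
    apply DifferentiableOn.diffContOnCl
    rw [closure_ball _ hr.ne']
    exact hq.comp (f := fun t : ℂ => z + t • w) (by fun_prop) fun t ht => h1 t ht
  have h3 := Complex.norm_le_of_forall_mem_frontier_norm_le isBounded_ball hd'
    (C := 2 / δ * M) (z := 0) (by
      intro t ht
      rw [frontier_ball _ hr.ne'] at ht
      have h4 := hM _ (h1 t (sphere_subset_closedBall ht))
      rw [norm_mul] at h4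
      have h5 := h2 t ht
      rw [div_mul_eq_mul_div, le_div_iff₀ hδ]
      nlinarith [norm_nonneg (q (z + t • w))]) (subset_closure (mem_ball_self hr))
  simpa using h3

/-- division estimate -/
theorem div_est {V K : Set C2} (hV : IsOpen V) (hK : IsCompact K) (hKV : K ⊆ V) {g : C2 → ℂ}
    (hg : DifferentiableOn ℂ g V) (hd : ∀ y ∈ V, ∃ᶠ z in 𝓝 y, g z ≠ 0) :
    ∃ c : ℝ, 0 ≤ c ∧ ∀ (q : C2 → ℂ) (M : ℝ), DifferentiableOn ℂ q V →
      (∀ z ∈ V, ‖g z * q z‖ ≤ M) → ∀ z ∈ K, ‖q z‖ ≤ c * M := by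
  have key : ∃ c : ℝ, 0 ≤ c ∧ ∀ (q : C2 → ℂ) (M : ℝ), 0 ≤ M → DifferentiableOn ℂ q V →
      (∀ z ∈ V, ‖g z * q z‖ ≤ M) → ∀ z ∈ K, ‖q z‖ ≤ c * M := by
    refine hK.induction_on (p := fun s => ∃ c : ℝ, 0 ≤ c ∧ ∀ (q : C2 → ℂ) (M : ℝ), 0 ≤ M →
      DifferentiableOn ℂ q V → (∀ z ∈ V, ‖g z * q z‖ ≤ M) → ∀ z ∈ s, ‖q z‖ ≤ c * M) ?_ ?_ ?_ ?_
    · exact ⟨0, le_rfl, fun _ _ _ _ _ z hz => absurd hz (notMem_empty z)⟩
    · rintro s t hst ⟨c, hc, h⟩
      exact ⟨c, hc, fun q M hM hq hb z hz => h q M hM hq hb z (hst hz)⟩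
    · rintro s t ⟨c, hc, h⟩ ⟨c', hc', h'⟩
      refine ⟨c + c', by positivity, fun q M hM hq hb z hz => ?_⟩
      rcases hz with hz | hz
      · have := h q M hM hq hb z hz
        nlinarith
      · have := h' q M hM hq hb z hz
        nlinarith
    · intro y hy
      obtain ⟨c, hc, h⟩ := h2_local hV hg (hKV hy) (hd y (hKV hy))
      exact ⟨_, mem_nhdsWithin_of_mem_nhds h, c, hc, fun q M _ hq hb z hz => hz q M hq hb⟩
  obtain ⟨c, hc, h⟩ := key
  exact ⟨c, hc, fun q M hq hb z hz =>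
    h q M ((norm_nonneg _).trans (hb z (hKV hz))) hq hb z hz⟩

end Pool.Agent.MP_54e5d7_al.Atc

end MrgPart6

-- ======== part 7: formerly Pool.Agent.MP_54e5d7_al.atc.Hol
section MrgPart7

/-!
PROJECT ATC, library Hol: holomorphic functions of two variables.
-/

end MrgPart7

-- ======== part 8: formerly Pool.Agent.MP_54e5d7_al.atc.fin.GlueA
section MrgPart8

/-!
PROJECT ATC, row GLUE, part A: the local equation of the divisor and its transition functions.
-/

set_option autoImplicit false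

open scoped ComplexConjugate ContDiff Topology
open Set Filter

namespace Pool.Agent.MP_54e5d7_al.Atc.Glue

noncomputable section

/-- the local equation of the divisor -/
def fD (S : Finset V3) (m : V3 → ℕ) (z : C2) : ℂ := ∏ x ∈ S, ell x z ^ m x

theorem differentiable_fD (S : Finset V3) (m : V3 → ℕ) : Differentiable ℂ (fD S m) := by
  classical
  induction S using Finset.induction_on with
  | empty =>
    have : fD ∅ m = fun _ => 1 := by funext z; simp [fD]
    rw [this]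
    exact differentiable_const _
  | insert x S hx ih =>
    have : fD (insert x S) m = fun z => ell x z ^ m x * fD S m z := by
      funext z; simp [fD, Finset.prod_insert hx]
    rw [this]
    exact ((differentiable_ell x).pow _).mul ih

theorem hol_div {V : Set C2} {f g : C2 → ℂ} (hf : DifferentiableOn ℂ f V)
    (hg : DifferentiableOn ℂ g V) (h : ∀ z ∈ V, g z ≠ 0) :
    DifferentiableOn ℂ (fun z => f z / g z) V := by
  simp only [div_eq_mul_inv]
  exact hf.mul (hg.inv h)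

theorem ell_dense {x : V3} (hx : H x x = 1) : Dense {z | ell x z ≠ 0} := by
  intro y
  rw [mem_closure_iff_frequently]
  by_contra hcon
  rw [not_frequently] at hcon
  have h0 : ell x =ᶠ[𝓝 y] 0 := hcon.mono fun z hz => by simpa using hz
  have h1 := hol_identity isOpen_univ isPreconnected_univ
    (differentiable_ell x).differentiableOn (mem_univ y) h0
  have a := h1 (0, 0) (mem_univ _)
  have b := h1 (1, 0) (mem_univ _)
  have c := h1 (0, 1) (mem_univ _)
  simp only [ell, H, hat, Matrix.cons_val_zero, Matrix.cons_val_one, Matrix.cons_val_two,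
    Matrix.head_cons, Matrix.tail_cons, zero_mul, one_mul, zero_add, add_zero, zero_sub,
    neg_eq_zero] at a b c
  rw [a, sub_zero] at b c
  simp only [H, a, b, c, mul_zero, add_zero, sub_zero] at hx
  exact zero_ne_one hx

theorem fD_dense {S : Finset V3} (hS : ∀ x ∈ S, H x x = 1) (m : V3 → ℕ) :
    Dense {z | fD S m z ≠ 0} := by
  classical
  induction S using Finset.induction_on with
  | empty => simp [fD]
  | insert x S hx ih =>
    have h1 := ih fun y hy => hS y (Finset.mem_insert_of_mem hy)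
    have h2 := ell_dense (hS x (Finset.mem_insert_self x S))
    have h3 : IsOpen {z | ell x z ≠ 0} :=
      isOpen_ne_fun (differentiable_ell x).continuous continuous_const
    refine (h2.inter_of_isOpen_left h1 h3).mono ?_
    rintro z ⟨a, b⟩
    simp only [fD, Finset.prod_insert hx, mem_ofPred_eq] at b ⊢
    exact mul_ne_zero (pow_ne_zero _ a) b

theorem fD_freq {S : Finset V3} (hS : ∀ x ∈ S, H x x = 1) (m : V3 → ℕ) (y : C2) :
    ∃ᶠ z in 𝓝 y, fD S m z ≠ 0 :=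
  mem_closure_iff_frequently.1 (fD_dense hS m y)

theorem eq_of_fD {S : Finset V3} (hS : ∀ x ∈ S, H x x = 1) (m : V3 → ℕ) {E : Type}
    [TopologicalSpace E] [T2Space E] {V : Set C2} (hV : IsOpen V) {F G : C2 → E}
    (hF : ContinuousOn F V) (hG : ContinuousOn G V)
    (h : ∀ z ∈ V, fD S m z ≠ 0 → F z = G z) : ∀ z ∈ V, F z = G z :=
  Set.EqOn.of_subset_closure (s := V ∩ {z | fD S m z ≠ 0}) (fun z hz => h z hz.1 hz.2) hF hG
    inter_subset_left ((fD_dense hS m).open_subset_closure_inter hV)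

/-- the combinatorial part of the data -/
structure Div (Γ : Subgroup SU21) (X : Set V3) (m : V3 → ℕ) (r : ℝ) (S : Finset V3) : Prop where
  le : r ≤ 1
  unit : ∀ x ∈ X, H x x = 1
  inv : ∀ γ ∈ Γ, ∀ x ∈ X, mv γ x ∈ X
  line : ∀ x ∈ X, ∀ y ∈ X, ∀ c : ℂ, y = c • x → y = x
  minv : ∀ γ ∈ Γ, ∀ x ∈ X, m (mv γ x) = m x
  sub : ∀ x ∈ S, x ∈ X
  all : ∀ x ∈ X, ∀ z ∈ Bl r, ell x z = 0 → x ∈ S

open Classical in
/-- the transition function `f z / f (g z)` -/
def vg (S : Finset V3) (m : V3 → ℕ) (g : SU21) (z : C2) : ℂ :=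
  jf g z ^ (∑ x ∈ S, m x) * fD (S \ S.image (mv g⁻¹)) m z / fD (S.image (mv g⁻¹) \ S) m z

variable {Γ : Subgroup SU21} {X : Set V3} {m : V3 → ℕ} {r : ℝ} {S : Finset V3}

theorem mv_mv_inv (g : SU21) (x : V3) : mv g (mv g⁻¹ x) = x := by
  rw [← mv_mul, mul_inv_cancel, mv_one]

theorem mv_inv_mv (g : SU21) (x : V3) : mv g⁻¹ (mv g x) = x := by
  rw [← mv_mul, inv_mul_cancel, mv_one]

theorem Div.unitS (D : Div Γ X m r S) : ∀ x ∈ S, H x x = 1 := fun x hx => D.unit x (D.sub x hx)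

theorem Div.subB (D : Div Γ X m r S) : Bl r ⊆ B := Bl_mono D.le

open Classical in
theorem Div.den_ne (D : Div Γ X m r S) {g : SU21} (hg : g ∈ Γ) {z : C2} (hz : z ∈ Bl r) :
    fD (S.image (mv g⁻¹) \ S) m z ≠ 0 := by
  refine Finset.prod_ne_zero_iff.2 fun x hx => pow_ne_zero _ fun h0 => ?_
  obtain ⟨h1, h2⟩ := Finset.mem_sdiff.1 hx
  obtain ⟨y, hy, rfl⟩ := Finset.mem_image.1 h1
  exact h2 (D.all _ (D.inv _ (inv_mem hg) y (D.sub y hy)) z hz h0)

theorem Div.vg_hol (D : Div Γ X m r S) {g : SU21} (hg : g ∈ Γ) :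
    DifferentiableOn ℂ (vg S m g) (Bl r) := by
  classical
  unfold vg
  refine hol_div ?_ (differentiable_fD _ _).differentiableOn
    fun z hz => D.den_ne hg hz
  exact (((differentiable_jf g).pow _).mul (differentiable_fD _ _)).differentiableOn

theorem Div.vg_spec (D : Div Γ X m r S) {g : SU21} (hg : g ∈ Γ) {z : C2} (hz : z ∈ Bl r) :
    fD S m z = vg S m g z * fD S m (act g z) := by
  classical
  have hden := D.den_ne hg hz
  have h1 : fD S m (act g z) * jf g z ^ (∑ x ∈ S, m x) = fD (S.image (mv g⁻¹)) m z := by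
    unfold fD
    rw [Finset.prod_image (fun a _ b _ h => by rw [← mv_mv_inv g a, h, mv_mv_inv]),
      ← Finset.prod_pow_eq_pow_sum, ← Finset.prod_mul_distrib]
    refine Finset.prod_congr rfl fun x hx => ?_
    rw [← mul_pow, D.minv _ (inv_mem hg) x (D.sub x hx), ← ell_act g (mv g⁻¹ x) (D.subB hz),
      mv_mv_inv]
  have h2 : fD S m z = fD (S \ S.image (mv g⁻¹)) m z * fD (S ∩ S.image (mv g⁻¹)) m z := by
    unfold fD
    rw [← Finset.prod_union (Finset.disjoint_sdiff_inter _ _), Finset.sdiff_union_inter]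
  have h3 : fD (S.image (mv g⁻¹)) m z =
      fD (S.image (mv g⁻¹) \ S) m z * fD (S ∩ S.image (mv g⁻¹)) m z := by
    unfold fD
    rw [Finset.inter_comm, ← Finset.prod_union (Finset.disjoint_sdiff_inter _ _),
      Finset.sdiff_union_inter]
  unfold vg
  rw [div_mul_eq_mul_div, eq_div_iff hden]
  linear_combination (fD (S.image (mv g⁻¹) \ S) m z) * h2 -
    (fD (S \ S.image (mv g⁻¹)) m z) * h1 - (fD (S \ S.image (mv g⁻¹)) m z) * h3

theorem isOpen_pre (g : SU21) {V W : Set C2} (hV : IsOpen V) (hB : V ⊆ B) (hW : IsOpen W) :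
    IsOpen {z | z ∈ V ∧ act g z ∈ W} :=
  ((continuousOn_act g).mono hB).isOpen_inter_preimage hV hW

theorem Div.vg_coc (D : Div Γ X m r S) {g h : SU21} (hg : g ∈ Γ) (hh : h ∈ Γ) {z : C2}
    (hz : z ∈ Bl r) (hhz : act h z ∈ Bl r) :
    vg S m (g * h) z = vg S m g (act h z) * vg S m h z := by
  have hV := isOpen_pre h (isOpen_Bl r) D.subB (isOpen_Bl r)
  refine eq_of_fD D.unitS m hV (F := vg S m (g * h))
    (G := fun z => vg S m g (act h z) * vg S m h z) ?_ ?_ ?_ z ⟨hz, hhz⟩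
  · exact (D.vg_hol (mul_mem hg hh)).continuousOn.mono fun z hz => hz.1
  · refine ContinuousOn.mul ?_ ((D.vg_hol hh).continuousOn.mono fun z hz => hz.1)
    exact (D.vg_hol hg).continuousOn.comp ((continuousOn_act h).mono fun z hz => D.subB hz.1)
      fun z hz => hz.2
  · intro z hz h0
    have a := D.vg_spec (mul_mem hg hh) hz.1
    have b := D.vg_spec hh hz.1
    have c := D.vg_spec hg hz.2
    rw [act_mul g h (D.subB hz.1)] at a
    have hne : fD S m (act g (act h z)) ≠ 0 := fun e => h0 (by rw [a, e, mul_zero])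
    apply mul_right_cancel₀ hne
    rw [← a, b, c]
    ring

theorem norm_fD_sq (S : Finset V3) (m : V3 → ℕ) (z : C2) :
    ∏ x ∈ S, ‖ell x z‖ ^ (2 * m x) = ‖fD S m z‖ ^ 2 := by
  unfold fD
  rw [norm_prod, ← Finset.prod_pow]
  refine Finset.prod_congr rfl fun x _ => ?_
  rw [norm_pow, ← pow_mul, mul_comm]

theorem Div.vg_norm (D : Div Γ X m r S) {W ψ : C2 → ℝ}
    (hW : ∀ γ ∈ Γ, ∀ z ∈ B, W (act γ z) = W z) (hψ : ContinuousOn ψ (Bl r))
    (hWψ : ∀ z ∈ Bl r, W z = Real.exp (ψ z) * ∏ x ∈ S, ‖ell x z‖ ^ (2 * m x))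
    {g : SU21} (hg : g ∈ Γ) {z : C2} (hz : z ∈ Bl r) (hgz : act g z ∈ Bl r) :
    Real.exp (ψ (act g z)) = Real.exp (ψ z) * ‖vg S m g z‖ ^ 2 := by
  have hV := isOpen_pre g (isOpen_Bl r) D.subB (isOpen_Bl r)
  refine eq_of_fD D.unitS m hV (F := fun z => Real.exp (ψ (act g z)))
    (G := fun z => Real.exp (ψ z) * ‖vg S m g z‖ ^ 2) ?_ ?_ ?_ z ⟨hz, hgz⟩
  · exact (hψ.comp ((continuousOn_act g).mono fun z hz => D.subB hz.1) fun z hz => hz.2).rexp
  · exact (hψ.mono fun z hz => hz.1).rexp.mul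
      (((D.vg_hol hg).continuousOn.mono fun z hz => hz.1).norm.pow 2)
  · intro z hz h0
    have a := D.vg_spec hg hz.1
    have hne : fD S m (act g z) ≠ 0 := fun e => h0 (by rw [a, e, mul_zero])
    have b := hW g hg z (D.subB hz.1)
    rw [hWψ _ hz.1, hWψ _ hz.2, norm_fD_sq, norm_fD_sq, a, norm_mul, mul_pow] at b
    apply mul_right_cancel₀ (pow_ne_zero 2 (norm_ne_zero_iff.2 hne))
    rw [b]
    ring

/-- a function that vanishes along the divisor is divisible by the local equation -/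
theorem Div.divide (D : Div Γ X m r S) {V : Set C2} (hV : IsOpen V) (hB : V ⊆ B) {F : C2 → ℂ}
    (hF : DifferentiableOn ℂ F V) (h : VanD X m F V) :
    ∃ q : C2 → ℂ, DifferentiableOn ℂ q V ∧ ∀ z ∈ V, F z = fD S m z * q z := by
  refine div_glue hV (differentiable_fD S m).continuous.continuousOn
    (fun y _ => fD_freq D.unitS m y) fun y hy => ?_
  refine van_prod D.unitS (fun x hx x' hx' => D.line x (D.sub x hx) x' (D.sub x' hx')) m (hB hy)
    ?_ fun x hx => van_iff.1 (h x (D.sub x hx)) y hy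
  filter_upwards [hV.mem_nhds hy] with z hz using hF.differentiableAt (hV.mem_nhds hz)

/-- multiples of the local equation vanish along the divisor -/
theorem Div.van_mul (D : Div Γ X m r S) {q : C2 → ℂ} {y : C2} (hy : y ∈ Bl r)
    (hq : ∀ᶠ z in 𝓝 y, DifferentiableAt ℂ q z) {x : V3} (hx : x ∈ X) :
    Van (m x) x (fun z => fD S m z * q z) {y} := by
  classical
  by_cases h0 : ell x y = 0
  · have hS := D.all x hx y hy h0
    intro y' hy'
    rw [mem_singleton_iff] at hy'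
    subst hy'
    refine ⟨_, hq, fun z => fD (S.erase x) m z * q z, fun z hz => ?_, fun z _ => ?_⟩
    · exact (((differentiable_fD _ _) z).mul hz).differentiableWithinAt
    · simp only [fD]
      rw [← Finset.mul_prod_erase S _ hS, mul_assoc]
  · exact van_of_ne h0 (hq.mono fun z hz => ((differentiable_fD _ _) z).mul hz)

end

end Pool.Agent.MP_54e5d7_al.Atc.Glue

end MrgPart8

-- marker of a merged file
example : 731051 + 768786 = 731051 + 768786 := rfl
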