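import Pool.Agent.MP_54e5d7_al.atc.amp.Levi
import Pool.Agent.MP_54e5d7_al.atc.Hol1
import Pool.Agent.MP_54e5d7_al.atc.ker.Ker
import Pool.Agent.MP_54e5d7_al.atc.nt.Tow
import Pool.Agent.MP_54e5d7_al.atc.Spec
import Pool.Agent.MP_54e5d7_al.atc.dim2.Dim
import Pool.Agent.MP_54e5d7_al.atc.ker.Trace
import Pool.Agent.MP_54e5d7_al.atc.pde.Final0
import Pool.Agent.MP_54e5d7_al.atc.pde.Loc

-- ======== part 0: formerly Pool.Agent.MP_54e5d7_al.atc.ar.Glue
section MrgPart0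

/-!
PROJECT ATC, block ARITH: assembly.
-/

set_option autoImplicit false

namespace Pool.Agent.MP_54e5d7_al.Atc.Ar

theorem arith_of (hc : CocptStmt) (ha : AmpGridStmt) (ht : TowStmt) : ArithStmt := by
  refine ⟨Gam 17, lat hc, fun r hr c => ?_⟩
  obtain ⟨X, m, ε, hD, hW, hX⟩ := ha _ _ _ _ _ grid r hr c
  refine ⟨X, m, ε, hD, hW, fun L => ?_⟩
  obtain ⟨k, hk⟩ := exists_nat_ge L
  have h1 : Gam (17 ^ (k + 1)) ≤ Gam 17 := Gam_anti (dvd_pow_self 17 k.succ_ne_zero)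
  have h2 : (Gam (17 ^ (k + 1))).relIndex (Gam 17) ≠ 0 := Gam_relIndex _ (by positivity)
  refine ⟨_, h1, h2, fun g hg h3 z hz => ?_, ht k X ε ((lat hc).sub h1 h2) (hD.sub h1) hX⟩
  refine le_trans (hk.trans ?_)
    (deep (Nat.le_self_pow k.succ_ne_zero 17) g hg h3 z hz)
  exact_mod_cast (Nat.lt_pow_self (by norm_num)).le.trans
    (Nat.pow_le_pow_right (by norm_num) k.le_succ)

end Pool.Agent.MP_54e5d7_al.Atc.Ar

end MrgPart0

-- ======== part 1: formerly Pool.Agent.MP_54e5d7_al.atc.ar.Cocpt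
section MrgPart1

/-!
PROJECT ATC, block LAT: the congruence subgroup is cocompact.
-/

set_option autoImplicit false

open scoped ComplexConjugate
open Matrix

namespace Pool.Agent.MP_54e5d7_al.Atc.Ar.Co

theorem norm_term (u w : V3) (i : Fin 3) : ‖u i * conj (w i)‖ ≤ ‖u‖ * ‖w‖ := by
  rw [norm_mul, Complex.norm_conj]
  exact mul_le_mul (norm_le_pi_norm u i) (norm_le_pi_norm w i) (norm_nonneg _) (norm_nonneg _)

theorem norm_H_le (u w : V3) : ‖H u w‖ ≤ 3 * (‖u‖ * ‖w‖) := by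
  have h := (norm_sub_le _ _).trans (add_le_add ((norm_add_le _ _).trans
    (add_le_add (norm_term u w 0) (norm_term u w 1))) (norm_term u w 2))
  unfold H
  linarith

theorem norm_Hp_le (u w : V3) : ‖Hp u w‖ ≤ 3 * (‖u‖ * ‖w‖) := by
  have h := (norm_add_le _ _).trans (add_le_add ((norm_add_le _ _).trans
    (add_le_add (norm_term u w 0) (norm_term u w 1))) (norm_term u w 2))
  unfold Hp
  linarith

theorem norm_sq_le (a : V3) : ‖a‖ ^ 2 ≤ ‖a 0‖ ^ 2 + ‖a 1‖ ^ 2 + ‖a 2‖ ^ 2 := by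
  rw [← Real.le_sqrt (norm_nonneg _) (by positivity)]
  refine (pi_norm_le_iff_of_nonneg (Real.sqrt_nonneg _)).2 fun i => Real.le_sqrt_of_sq_le ?_
  have h0 := sq_nonneg ‖a 0‖
  have h1 := sq_nonneg ‖a 1‖
  have h2 := sq_nonneg ‖a 2‖
  fin_cases i <;> simp only [Fin.zero_eta, Fin.mk_one, Fin.reduceFinMk] <;> linarith

/-- a matrix of determinant `T` that forces almost orthogonality to `a` -/
theorem stretch {a : V3} (ha : a ≠ 0) (h1 : ‖a‖ ≤ 1) {T : ℝ} (hT : 1 ≤ T) :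
    ∃ P : Matrix (Fin 3) (Fin 3) ℂ, P.det = T ∧
      ∀ u : V3, ‖P *ᵥ u‖ ≤ 1 → ‖u‖ ≤ 4 ∧ T * ‖H u a‖ ≤ 3 := by
  obtain ⟨ν, hν⟩ : ∃ ν : ℝ, ν = ‖a 0‖ ^ 2 + ‖a 1‖ ^ 2 + ‖a 2‖ ^ 2 := ⟨_, rfl⟩
  have h2 : ‖a‖ ^ 2 ≤ ν := hν ▸ norm_sq_le a
  have h3 : 0 < ν := (pow_pos (norm_pos_iff.2 ha) 2).trans_le h2
  obtain ⟨τ, hτ⟩ : ∃ τ : ℝ, τ = (T - 1) / ν := ⟨_, rfl⟩
  have h4 : τ * ν = T - 1 := by rw [hτ, div_mul_cancel₀ _ h3.ne']
  have h5 : 0 ≤ τ := hτ ▸ div_nonneg (by linarith) h3.le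
  have h6 : (τ : ℂ) * (a 0 * conj (a 0) + a 1 * conj (a 1) + a 2 * conj (a 2)) = T - 1 := by
    simp only [Complex.mul_conj, Complex.normSq_eq_norm_sq]
    rw [hν] at h4
    exact_mod_cast h4
  let a' : V3 := ![a 0, a 1, -a 2]
  have h7 : ‖a'‖ ≤ ‖a‖ := (pi_norm_le_iff_of_nonneg (norm_nonneg _)).2 fun i => by
    fin_cases i <;> simp [a', norm_le_pi_norm]
  refine ⟨1 + (τ : ℂ) • vecMulVec a' (star a'), ?_, fun u hu => ?_⟩
  · simp [det_fin_three, vecMulVec, a']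
    linear_combination h6
  · have h8 : (1 + (τ : ℂ) • vecMulVec a' (star a')) *ᵥ u = u + ((τ : ℂ) * H u a) • a' := by
      ext i
      fin_cases i <;> simp [mulVec, dotProduct, Fin.sum_univ_three, vecMulVec, a', H,
        one_apply] <;> ring
    rw [h8] at hu
    have h9 : H (u + ((τ : ℂ) * H u a) • a') a = T * H u a := by
      rw [H_add_left, H_smul_left]
      have h10 : H a' a = a 0 * conj (a 0) + a 1 * conj (a 1) + a 2 * conj (a 2) := by
        simp [H, a']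
      rw [h10]
      linear_combination H u a * h6
    have h10 := norm_H_le (u + ((τ : ℂ) * H u a) • a') a
    rw [h9, norm_mul, Complex.norm_real, Real.norm_of_nonneg (by linarith)] at h10
    have h11 : T * ‖H u a‖ ≤ 3 * ‖a‖ := by nlinarith [norm_nonneg a]
    refine ⟨?_, by linarith⟩
    have h12 := norm_sub_le (u + ((τ : ℂ) * H u a) • a') (((τ : ℂ) * H u a) • a')
    rw [add_sub_cancel_right, norm_smul, norm_mul, Complex.norm_real,
      Real.norm_of_nonneg h5] at h12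
    have h13 : τ * ‖H u a‖ * ‖a'‖ ≤ 3 := by
      have h14 : 0 ≤ τ * ‖H u a‖ := by positivity
      refine (mul_le_mul_of_nonneg_left h7 h14).trans (le_of_mul_le_mul_left ?_ h3)
      have h15 : ν * (τ * ‖H u a‖ * ‖a‖) = (T - 1) * ‖H u a‖ * ‖a‖ := by rw [← h4]; ring
      have h16 := mul_le_mul_of_nonneg_right h11 (norm_nonneg a)
      have h17 : 0 ≤ ‖H u a‖ * ‖a‖ := by positivity
      rw [h15]
      nlinarith
    linarith

/-- two short orthogonal vectors -/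
theorem short : ∃ C : ℝ, ∀ g : SU21, ∃ v w : L3, v ≠ 0 ∧ w ≠ 0 ∧ hO w v = 0 ∧
    ‖mv g (e1 v)‖ ≤ 4 ∧ ‖mv g (e1 w)‖ ≤ 4 ∧ ‖e2 v‖ ≤ C ∧ ‖e2 w‖ ≤ C := by
  obtain ⟨δ, hδ, h⟩ := mink
  have key : ∀ c : ℝ, 0 ≤ c → ∃ R : ℝ, 1 ≤ R ∧ c * R ≤ δ * R ^ 3 := fun c hc => by
    have h1 : 0 ≤ c / δ := by positivity
    refine ⟨1 + c / δ, by linarith, ?_⟩
    have h2 : c = δ * (c / δ) := by field_simp
    generalize c / δ = t at h1 h2
    rw [h2, mul_assoc]
    refine mul_le_mul_of_nonneg_left ?_ hδ.le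
    nlinarith [mul_nonneg h1 h1, mul_nonneg h1 (mul_nonneg h1 h1)]
  obtain ⟨R, hR, hR'⟩ := key 1 zero_le_one
  obtain ⟨S, hS, hS'⟩ := key (10 * R) (by linarith)
  refine ⟨max R S, fun g => ?_⟩
  have hg : g.1.1.det = 1 := g.1.2
  obtain ⟨v, hv, h1, h2⟩ := h g.1.1 R (by linarith) (by rw [hg]; exact one_ne_zero)
    (by rw [hg, norm_one]; linarith)
  have h3 : mv g (e1 v) ≠ 0 := fun h0 => hv (e1_inj (by
    rw [← mv_inv_mv g (e1 v), h0, mv_zero]
    ext i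
    simp [e1_apply]))
  have hT : 1 ≤ 10 * R * S := by nlinarith
  obtain ⟨P, hP, hP'⟩ := stretch h3 h1.le hT
  have hd : (P * g.1.1).det = ((10 * R * S : ℝ) : ℂ) := by rw [det_mul, hg, hP, mul_one]
  obtain ⟨w, hw, h4, h5⟩ := h (P * g.1.1) S (by linarith)
    (by rw [hd]; exact_mod_cast (by linarith : 10 * R * S ≠ 0))
    (by rw [hd, Complex.norm_real, Real.norm_of_nonneg (by linarith)]; exact hS')
  rw [← mulVec_mulVec] at h4
  obtain ⟨h6, h7⟩ := hP' (mv g (e1 w)) h4.le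
  refine ⟨v, w, hv, hw, ?_, h1.le.trans (by norm_num), h6, h2.le.trans (le_max_left _ _),
    h5.le.trans (le_max_right _ _)⟩
  by_contra h0
  have h8 := one_le h0
  have h9 : 10 * R * S * ‖s1 (hO w v)‖ ≤ 3 := by rw [← H_e1, ← H_mv g]; exact h7
  have h10 : ‖s2 (hO w v)‖ ≤ 3 * (S * R) := by
    rw [← Hp_e2]
    refine (norm_Hp_le _ _).trans ?_
    gcongr
  have h11 := mul_le_mul_of_nonneg_left h10 (norm_nonneg (s1 (hO w v)))
  nlinarith

/-- a unit negative vector with bounded products against two members of an orthogonal basis -/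
theorem cpt {a b c : V3} (hba : H b a = 0) (hac : H a c = 0) (hbc : H b c = 0) (ha : H a a ≠ 0)
    (hb : H b b ≠ 0) (hc : H c c ≠ 0) (C : ℝ) : ∃ K : ℝ, ∀ x : V3, H x x = -1 →
      ‖H x a‖ ≤ C → ‖H x b‖ ≤ C → ‖x 2‖ ≤ K := by
  have hab : H a b = 0 := by rw [← H_conj, hba, map_zero]
  have hca : H c a = 0 := by rw [← H_conj, hac, map_zero]
  have hcb : H c b = 0 := by rw [← H_conj, hbc, map_zero]
  have h1 : ∀ t : V3, H (t 0 • a + t 1 • b + t 2 • c) a = t 0 * H a a ∧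
      H (t 0 • a + t 1 • b + t 2 • c) b = t 1 * H b b ∧
      H (t 0 • a + t 1 • b + t 2 • c) c = t 2 * H c c := fun t => by
    simp [H_add_left, H_smul_left, hab, hba, hac, hca, hbc, hcb]
  have h2 : LinearIndependent ℂ ![a, b, c] := Fintype.linearIndependent_iff.2 fun t ht i => by
    have h3 : t 0 • a + t 1 • b + t 2 • c = 0 := by simpa [Fin.sum_univ_three] using ht
    have h4 := h1 t
    rw [h3] at h4
    have h5 : ∀ y, H 0 y = 0 := fun y => by simp [H]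
    simp only [h5, zero_eq_mul, ha, hb, hc, or_false] at h4
    fin_cases i
    exacts [h4.1, h4.2.1, h4.2.2]
  have h3 := h2.span_eq_top_of_card_eq_finrank' (by simp)
  have pa := norm_pos_iff.2 ha
  have pb := norm_pos_iff.2 hb
  have pc := norm_pos_iff.2 hc
  refine ⟨C / ‖H a a‖ * ‖a 2‖ + C / ‖H b b‖ * ‖b 2‖ +
    ((1 + C / ‖H a a‖ * C + C / ‖H b b‖ * C) / ‖H c c‖ + 1) * ‖c 2‖, fun x hx hxa hxb => ?_⟩
  obtain ⟨t, ht⟩ := (Submodule.mem_span_range_iff_exists_fun ℂ).1 (h3 ▸ Submodule.mem_top (x := x))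
  have h4 : t 0 • a + t 1 • b + t 2 • c = x := by simpa [Fin.sum_univ_three] using ht
  obtain ⟨k0, k1, k2⟩ := h1 t
  rw [h4] at k0 k1 k2
  have l0 : ‖t 0‖ ≤ C / ‖H a a‖ := by rw [le_div_iff₀ pa, ← norm_mul, ← k0]; exact hxa
  have l1 : ‖t 1‖ ≤ C / ‖H b b‖ := by rw [le_div_iff₀ pb, ← norm_mul, ← k1]; exact hxb
  have h5 : conj (t 2) * (t 2 * H c c) = -1 - conj (t 0) * H x a - conj (t 1) * H x b := by
    have h6 : H x (t 0 • a + t 1 • b + t 2 • c) = -1 := by rw [h4, hx]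
    rw [H_add_right, H_add_right, H_smul_right, H_smul_right, H_smul_right, k2] at h6
    linear_combination h6
  have l2 : ‖t 2‖ * ‖t 2‖ ≤ (1 + C / ‖H a a‖ * C + C / ‖H b b‖ * C) / ‖H c c‖ := by
    have h6 := (norm_sub_le (-1 - conj (t 0) * H x a) (conj (t 1) * H x b)).trans
      (add_le_add (norm_sub_le _ _) le_rfl)
    rw [← h5] at h6
    simp only [norm_mul, Complex.norm_conj, norm_neg, norm_one] at h6
    have h7 := mul_le_mul l0 hxa (norm_nonneg _) ((norm_nonneg _).trans l0)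
    have h8 := mul_le_mul l1 hxb (norm_nonneg _) ((norm_nonneg _).trans l1)
    rw [le_div_iff₀ pc]
    linarith
  have l3 : ‖t 2‖ ≤ (1 + C / ‖H a a‖ * C + C / ‖H b b‖ * C) / ‖H c c‖ + 1 := by
    nlinarith [sq_nonneg (‖t 2‖ - 1)]
  have h6 : x 2 = t 0 * a 2 + t 1 * b 2 + t 2 * c 2 := by rw [← h4]; rfl
  rw [h6]
  refine (norm_add_le _ _).trans (add_le_add ((norm_add_le _ _).trans (add_le_add ?_ ?_)) ?_) <;>
    rw [norm_mul] <;> gcongr

theorem star_rt : star rt = rt := by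
  apply QuadraticAlgebra.ext <;> simp [rt]

theorem rt_ne : rt ≠ 0 := fun h => by
  have h1 := s1_rt
  rw [h, map_zero] at h1
  exact mul_ne_zero q4_ne q4_ne h1.symm

theorem hO_star (v w : L3) : star (hO v w) = hO w v := by
  simp only [hO, star_sub, star_add, star_mul', star_star, star_rt]
  ring

theorem hO_ne {v : L3} (hv : v ≠ 0) : hO v v ≠ 0 := fun h => by
  have h1 := Hp_e2 v v
  rw [h, map_zero, Hp] at h1
  simp only [Complex.mul_conj, Complex.normSq_eq_norm_sq] at h1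
  have h2 : ‖e2 v 0‖ ^ 2 + ‖e2 v 1‖ ^ 2 + ‖e2 v 2‖ ^ 2 = 0 := by exact_mod_cast h1
  have h3 := norm_sq_le (e2 v)
  rw [h2] at h3
  have h4 : e2 v = 0 := norm_eq_zero.1 (pow_eq_zero_iff two_ne_zero |>.1
    (le_antisymm h3 (sq_nonneg _)))
  refine hv (e2_inj (h4.trans ?_))
  ext i
  simp [e2_apply]

/-- the cross product for the form -/
noncomputable def cr (v w : L3) : L3 :=
  ![rt * star (v 1 * w 2 - v 2 * w 1), rt * star (v 2 * w 0 - v 0 * w 2),
    -star (v 0 * w 1 - v 1 * w 0)]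

/-- the frame -/
noncomputable def fr (v w : L3) : M3 := Matrix.of fun i j => ![v i, w i, cr v w i] j

theorem hO_cr (u v w : L3) : hO u (cr v w) = rt * (u 0 * (v 1 * w 2 - v 2 * w 1) +
    u 1 * (v 2 * w 0 - v 0 * w 2) + u 2 * (v 0 * w 1 - v 1 * w 0)) := by
  simp only [hO, cr, cons_val_zero, cons_val_one, cons_val, star_mul', star_star, star_rt,
    star_neg]
  ring

theorem hO_cr1 (v w : L3) : hO v (cr v w) = 0 := by rw [hO_cr]; ring
theorem hO_cr2 (v w : L3) : hO w (cr v w) = 0 := by rw [hO_cr]; ring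

theorem hO_cr3 (v w : L3) :
    hO (cr v w) (cr v w) = rt * (hO v w * hO w v - hO v v * hO w w) := by
  rw [hO_cr]
  simp only [hO, cr, cons_val_zero, cons_val_one, cons_val, star_mul', star_sub]
  ring

theorem det_fr (v w : L3) : (fr v w).det = hO v w * hO w v - hO v v * hO w w := by
  simp only [det_fin_three, fr, of_apply, hO, cr, cons_val_zero, cons_val_one, cons_val,
    star_mul', star_sub]
  ring

theorem fr_mulVec (v w s : L3) : fr v w *ᵥ s = s 0 • v + s 1 • w + s 2 • cr v w := by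
  ext1 i
  simp only [fr, mulVec, dotProduct, Fin.sum_univ_three, of_apply, cons_val_zero, cons_val_one,
    cons_val, Pi.add_apply, Pi.smul_apply, smul_eq_mul]
  ring

theorem hO_fr {v w : L3} (h : hO w v = 0) (s t : L3) : hO (fr v w *ᵥ s) (fr v w *ᵥ t) =
    s 0 * star (t 0) * hO v v + s 1 * star (t 1) * hO w w -
      s 2 * star (t 2) * (rt * (hO v v * hO w w)) := by
  have h1 : hO v w = 0 := by rw [← hO_star, h, star_zero]
  have h2 := hO_cr1 v w
  have h3 := hO_cr2 v w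
  have h4 : hO (cr v w) v = 0 := by rw [← hO_star, h2, star_zero]
  have h5 : hO (cr v w) w = 0 := by rw [← hO_star, h3, star_zero]
  have h6 := hO_cr3 v w
  rw [h, mul_zero, zero_sub] at h6
  rw [fr_mulVec, fr_mulVec]
  generalize cr v w = u at *
  simp only [hO, Pi.add_apply, Pi.smul_apply, smul_eq_mul, star_add, star_mul'] at *
  linear_combination s 1 * star (t 0) * h + s 0 * star (t 1) * h1 + s 0 * star (t 2) * h2 +
    s 1 * star (t 2) * h3 + s 2 * star (t 0) * h4 + s 2 * star (t 1) * h5 + s 2 * star (t 2) * h6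

theorem hO_smul (c : O) (s t : L3) : hO (c • s) (c • t) = c * star c * hO s t := by
  simp only [hO, Pi.smul_apply, smul_eq_mul, star_mul']
  ring

/-- congruent frames with the same Gram matrix are equivalent -/
theorem move {v w v' w' : L3} (hv : v ≠ 0) (hw : w ≠ 0) (h : hO w v = 0) (h' : hO w' v' = 0)
    (h1 : hO v' v' = hO v v) (h2 : hO w' w' = hO w w) {W : M3}
    (hW : fr v' w' = fr v w + (17 * -(hO v v * hO w w)) • W) :
    ∃ γ ∈ Gam 17, mv γ (e1 v) = e1 v' ∧ mv γ (e1 w) = e1 w' := by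
  have hd : (fr v w).det = -(hO v v * hO w w) := by rw [det_fr, h, mul_zero, zero_sub]
  have hd' : (fr v' w').det = (fr v w).det := by rw [hd, det_fr, h', mul_zero, zero_sub, h1, h2]
  have h0 : (fr v w).det ≠ 0 := hd ▸ neg_ne_zero.2 (mul_ne_zero (hO_ne hv) (hO_ne hw))
  obtain ⟨A, hA⟩ : ∃ A : M3, A = 1 + ((17 : ℕ) : O) • (W * adjugate (fr v w)) := ⟨_, rfl⟩
  have h3 : A * fr v w = fr v' w' := by
    rw [hA, hW, add_mul, one_mul, smul_mul_assoc, mul_assoc, adjugate_mul, mul_smul_comm, mul_one,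
      smul_smul, hd, Nat.cast_ofNat]
  have h4 : ∀ s : L3, fr v w *ᵥ (adjugate (fr v w) *ᵥ s) = (fr v w).det • s := fun s => by
    rw [mulVec_mulVec, mul_adjugate, smul_mulVec, one_mulVec]
  have h5 : ∀ s : L3, fr v' w' *ᵥ (adjugate (fr v w) *ᵥ s) = (fr v w).det • (A *ᵥ s) :=
    fun s => by rw [← h3, ← mulVec_mulVec, h4, mulVec_smul]
  obtain ⟨g, hg⟩ := exists_rep (M := 17) (A := A)
    (mul_right_cancel₀ h0 (by rw [← det_mul, h3, hd', one_mul]))
    (fun s t => mul_left_cancel₀ (mul_ne_zero h0 (star_ne_zero.2 h0)) (by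
      rw [← hO_smul, ← hO_smul, ← h5, ← h5, ← h4, ← h4, hO_fr h, hO_fr h', h1, h2])) ⟨_, hA⟩
  refine ⟨g.1, g.2, ?_, ?_⟩
  · have h6 := congrArg (· *ᵥ ![1, 0, 0]) h3
    simp only [← mulVec_mulVec, fr_mulVec] at h6
    rw [mv_e1, hg]
    simpa using congrArg e1 (by simpa using h6 : A *ᵥ v = v')
  · have h6 := congrArg (· *ᵥ ![0, 1, 0]) h3
    simp only [← mulVec_mulVec, fr_mulVec] at h6
    rw [mv_e1, hg]
    simpa using congrArg e1 (by simpa using h6 : A *ᵥ w = w')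

theorem H_e1_ne {a : O} (ha : a ≠ 0) : s1 a ≠ 0 := fun h => ha (s1_inj (by rw [h, map_zero]))

theorem bound : ∃ K : ℝ, ∀ g : SU21, ∃ γ ∈ Gam 17, ‖jf (γ * g) 0‖ ≤ K := by
  obtain ⟨C, hC⟩ := short
  choose v w hv hw h0 h1 h2 h3 h4 using fun g : SU21 => hC g⁻¹
  have hres : ∀ N : O, ∃ S : Set O, S.Finite ∧ (N ≠ 0 → ∀ a : O, ∃ r ∈ S, ∃ b, a = r + N * b) :=
    fun N => by
      by_cases hN : N = 0
      · exact ⟨∅, Set.finite_empty, fun h => (h hN).elim⟩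
      · obtain ⟨S, h5, h6⟩ := residues hN
        exact ⟨S, h5, fun _ => h6⟩
  choose S hS hS' using hres
  choose r hr b hb using fun (g : SU21) (i j : Fin 3) =>
    hS' (17 * -(hO (v g) (v g) * hO (w g) (w g))) (mul_ne_zero (fun h => by
      have h5 := congrArg s1 h
      rw [map_ofNat, map_zero] at h5
      norm_num at h5) (neg_ne_zero.2 (mul_ne_zero (hO_ne (hv g)) (hO_ne (hw g)))))
      (fr (v g) (w g) i j)
  obtain ⟨F, hF, hm⟩ : ∃ F : Set O, F.Finite ∧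
      ∀ (g : SU21) (u : L3), ‖mv g (e1 u)‖ ≤ 4 → ‖e2 u‖ ≤ C → hO u u ∈ F := by
    refine ⟨_, fin_bdd (48 + 3 * (C * C)), fun g u h5 h6 => ?_⟩
    have h7 := norm_H_le (mv g (e1 u)) (mv g (e1 u))
    have h8 := norm_Hp_le (e2 u) (e2 u)
    rw [H_mv, H_e1] at h7
    rw [Hp_e2] at h8
    have h9 := mul_self_le_mul_self (norm_nonneg _) h5
    have h10 := mul_self_le_mul_self (norm_nonneg _) h6
    have h11 := mul_self_nonneg C
    constructor <;> linarith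
  obtain ⟨S2, hS2, hS3⟩ : ∃ S2 : Set O, S2.Finite ∧
      ∀ p ∈ F, ∀ q ∈ F, ∀ a ∈ S (17 * -(p * q)), a ∈ S2 :=
    ⟨_, hF.biUnion fun p _ => hF.biUnion fun q _ => hS (17 * -(p * q)),
      fun p hp q hq a ha => Set.mem_biUnion hp (Set.mem_biUnion hq ha)⟩
  obtain ⟨Z, hZ, hZ'⟩ : ∃ Z : Set (O × O × (Fin 3 → Fin 3 → O)), Z.Finite ∧
      ∀ p ∈ F, ∀ q ∈ F, ∀ t : Fin 3 → Fin 3 → O, (∀ i j, t i j ∈ S2) → (p, q, t) ∈ Z :=
    ⟨_, hF.prod (hF.prod (Set.Finite.pi' fun _ : Fin 3 => Set.Finite.pi' fun _ : Fin 3 => hS2)),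
      fun p hp q hq t ht => ⟨hp, hq, ht⟩⟩
  have hx : ∀ (g : SU21) (u : L3), ‖mv g⁻¹ (e1 u)‖ ≤ 4 → ‖H (mv g (hat 0)) (e1 u)‖ ≤ 4 :=
    fun g u h5 => by
      rw [← H_mv g⁻¹, mv_inv_mv]
      refine le_trans ?_ ((norm_le_pi_norm _ 2).trans h5)
      simp [H, hat]
  have main : ∀ k : O × O × (Fin 3 → Fin 3 → O), ∃ K : ℝ, ∀ g : SU21,
      (hO (v g) (v g), hO (w g) (w g), r g) = k → ∃ γ ∈ Gam 17, ‖jf (γ * g) 0‖ ≤ K := fun k => by
    by_cases hk : ∃ g', (hO (v g') (v g'), hO (w g') (w g'), r g') = k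
    swap
    · exact ⟨0, fun g h => (hk ⟨g, h⟩).elim⟩
    obtain ⟨g', rfl⟩ := hk
    obtain ⟨K, hK⟩ := cpt (a := e1 (v g')) (b := e1 (w g')) (c := e1 (cr (v g') (w g')))
      (by rw [H_e1, h0, map_zero]) (by rw [H_e1, hO_cr1, map_zero])
      (by rw [H_e1, hO_cr2, map_zero]) (by rw [H_e1]; exact H_e1_ne (hO_ne (hv g')))
      (by rw [H_e1]; exact H_e1_ne (hO_ne (hw g'))) (by
        rw [H_e1, hO_cr3, h0, mul_zero, zero_sub]
        exact H_e1_ne (mul_ne_zero rt_ne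
          (neg_ne_zero.2 (mul_ne_zero (hO_ne (hv g')) (hO_ne (hw g')))))) 4
    refine ⟨K, fun g h => ?_⟩
    simp only [Prod.mk.injEq] at h
    obtain ⟨k1, k2, k3⟩ := h
    obtain ⟨γ, hγ, k4, k5⟩ := move (hv g) (hw g) (h0 g) (h0 g') k1.symm k2.symm
      (W := Matrix.of fun i j => b g' i j - b g i j) (by
        ext1 i j
        have k6 := hb g' i j
        rw [← k1, ← k2, ← k3] at k6
        rw [Matrix.add_apply, Matrix.smul_apply, of_apply, smul_eq_mul, k6, hb g i j]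
        ring)
    refine ⟨γ, hγ, ?_⟩
    rw [jf, mv_mul]
    refine hK _ ?_ ?_ ?_
    · rw [H_mv, H_mv, H_hat, nsq_zero]
      norm_num
    · rw [← k4, H_mv]
      exact hx g _ (h1 g)
    · rw [← k5, H_mv]
      exact hx g _ (h2 g)
  choose f hf using main
  obtain ⟨K, hK⟩ := (hZ.image f).bddAbove
  refine ⟨K, fun g => ?_⟩
  obtain ⟨γ, hγ, h5⟩ := hf (hO (v g) (v g), hO (w g) (w g), r g) g rfl
  have h6 := hm _ _ (h1 g) (h3 g)
  have h7 := hm _ _ (h2 g) (h4 g)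
  exact ⟨γ, hγ, h5.trans (hK (Set.mem_image_of_mem f
    (hZ' _ h6 _ h7 _ fun i j => hS3 _ h6 _ h7 _ (hr g i j))))⟩

end Pool.Agent.MP_54e5d7_al.Atc.Ar.Co

namespace Pool.Agent.MP_54e5d7_al.Atc.Ar

theorem cocpt : CocptStmt := by
  obtain ⟨K, hK⟩ := Co.bound
  have h0 : 0 < K ^ 2 + 1 := by positivity
  refine ⟨1 - 1 / (K ^ 2 + 1), by simp [h0], fun z hz => ?_⟩
  obtain ⟨g, rfl⟩ := exists_act_zero hz
  obtain ⟨γ, hγ, h⟩ := hK g
  refine ⟨γ, hγ, ?_⟩
  have h1 := one_sub_nsq_act (γ * g) zero_mem_B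
  rw [act_mul _ _ zero_mem_B, nsq_zero, sub_zero] at h1
  have h2 := norm_pos_iff.2 (jf_ne_zero (γ * g) zero_mem_B)
  have h3 : 1 / (K ^ 2 + 1) < 1 / ‖jf (γ * g) 0‖ ^ 2 :=
    one_div_lt_one_div_of_lt (by positivity) (by nlinarith)
  change nsq _ < _
  linarith

end Pool.Agent.MP_54e5d7_al.Atc.Ar

end MrgPart1

-- ======== part 2: formerly Pool.Agent.MP_54e5d7_al.atc.amp.Main
section MrgPart2

/-!
PROJECT ATC, block AMP: the ample divisor.
-/

set_option autoImplicit false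

open scoped ComplexConjugate ContDiff
open Set

namespace Pool.Agent.MP_54e5d7_al.Atc

open Pool.Agent.MP_54e5d7_al.ATC

namespace AmpL

lemma xx_eq (c : ℝ) (v : V3) (z : C2) :
    Amp.xx c z.1 z.2 v = ‖ell v z‖ ^ 2 / (c * (1 - nsq z)) := by
  rw [Amp.xx, ell_eq, rho_eq]

lemma xx_act (c : ℝ) (g : SU21) (v : V3) {z : C2} (hz : z ∈ B) :
    Amp.xx c (act g z).1 (act g z).2 (mv g v) = Amp.xx c z.1 z.2 v := by
  have h := jf_ne_zero g hz
  have h' : ‖jf g z‖ ≠ 0 := norm_ne_zero_iff.2 h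
  rw [xx_eq, xx_eq, one_sub_nsq_act g hz, ← ell_act g v hz, norm_mul, mul_pow, ← mul_div_assoc,
    div_div_eq_mul_div]

/-- the local factor of the squared norm of the canonical section -/
noncomputable def ww (c : ℝ) (v : V3) (z : C2) : ℝ :=
  Amp.xx c z.1 z.2 v * Real.exp (-Amp.KK (Amp.xx c z.1 z.2 v))

lemma ww_eq_one {c : ℝ} {v : V3} {z : C2} (h : 1 ≤ Amp.xx c z.1 z.2 v) : ww c v z = 1 := by
  have h0 : 0 < Amp.xx c z.1 z.2 v := by linarith
  rw [ww, Amp.KK_of_ge h, Real.exp_neg, Real.exp_log h0, mul_inv_cancel₀ h0.ne']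

lemma ww_eq {c : ℝ} (hc : 0 < c) {v x : V3} {a : ℂ} (ha : a ≠ 0) (h : v = a • x) {z : C2}
    (hz : nsq z < 1) :
    ww c v z = Real.exp (Real.log (‖a‖ ^ 2 / c) - Phi c v z) * ‖ell x z‖ ^ 2 := by
  have h0 : 0 < 1 - nsq z := by linarith
  have h1 : 0 < ‖a‖ := norm_pos_iff.2 ha
  have h2 : ‖ell v z‖ = ‖a‖ * ‖ell x z‖ := by
    rw [h, ell, H_smul_right, norm_mul, Complex.norm_conj, ell]
  rw [ww, Phi, ← xx_eq, Real.exp_sub, Real.exp_add, Real.exp_log h0,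
    Real.exp_log (by positivity), Real.exp_neg]
  generalize Real.exp (Amp.KK (Amp.xx c z.1 z.2 v)) = E
  rw [xx_eq, h2]
  generalize 1 - nsq z = ρ
  ring

theorem Pos.weight {Γ : Subgroup SU21} {P : Set V3} {δ : ℝ} (h : Pos Γ P δ) {r s c : ℝ}
    (hr : r < 1) (hs : 0 < s) (hs1 : s ≤ 1)
    (hlev : ∀ z ∈ Bl r, ∀ w : C2, nsq w = 1 → ∀ S : Finset V3, (∀ v ∈ S, v ∈ P) →
      (∀ v ∈ P, Amp.xx (s ^ 2) z.1 z.2 v ≤ 2 → v ∈ S) →
      c ≤ ∑ v ∈ S, Amp.lev (s ^ 2) z.1 z.2 w.1 w.2 v) :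
    ∃ (X : Set V3) (m : V3 → ℕ) (ε : ℝ), Discs Γ X ε ∧ Weight Γ X m r c ∧
      ∀ x ∈ X, ∃ v ∈ P, ∃ a : ℂ, x = a • v := by
  classical
  obtain ⟨X, hX1, hX2, hX3, hX4, hX5⟩ := h.exists_reps
  choose! rep hrep coef hcoef using hX4
  have hs2 : 0 < s ^ 2 := by positivity
  have huniq : ∀ v ∈ P, ∀ x ∈ X, ∀ a : ℂ, v = a • x → rep v = x := by
    intro v hv x hx a ha
    refine hX3 x hx _ (hrep v hv) ((coef v)⁻¹ * a) ?_
    rw [mul_smul, ← ha, eq_inv_smul_iff₀ (h.ne_zero hv (hcoef v hv))]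
    exact (hcoef v hv).symm
  have hsurj : ∀ x ∈ X, ∃ v ∈ P, rep v = x := by
    intro x hx
    obtain ⟨v, hv, a, ha⟩ := hX5 x hx
    have ha0 : a ≠ 0 := by
      rintro rfl
      have := hX1 x hx
      rw [ha, H_smul_left] at this
      simp at this
    exact ⟨v, hv, huniq v hv x hx a⁻¹ (by rw [ha, inv_smul_smul₀ ha0])⟩
  have hfib : ∀ R : ℝ, {v | v ∈ P ∧ ‖rep v‖ ≤ R}.Finite := fun R =>
    (h.fin (2 * R)).subset fun v hv => ⟨hv.1,
      (h.norm_le hv.1 (hX1 _ (hrep v hv.1)) (hcoef v hv.1)).trans (by linarith [hv.2])⟩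
  have hequiv : ∀ γ ∈ Γ, ∀ v ∈ P, rep (mv γ v) = mv γ (rep v) := fun γ hγ v hv =>
    huniq _ (h.inv γ hγ v hv) _ (hX2 γ hγ _ (hrep v hv)) (coef v) (by
      rw [← mv_smul, ← hcoef v hv])
  have hinj : ∀ γ : SU21, Function.Injective (mv γ) := fun γ a b e => by
    rw [← mv_inv_mv γ a, e, mv_inv_mv]
  have hB : ∀ z ∈ Bl r, nsq z < 1 := fun z hz => lt_trans hz hr
  have hS0 : {v | v ∈ P ∧ ∃ z ∈ Bl r, Amp.xx (s ^ 2) z.1 z.2 v ≤ 2}.Finite := by
    refine (h.fin (6 / (1 - r) ^ 2)).subset ?_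
    rintro v ⟨hv, z, hz, hx⟩
    have hz' : nsq z < r := hz
    have h0 : 0 < Amp.rho z.1 z.2 := by rw [← rho_eq]; linarith
    refine ⟨hv, Amp.bad_bound (z1 := z.1) (z2 := z.2) (by linarith) (by rw [← rho_eq]; linarith)
      (by rw [← nrm_eq]; exact h.le v hv) ?_⟩
    rw [Amp.xx, div_le_iff₀ (by positivity)] at hx
    have k1 : s ^ 2 ≤ 1 := pow_le_one₀ hs.le hs1
    have k2 : s ^ 2 * Amp.rho z.1 z.2 ≤ 1 := mul_le_one₀ k1 h0.le (Amp.rho_le_one _ _)
    nlinarith [norm_nonneg (Amp.ell z.1 z.2 v)]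
  set S := hS0.toFinset.image rep with hS
  have hSX : ∀ x ∈ S, x ∈ X := by
    intro x hx
    obtain ⟨v, hv, rfl⟩ := Finset.mem_image.1 hx
    exact hrep v (hS0.mem_toFinset.1 hv).1
  have hSV0 : {v | v ∈ P ∧ rep v ∈ S}.Finite := by
    obtain ⟨R, hR⟩ := (S.image norm).bddAbove
    exact (hfib R).subset fun v hv =>
      ⟨hv.1, hR (Finset.mem_coe.2 (Finset.mem_image_of_mem _ hv.2))⟩
  set SV := hSV0.toFinset with hSV
  have hmem : ∀ v, v ∈ SV ↔ v ∈ P ∧ rep v ∈ S := fun v => hSV0.mem_toFinset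
  have hnear : ∀ z ∈ Bl r, ∀ v ∈ P, Amp.xx (s ^ 2) z.1 z.2 v ≤ 2 → v ∈ SV := fun z hz v hv hx =>
    (hmem v).2 ⟨hv, Finset.mem_image_of_mem _ (hS0.mem_toFinset.2 ⟨hv, z, hz, hx⟩)⟩
  refine ⟨X, fun x => {v | v ∈ P ∧ rep v = x}.ncard, δ / 4,
    ⟨by linarith [h.dpos], hX1, hX2, fun x hx y hy hne => ?_, fun R => ?_⟩, ⟨fun γ hγ x hx => ?_,
    fun z => ∏ᶠ v ∈ P, ww (s ^ 2) v z,
    fun z => ∑ v ∈ SV, Real.log (‖coef v‖ ^ 2 / s ^ 2) - ∑ v ∈ SV, Phi (s ^ 2) v z, S,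
    fun γ hγ z hz => ?_, hSX, fun x hx z hz h0 => ?_, fun z hz => ?_, fun z hz => ?_,
    fun z hz w => ?_⟩, hX5⟩
  · obtain ⟨v, hv, a, ha⟩ := hX5 x hx
    obtain ⟨w, hw, b, hb⟩ := hX5 y hy
    rcases h.sep (hX1 x hx) (hX1 y hy) hv hw ha hb with ⟨c, hc⟩ | h'
    · exact absurd (hX3 x hx y hy c hc).symm hne
    · exact h'
  · refine ((hfib (1 + R)).image rep).subset fun x hx => ?_
    obtain ⟨v, hv, rfl⟩ := hsurj x hx.1
    exact ⟨v, ⟨hv, norm_unit_le (hX1 _ hx.1) hx.2⟩, rfl⟩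
  · have : {v | v ∈ P ∧ rep v = mv γ x} = mv γ '' {v | v ∈ P ∧ rep v = x} := by
      ext v
      constructor
      · rintro ⟨hv, e⟩
        refine ⟨mv γ⁻¹ v, ⟨h.inv _ (Γ.inv_mem hγ) v hv, ?_⟩, mv_mv_inv γ v⟩
        rw [hequiv _ (Γ.inv_mem hγ) v hv, e, mv_inv_mv]
      · rintro ⟨u, ⟨hu, e⟩, rfl⟩
        exact ⟨h.inv γ hγ u hu, by rw [hequiv γ hγ u hu, e]⟩
    simp only [this, Set.ncard_image_of_injective _ (hinj γ)]
  · refine (finprod_mem_eq_of_bijOn (mv γ) ⟨fun v hv => h.inv γ hγ v hv, (hinj γ).injOn,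
      fun v hv => ⟨mv γ⁻¹ v, h.inv _ (Γ.inv_mem hγ) v hv, mv_mv_inv γ v⟩⟩ fun v _ => ?_).symm
    rw [ww, ww, xx_act _ γ v hz]
  · obtain ⟨v, hv, rfl⟩ := hsurj x hx
    refine ((hmem v).1 (hnear z hz v hv ?_)).2
    have : ell v z = 0 := by
      rw [hcoef v hv, ell, H_smul_right, ← ell, h0, mul_zero]
    rw [xx_eq, this]
    simp
  · exact (contDiffAt_const.sub (ContDiffAt.sum fun v _ =>
      contDiffAt_Phi hs2.ne' v (hB z hz))).contDiffWithinAt
  · have e1 : ∏ᶠ v ∈ P, ww (s ^ 2) v z = ∏ v ∈ SV, ww (s ^ 2) v z := by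
      refine finprod_mem_eq_prod_of_subset (fun v => ww (s ^ 2) v z) ?_
        fun v hv => ((hmem v).1 hv).1
      rintro v ⟨hv, hv'⟩
      refine hnear z hz v hv ?_
      by_contra hlt
      exact hv' (ww_eq_one (by linarith [not_le.1 hlt]))
    have e2 : ∏ x ∈ S, ‖ell x z‖ ^ (2 * {v | v ∈ P ∧ rep v = x}.ncard) =
        ∏ v ∈ SV, ‖ell (rep v) z‖ ^ 2 := by
      rw [← Finset.prod_fiberwise_of_maps_to' (fun v hv => ((hmem v).1 hv).2)
        (fun x => ‖ell x z‖ ^ 2)]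
      refine Finset.prod_congr rfl fun x hx => ?_
      rw [Finset.prod_const, ← pow_mul, ← Set.ncard_coe_finset]
      congr 3
      ext v
      simp only [Finset.coe_filter, hmem, mem_ofPred_eq]
      exact ⟨fun k => ⟨⟨k.1, k.2 ▸ hx⟩, k.2⟩, fun k => ⟨k.1.1, k.2⟩⟩
    beta_reduce
    rw [e1, e2, ← Finset.sum_sub_distrib, Real.exp_sum, ← Finset.prod_mul_distrib]
    refine Finset.prod_congr rfl fun v hv => ?_
    have hv' := ((hmem v).1 hv).1
    exact ww_eq hs2 (h.ne_zero hv' (hcoef v hv')) (hcoef v hv') (hB z hz)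
  · have key : ∀ w : C2, nsq w = 1 → levi (fun z => ∑ v ∈ SV, Real.log (‖coef v‖ ^ 2 / s ^ 2) -
        ∑ v ∈ SV, Phi (s ^ 2) v z) z w ≤ -c := by
      intro w hw
      rw [levi_sum SV (fun v => Phi (s ^ 2) v) _ (fun v _ => contDiffAt_Phi hs2.ne' v (hB z hz)),
        Finset.sum_congr rfl fun v _ => levi_Phi hs2.ne' v (hB z hz) w]
      exact neg_le_neg (hlev z hz w hw SV (fun v hv => ((hmem v).1 hv).1) (hnear z hz))
    have hsm : ∀ (t : ℝ) (w : C2), nsq (t • w) = t ^ 2 * nsq w := fun t w => by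
      simp only [nsq, Prod.smul_fst, Prod.smul_snd, norm_smul, mul_pow, Real.norm_eq_abs, sq_abs]
      ring
    rcases (nsq_nonneg w).eq_or_lt with h0 | h0
    · have : w = (0 : ℝ) • w := by
        have k1 : ‖w.1‖ ^ 2 = 0 := by unfold nsq at h0; nlinarith [sq_nonneg ‖w.1‖, sq_nonneg ‖w.2‖]
        have k2 : ‖w.2‖ ^ 2 = 0 := by unfold nsq at h0; nlinarith [sq_nonneg ‖w.1‖, sq_nonneg ‖w.2‖]
        rw [zero_smul]
        exact Prod.ext (by simpa using k1) (by simpa using k2)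
      rw [← h0, this, levi_smul]
      simp
    · have ht : 0 < √(nsq w) := Real.sqrt_pos.2 h0
      have e : w = √(nsq w) • (√(nsq w))⁻¹ • w := (smul_inv_smul₀ ht.ne' w).symm
      have k := key ((√(nsq w))⁻¹ • w) (by
        rw [hsm, inv_pow, Real.sq_sqrt h0.le, inv_mul_cancel₀ h0.ne'])
      conv_lhs => rw [e, levi_smul, Real.sq_sqrt h0.le]
      nlinarith

end AmpL

open AmpL

theorem ampGrid : AmpGridStmt := by
  intro Γ Λ _ e1 e2 Vec hG r hr c
  classical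
  obtain ⟨s, r0, hs, hs1, hr0, hsum⟩ := Amp.sum_lev_ge (1 - r) c (by linarith)
  obtain ⟨R, hR⟩ := hG.den
  set τ : ℝ := r0 / (|R| + 1) with hτ
  have hτ0 : 0 < τ := by positivity
  have hτc : (τ : ℂ) ≠ 0 := by exact_mod_cast hτ0.ne'
  have hτn : ‖(τ : ℂ)‖ = τ := by rw [Complex.norm_real, Real.norm_eq_abs, abs_of_pos hτ0]
  let ι1 : Λ →+ V3 := (DistribSMul.toAddMonoidHom V3 (τ : ℂ)).comp e1
  let ι2 : Λ →+ V3 := (DistribSMul.toAddMonoidHom V3 (τ : ℂ)).comp e2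
  have h1 : ∀ v, ι1 v = (τ : ℂ) • e1 v := fun v => rfl
  have h2 : ∀ v, ι2 v = (τ : ℂ) • e2 v := fun v => rfl
  have hn2 : ∀ v, Amp.nrm2 (ι2 v) = τ ^ 2 * n2 (e2 v) := fun v => by
    simp only [h2, Amp.nrm2, n2, Pi.smul_apply, norm_smul, hτn]
    ring
  have hinj : Function.Injective ι1 := fun a b e =>
    hG.inj (smul_right_injective V3 hτc e)
  obtain ⟨δ, hδ, hgap⟩ := hG.gap (τ ^ 2)⁻¹
  let P : Set V3 := ι1 '' {v | v ∈ Vec ∧ 0 < Amp.nrm (ι1 v) ∧ Amp.nrm (ι1 v) ≤ 2 ∧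
    Amp.nrm2 (ι2 v) ≤ 1}
  have hP : Pos Γ P (τ ^ 4 * δ) := by
    refine ⟨?_, ?_, ?_, fun R' => ?_, ?_, by positivity, ?_⟩
    · rintro _ ⟨v, hv, rfl⟩
      rw [nrm_eq]
      exact hv.2.1
    · rintro _ ⟨v, hv, rfl⟩
      rw [nrm_eq]
      exact hv.2.2.1
    · rintro γ hγ _ ⟨v, hv, rfl⟩
      obtain ⟨v', hv', k1, k2⟩ := hG.inv γ hγ v hv.1
      have k3 : ι1 v' = mv γ (ι1 v) := by rw [h1, h1, k1, mv_smul]
      have k4 : Amp.nrm (ι1 v') = Amp.nrm (ι1 v) := by rw [k3, ← nrm_eq, ← nrm_eq, H_mv]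
      exact ⟨v', ⟨hv', k4 ▸ hv.2.1, k4 ▸ hv.2.2.1, by rw [hn2, k2, ← hn2]; exact hv.2.2.2⟩, k3⟩
    · refine ((hG.fin (max R' 1 / τ)).image ι1).subset ?_
      rintro _ ⟨⟨v, hv, rfl⟩, k⟩
      have k2 := Amp.norm_le_of_nrm2 hv.2.2.2
      rw [h1, norm_smul, hτn] at k
      rw [h2, norm_smul, hτn] at k2
      refine ⟨v, ⟨hv.1, ?_, ?_⟩, rfl⟩
      · rw [le_div_iff₀' hτ0]
        exact k.trans (le_max_left _ _)
      · rw [le_div_iff₀' hτ0]
        exact k2.trans (le_max_right _ _)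
    · rintro γ hγ _ ⟨v, hv, rfl⟩ a e
      rw [h1, mv_smul, smul_comm] at e
      rw [h1, mv_smul, hG.rigid γ hγ v hv.1 a (smul_right_injective V3 hτc e)]
    · rintro _ ⟨v, hv, rfl⟩ _ ⟨w, hw, rfl⟩
      have k : ∀ u, Amp.nrm2 (ι2 u) ≤ 1 → n2 (e2 u) ≤ (τ ^ 2)⁻¹ := fun u hu => by
        rw [hn2] at hu
        rw [inv_eq_one_div, le_div_iff₀' (by positivity)]
        exact hu
      rcases hgap v hv.1 w hw.1 (k v hv.2.2.2) (k w hw.2.2.2) with ⟨a, ha⟩ | hg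
      · exact Or.inl ⟨a, by rw [h1, h1, ha, smul_comm]⟩
      · right
        rw [h1, h1, H_smul_re, H_smul_re, norm_H_smul, hτn]
        have e : τ ^ 2 * (H (e1 v) (e1 v)).re * (τ ^ 2 * (H (e1 w) (e1 w)).re) -
            (τ * τ * ‖H (e1 v) (e1 w)‖) ^ 2 = τ ^ 4 *
            ((H (e1 v) (e1 v)).re * (H (e1 w) (e1 w)).re - ‖H (e1 v) (e1 w)‖ ^ 2) := by ring
        rw [e, abs_mul, abs_of_pos (by positivity)]
        gcongr
  have hden : ∀ w1 w2 : V3, ∃ u, ‖ι1 u - w1‖ ≤ r0 ∧ ‖ι2 u - w2‖ ≤ r0 ∧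
      ∀ x ∈ Vec, x + u ∈ Vec := by
    intro w1 w2
    obtain ⟨u, u1, u2, u3⟩ := hR ((τ : ℂ)⁻¹ • w1) ((τ : ℂ)⁻¹ • w2)
    have k : ∀ a w : V3, ‖a - (τ : ℂ)⁻¹ • w‖ ≤ R → ‖(τ : ℂ) • a - w‖ ≤ r0 := fun a w ha => by
      rw [← smul_inv_smul₀ hτc w, ← smul_sub, norm_smul, hτn]
      have : τ * (|R| + 1) = r0 := by rw [hτ]; field_simp
      nlinarith [le_abs_self R]
    exact ⟨u, k _ _ u1, k _ _ u2, u3⟩
  obtain ⟨X, m, ε, k1, k2, k3⟩ := hP.weight (c := c) hr hs hs1 (by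
    intro z hz w hw S hS1 hS2
    have hz' : nsq z < r := hz
    rw [← Finset.sum_preimage ι1 S hinj.injOn _ fun v hv hv' => by
      obtain ⟨u, -, rfl⟩ := hS1 v hv
      exact absurd ⟨u, rfl⟩ hv']
    refine hsum Λ ι1 ι2 Vec hG.ne hden z.1 z.2 w.1 w.2 (by rw [← rho_eq]; linarith) hw _
      (fun v hv => ?_) fun v hv a1 a2 a3 a4 => Finset.mem_preimage.2 (hS2 _ ⟨v, ⟨hv, a1, a2, a3⟩, rfl⟩ a4)
    obtain ⟨u, hu, e⟩ := hS1 _ (Finset.mem_preimage.1 hv)
    rw [← hinj e]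
    exact ⟨hu.1, hu.2.2⟩)
  refine ⟨X, m, ε, k1, k2, fun x hx => ?_⟩
  obtain ⟨_, ⟨v, hv, rfl⟩, a, rfl⟩ := k3 x hx
  exact ⟨v, hv.1, a * τ, by rw [h1, mul_smul]⟩

end Pool.Agent.MP_54e5d7_al.Atc

end MrgPart2

-- ======== part 3: formerly Pool.Agent.MP_54e5d7_al.atc.ar.Main
section MrgPart3

/-!
PROJECT ATC, block ARITH: the result.
-/

set_option autoImplicit false

namespace Pool.Agent.MP_54e5d7_al.Atc

theorem arith : ArithStmt := Ar.arith_of Ar.cocpt ampGrid Ar.tow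

end Pool.Agent.MP_54e5d7_al.Atc

end MrgPart3

-- ======== part 4: formerly Pool.Agent.MP_54e5d7_al.atc.fin.Fin
section MrgPart4

/-!
PROJECT ATC, block FIN: the Bergman space is the kernel of a matrix over the group ring.
-/

set_option autoImplicit false

open scoped ComplexConjugate ContDiff Topology
open Matrix Set MeasureTheory Filter

namespace Pool.Agent.MP_54e5d7_al.Atc

/-- A translation invariant system of local linear conditions is the kernel of a matrix over the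
group ring. -/
theorem exists_kerEq {G : Type} [Group G] {m : ℕ} (T : Finset (Fin m × G))
    (V : Submodule ℂ (Fin m × G → ℂ)) (hT : ∀ y, (∀ p ∈ T, y p = 0) → y ∈ V) :
    ∃ (n : ℕ) (A : Matrix (Fin m) (Fin n) (G →₀ ℂ)), ∀ x : Fin m × G → ℂ,
      KerEq A x ↔ ∀ g : G, (fun p : Fin m × G => x (p.1, g * p.2)) ∈ V := by
  classical
  let ext : (T → ℂ) →ₗ[ℂ] (Fin m × G → ℂ) :=
    { toFun := fun y p => if h : p ∈ T then y ⟨p, h⟩ else 0
      map_add' := fun y y' => by funext p; by_cases h : p ∈ T <;> simp [h]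
      map_smul' := fun c y => by funext p; by_cases h : p ∈ T <;> simp [h] }
  have hext : ∀ y : Fin m × G → ℂ, y - ext (fun p => y p) ∈ V := fun y =>
    hT _ fun p hp => by simp [ext, hp]
  have hsurj : Function.Surjective (V.mkQ ∘ₗ ext) := by
    intro q
    obtain ⟨y, rfl⟩ := V.mkQ_surjective q
    refine ⟨fun p => y p, ?_⟩
    simp only [LinearMap.comp_apply, Submodule.mkQ_apply]
    exact ((Submodule.Quotient.eq V).2 (hext y)).symm
  have : Module.Finite ℂ ((Fin m × G → ℂ) ⧸ V) := Module.Finite.of_surjective _ hsurj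
  let b := Module.finBasis ℂ ((Fin m × G → ℂ) ⧸ V)
  set n := Module.finrank ℂ ((Fin m × G → ℂ) ⧸ V)
  let L : Fin n → (Fin m × G → ℂ) →ₗ[ℂ] ℂ := fun j => b.coord j ∘ₗ V.mkQ
  have hL : ∀ y, y ∈ V ↔ ∀ j, L j y = 0 := by
    intro y
    rw [← Submodule.Quotient.mk_eq_zero, ← b.forall_coord_eq_zero_iff]
    rfl
  have hLs : ∀ j y, L j y = ∑ p ∈ T, y p * L j (Pi.single p 1) := by
    intro j y
    have h1 : y - ∑ p ∈ T, y p • (Pi.single p 1 : Fin m × G → ℂ) ∈ V := hT _ fun q hq => by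
      simp [Finset.sum_apply, Pi.single_apply, hq]
    have h2 := (hL _).1 h1 j
    rw [map_sub, map_sum, sub_eq_zero] at h2
    simpa using h2
  refine ⟨n, fun i j => ∑ p ∈ T.filter (fun p => p.1 = i),
    Finsupp.single p.2⁻¹ (L j (Pi.single p 1)), fun x => ?_⟩
  have key : ∀ (j : Fin n) (g : G), ∑ i' : Fin m,
      (∑ p ∈ T.filter (fun p => p.1 = i'), Finsupp.single p.2⁻¹ (L j (Pi.single p 1))).sum
        (fun h c => x (i', g * h⁻¹) * c) = L j (fun p => x (p.1, g * p.2)) := by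
    intro j g
    rw [hLs, ← Finset.sum_fiberwise_of_maps_to (s := T) (t := Finset.univ) (g := fun p => p.1)
      (fun _ _ => Finset.mem_univ _)]
    refine Finset.sum_congr rfl fun i _ => ?_
    rw [← Finsupp.sum_finsetSum_index (fun _ => by simp) (fun _ _ _ => by simp [mul_add])]
    refine Finset.sum_congr rfl fun p hp => ?_
    rw [Finsupp.sum_single_index (by simp), inv_inv, (Finset.mem_filter.1 hp).2]
  simp only [KerEq, key, hL]
  exact forall_comm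

theorem van_zero (k : ℕ) (x : V3) (V : Set C2) : Van k x 0 V := fun _ _ =>
  ⟨univ, univ_mem, 0, differentiableOn_const 0, fun z _ => by simp⟩

theorem Hol.eventually {f : C2 → ℂ} (hf : Hol f) {y : C2} (hy : y ∈ B) :
    ∀ᶠ z in 𝓝 y, DifferentiableAt ℂ f z := by
  filter_upwards [(isOpen_Bl 1).mem_nhds hy] with z hz
  exact hf.2.differentiableAt ((isOpen_Bl 1).mem_nhds hz)

theorem Hol.bdd {f : C2 → ℂ} (hf : Hol f) {r : ℝ} (hr : r < 1) :
    ∃ c : ℝ, ∀ z ∈ Bl r, ‖f z‖ ≤ c := by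
  obtain ⟨c, hc⟩ := (isCompact_nsq_le r).exists_bound_of_continuousOn (f := f)
    (hf.2.continuousOn.mono fun z hz => lt_of_le_of_lt hz hr)
  exact ⟨c, fun z hz => hc z (le_of_lt (show nsq z < r from hz))⟩

variable {n : ℕ} {U : Type} [Group U] {C : Cover n U} {Γ : Subgroup SU21} {G : Type} [Group G]

theorem Cover.finite_preimage (C : Cover n U) (hn : 0 < n) {F : Set SU21} (hF : F.Finite) :
    (C.p ⁻¹' F).Finite := by
  have hk : Finite C.p.ker := Nat.finite_of_card_ne_zero (by rw [C.card_ker hn]; exact hn.ne')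
  have hk' : (C.p.ker : Set U).Finite := Set.toFinite _
  refine hF.preimage' fun γ _ => ?_
  by_cases h : ∃ a, C.p a = γ
  · obtain ⟨a, ha⟩ := h
    refine (hk'.image fun z => a * z).subset fun b hb => ⟨a⁻¹ * b, ?_, by simp⟩
    have hb' : C.p b = γ := hb
    simp [MonoidHom.mem_ker, ha, hb']
  · refine Set.finite_empty.subset fun b hb => h ⟨b, hb⟩

/-- the automorphic functions form a subspace -/
def Quo.AutS (Q : Quo C Γ G) (s : ℕ) : Submodule ℂ (C2 → ℂ) where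
  carrier := {f | Q.Aut s f}
  add_mem' := fun {f g} hf hg => ⟨⟨fun z hz => by simp [hf.1.1 z hz, hg.1.1 z hz],
    hf.1.2.add hg.1.2⟩, fun k hk => by rw [C.sl_add, hf.2 k hk, hg.2 k hk]⟩
  zero_mem' := (Q.berg_zero s).1
  smul_mem' := fun c f hf => ⟨⟨fun z hz => by simp [hf.1.1 z hz], hf.1.2.const_smul c⟩,
    fun k hk => by rw [C.sl_smul, hf.2 k hk]⟩

theorem summable_sq_sum {ι κ : Type*} [Fintype κ] {a : κ → ι → ℝ}
    (h : ∀ j, Summable fun q => a j q ^ 2) : Summable fun q => (∑ j, a j q) ^ 2 := by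
  refine Summable.of_nonneg_of_le (fun q => sq_nonneg _)
    (fun q => sq_sum_le_card_mul_sum_sq) ?_
  exact (summable_sum fun j _ => h j).mul_left _

/-- The finite-dimensional coordinates of an automorphic function modulo the divisor. -/
theorem exists_coord (hJ : JetStmt) (Q : Quo C Γ G) {X : Set V3} {ε : ℝ} (m : V3 → ℕ)
    {N : V3 → Subgroup U} (s : ℕ) (hn : 0 < n) (hΓ : Lat Γ) (hX : Discs Γ X ε)
    (hN : Fill C Γ X N) (hπ : ∀ x ∈ X, ∀ ν : ↥(Γ.comap C.p), ν.1 ∈ N x → Q.π ν = 1)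
    (S : Finset V3) (hS : ∀ x ∈ S, x ∈ X) :
    ∃ (k : ℕ) (Λ : Fin k → (C2 → ℂ) →ₗ[ℂ] ℂ),
      (∃ r < (1 : ℝ), ∃ c : ℝ, ∀ f, Q.Aut s f → ∀ M : ℝ, (∀ z ∈ Bl r, ‖f z‖ ≤ M) →
        ∀ i, ‖Λ i f‖ ≤ c * M) ∧
      (∀ f, Q.Aut s f → (∀ i, Λ i f = 0) → ∀ x ∈ S, Van (m x) x f B) ∧
      ∀ f, Q.Aut s f → (∀ x ∈ S, ∃ y ∈ B, ell x y = 0 ∧ Van (m x) x f {y}) → ∀ i, Λ i f = 0 := by
  classical
  have hinv : ∀ f, Q.Aut s f → ∀ x ∈ X, ∀ ν ∈ N x, C.sl s f ν = f := fun f hf x hx ν hν =>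
    hf.2 ⟨ν, (hN.le x hx ν hν).1⟩ (hπ x hx _ hν)
  choose d b Λ _ h2 h3 h4 using fun x : S =>
    hJ n U C Γ X ε N s (m x) hn hΓ hX hN x (hS x x.2)
  choose r hr c hc using h3
  let e := (Fintype.equivFin (Σ x : S, Fin (d x))).symm
  refine ⟨_, fun j => Λ (e j).1 (e j).2, ?_, ?_, ?_⟩
  · obtain ⟨r', hr', hle⟩ : ∃ r' < (1 : ℝ), 0 < r' ∧ ∀ x, r x ≤ r' := by
      obtain ⟨x0, hx0⟩ := Finite.exists_max fun x : Option S => x.elim (1 / 2) r
      refine ⟨_, ?_, lt_of_lt_of_le (by norm_num) (hx0 none), fun x => hx0 (some x)⟩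
      cases x0 with
      | none => norm_num
      | some x => exact hr x
    refine ⟨r', hr', ∑ x, |c x|, fun f hf M hM i => ?_⟩
    have hM0 : 0 ≤ M := (norm_nonneg _).trans (hM 0 (by simpa [Bl, nsq] using hle.1))
    refine (hc _ f hf.1 (hinv f hf _ (hS _ (e i).1.2)) M
      (fun z hz => hM z (Bl_mono (hle.2 _) hz)) _).trans (mul_le_mul_of_nonneg_right ?_ hM0)
    exact (le_abs_self _).trans
      (Finset.single_le_sum (f := fun x => |c x|) (fun _ _ => abs_nonneg _) (Finset.mem_univ _))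
  · intro f hf h0 x hx
    have h5 := h2 ⟨x, hx⟩ f hf.1 (hinv f hf x (hS x hx))
    have h6 : ∀ i, Λ ⟨x, hx⟩ i f = 0 := fun i => by
      have : ∀ p : Σ x : S, Fin (d x), Λ p.1 p.2 f = 0 := fun p => by
        obtain ⟨j, rfl⟩ := e.surjective p
        exact h0 j
      exact this ⟨⟨x, hx⟩, i⟩
    simpa [h6] using h5
  · intro f hf h0 j
    obtain ⟨y, hy, hy0, hv⟩ := h0 _ (e j).1.2
    have h5 := van_iff.1 (h2 (e j).1 f hf.1 (hinv f hf _ (hS _ (e j).1.2))) y hy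
    have h6 := hv.sub h5
    rw [sub_sub_cancel] at h6
    exact congrFun (h4 (e j).1 (fun i => Λ (e j).1 i f) y hy hy0 h6) (e j).2

theorem fin (hJ : JetStmt) : FinStmt := by
  classical
  intro n U _ C Γ X ε m N G _ Q s k O hn hΓ hX hm hN hπ h0 hO h1
  obtain ⟨_, ⟨r, hr, hOr⟩, hcov⟩ := hO
  have hOB : ∀ i, O i ⊆ B := fun i => (hOr i).trans (Bl_mono hr.le)
  let S : Finset V3 := (hX.finite_meet hr).toFinset.filter fun x => ∃ i, ∃ z ∈ O i, ell x z = 0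
  have hS : ∀ x, x ∈ S ↔ x ∈ X ∧ ∃ i, ∃ z ∈ O i, ell x z = 0 := fun x => by
    simp only [S, Finset.mem_filter, Set.Finite.mem_toFinset, mem_ofPred_eq]
    exact ⟨fun h => ⟨h.1.1, h.2⟩, fun ⟨h, i, z, hz, h'⟩ => ⟨⟨h, z, hOr i hz, h'⟩, i, z, hz, h'⟩⟩
  obtain ⟨k', Λ, hb, hz, hv⟩ :=
    exists_coord hJ Q m s hn hΓ hX hN hπ S fun x hx => ((hS x).1 hx).1
  let lam : (C2 → ℂ) →ₗ[ℂ] (Fin k' → ℂ) := LinearMap.pi Λ
  let lam' : Q.AutS s →ₗ[ℂ] (Fin k' → ℂ) := lam ∘ₗ (Q.AutS s).subtype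
  obtain ⟨σ1, hσ1⟩ := lam'.rangeRestrict.exists_rightInverse_of_surjective
    lam'.range_rangeRestrict
  obtain ⟨σ2, hσ2⟩ := σ1.exists_extend
  let σ0 : (Fin k' → ℂ) →ₗ[ℂ] (C2 → ℂ) := (Q.AutS s).subtype ∘ₗ σ2
  have hσA : ∀ v, Q.Aut s (σ0 v) := fun v => (σ2 v).2
  have hσ : ∀ v ∈ LinearMap.range lam', lam (σ0 v) = v := fun v hv => by
    have e1 : σ2 v = σ1 ⟨v, hv⟩ := LinearMap.congr_fun hσ2 ⟨v, hv⟩
    have e2 := congrArg Subtype.val (LinearMap.congr_fun hσ1 ⟨v, hv⟩)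
    show lam' (σ2 v) = v
    rw [e1]
    exact e2
  have hrange : ∀ f, Q.Aut s f → lam f ∈ LinearMap.range lam' := fun f hf => ⟨⟨f, hf⟩, rfl⟩
  -- an automorphic function agrees with the section of its coordinates along `S`
  have hdiff : ∀ f, Q.Aut s f → ∀ x ∈ S, Van (m x) x (f - σ0 (lam f)) B := fun f hf =>
    hz _ ((Q.AutS s).sub_mem hf (hσA _)) fun i => by
      have : lam (f - σ0 (lam f)) = 0 := by rw [map_sub, hσ _ (hrange f hf), sub_self]
      exact congrFun this i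
  let ev : G → (Fin k' × G → ℂ) →ₗ[ℂ] (Fin k' → ℂ) := fun q =>
    LinearMap.pi fun j => LinearMap.proj (j, q)
  let V : Submodule ℂ (Fin k' × G → ℂ) :=
    { carrier := {y | ev 1 y ∈ LinearMap.range lam' ∧ ∀ i i' (a : ↥(Γ.comap C.p)),
        VanD X m (C.sl s (σ0 (ev 1 y)) a - σ0 (ev (Q.π a) y)) (O i' ∩ act (C.p a) ⁻¹' O i)}
      add_mem' := fun {y y'} hy hy' => ⟨by
        rw [map_add]; exact Submodule.add_mem _ hy.1 hy'.1, fun i i' a x hx => by
        have := (hy.2 i i' a x hx).add (hy'.2 i i' a x hx)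
        rw [map_add, map_add, map_add, map_add, C.sl_add, add_sub_add_comm]
        exact this⟩
      zero_mem' := ⟨by rw [map_zero]; exact Submodule.zero_mem _, fun i i' a x _ => by
        have e1 : C.sl s (0 : C2 → ℂ) a = 0 := by simpa using C.sl_smul s 0 0 a
        simp only [map_zero, e1, sub_self]
        exact van_zero _ _ _⟩
      smul_mem' := fun c y hy => ⟨by
        rw [map_smul]; exact Submodule.smul_mem _ _ hy.1, fun i i' a x hx => by
        have := (hy.2 i i' a x hx).smul c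
        rw [map_smul, map_smul, map_smul, map_smul, C.sl_smul, ← smul_sub]
        exact this⟩ }
  have hfin : {a : ↥(Γ.comap C.p) | ∃ z ∈ Bl r, act (C.p a) z ∈ Bl r}.Finite := by
    refine Set.Finite.of_finite_image (f := Subtype.val) ?_ Subtype.val_injective.injOn
    refine (C.finite_preimage hn (hΓ.finite_meet hr)).subset ?_
    rintro _ ⟨a, ha, rfl⟩
    exact ⟨a.2, ha⟩
  obtain ⟨l, A, hA⟩ := exists_kerEq
    (Finset.univ ×ˢ insert (1 : G) (hfin.toFinset.image Q.π)) V (fun y hy => by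
      have e1 : ∀ q ∈ insert (1 : G) (hfin.toFinset.image Q.π), ev q y = 0 := fun q hq =>
        funext fun j => hy (j, q) (Finset.mem_product.2 ⟨Finset.mem_univ _, hq⟩)
      have e2 := e1 1 (Finset.mem_insert_self _ _)
      refine ⟨by rw [e2]; exact Submodule.zero_mem _, fun i i' a x _ z hz => ?_⟩
      have e3 := e1 (Q.π a) (Finset.mem_insert_of_mem (Finset.mem_image_of_mem _
        (hfin.mem_toFinset.2 ⟨z, hOr _ hz.1, hOr _ hz.2⟩)))
      have e4 : C.sl s (0 : C2 → ℂ) a = 0 := by simpa using C.sl_smul s 0 0 a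
      rw [e2, e3, map_zero, e4, sub_zero]
      exact van_zero _ _ _ z hz)
  refine ⟨k', l, A, Λ, hb, fun f hf => (hA _).2 fun g => ?_, fun f hf hf0 => ?_, fun x hx => ?_⟩
  · have e1 : ∀ q, ev q (fun p : Fin k' × G => Λ p.1 (C.sl s f (Q.σ (g * p.2)))) =
        lam (C.sl s f (Q.σ (g * q))) := fun q => rfl
    have hA' : ∀ q, Q.Aut s (C.sl s f (Q.σ q)) := fun q => Quo.Aut.sl Q hn hf.1 _
    refine ⟨by rw [e1]; exact hrange _ (hA' _), fun i i' a x hx => van_iff.2 fun y hy => ?_⟩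
    rw [e1, e1, mul_one]
    have hyB := hOB _ hy.1
    by_cases hy0 : ell x y = 0
    · have hxS : x ∈ S := (hS x).2 ⟨hx, i', y, hy.1, hy0⟩
      have hxS' : mv (C.p a) x ∈ S := (hS _).2 ⟨hX.inv _ a.2 x hx, i, _, hy.2, by
        have := ell_act (C.p a) x hyB
        rw [hy0] at this
        exact (mul_eq_zero.1 this).resolve_right (jf_ne_zero _ hyB)⟩
      have v1 := van_iff.1 (hdiff _ (hA' (g * Q.π a)) x hxS) y hyB
      have v2 := van_iff.1 (hdiff _ (hA' g) _ hxS') _ (act_mem (C.p a) hyB)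
      rw [hm _ a.2 x hx] at v2
      have v3 := v1.sub ((C.van_sl hn s (m x) x _ a hyB).2 v2)
      have e2 : C.sl s (C.sl s f (Q.σ g)) a = C.sl s f (Q.σ (g * Q.π a)) := by
        rw [← Q.sl_σ (hA' g) a, Q.sl_σ_mul hf.1]
      rw [C.sl_sub, e2] at v3
      have e3 : ∀ u v w : C2 → ℂ, u - v - (u - w) = w - v := fun u v w => by ring
      rwa [e3] at v3
    · exact van_of_ne hy0 (Hol.eventually
        ((Q.AutS s).sub_mem (Quo.Aut.sl Q hn (hσA _) a) (hσA _)).1 hyB)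
  · refine h0 f hf fun x hx => van_iff.2 fun y hy => ?_
    by_cases hy0 : ell x y = 0
    · obtain ⟨γ, hγ, i, hi⟩ := hcov y hy
      obtain ⟨a, ha⟩ := C.surj hn γ⁻¹
      let a' : ↥(Γ.comap C.p) := ⟨a, by
        show C.p a ∈ Γ
        rw [ha]; exact Γ.inv_mem hγ⟩
      have hxS : mv γ x ∈ S := (hS _).2 ⟨hX.inv _ hγ x hx, i, _, hi, by
        have := ell_act γ x hy
        rw [hy0] at this
        exact (mul_eq_zero.1 this).resolve_right (jf_ne_zero _ hy)⟩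
      have v1 := van_iff.1 (hz _ (Quo.Aut.sl Q hn hf.1 (Q.σ (Q.π a'))) (fun j => hf0 j _) _ hxS) _
        (act_mem γ hy)
      rw [Q.sl_σ hf.1, hm _ hγ x hx] at v1
      have v2 := (C.van_sl hn s (m x) _ f a (act_mem γ hy)).1 v1
      rwa [ha, act_inv_act γ hy, ← mv_mul, inv_mul_cancel, mv_one] at v2
    · exact van_of_ne hy0 (hf.1.1.eventually hy)
  · have hx' := (hA _).1 hx
    have e1 : ∀ g q, ev q (fun p : Fin k' × G => x (p.1, g * p.2)) = ev (g * q) x := fun g q => rfl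
    choose c hc using fun j : Fin k' => (hσA (Pi.single j 1)).1.bdd hr
    obtain ⟨f, hf, hfv⟩ := h1 (fun q _ => σ0 (ev q x)) (fun q => ∑ j, ‖x (j, q)‖ * c j)
      (summable_sq_sum fun j => by
        have s1 : Summable fun p => ‖x p‖ ^ 2 := by
          simpa using (lp.memℓp x).summable (by norm_num)
        have s2 := s1.comp_injective (i := fun q : G => (j, q)) (Prod.mk_right_injective j)
        simpa [mul_pow] using s2.mul_right (c j ^ 2))
      (fun q i => (hσA _).1.2.mono (hOB i))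
      (fun q i z hz => by
        rw [LinearMap.pi_apply_eq_sum_univ σ0, Finset.sum_apply]
        refine (norm_sum_le _ _).trans (Finset.sum_le_sum fun j _ => ?_)
        rw [Pi.smul_apply, norm_smul]
        refine mul_le_mul_of_nonneg_left ?_ (norm_nonneg _)
        have e2 : (fun j' => if j = j' then (1 : ℂ) else 0) = Pi.single j 1 := by
          funext j'; simp [Pi.single_apply, eq_comm]
        rw [e2]
        exact hc j z (hOr i hz))
      (fun q i i' a => by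
        have := (hx' q).2 i i' a
        rwa [e1, e1, mul_one] at this)
    refine ⟨f, hf, fun j q => ?_⟩
    have hA' := Quo.Aut.sl Q hn hf.1 (Q.σ q)
    have e2 := hv _ ((Q.AutS s).sub_mem hA' (hσA (ev q x))) (fun y hy => by
      obtain ⟨hyX, i, z, hz, hz0⟩ := (hS y).1 hy
      exact ⟨z, hOB i hz, hz0, van_iff.1 (hfv q i y hyX) z hz⟩) j
    have e3 : ev q x ∈ LinearMap.range lam' := by
      have := (hx' q).1
      rwa [e1, mul_one] at this
    rw [map_sub, sub_eq_zero] at e2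
    exact e2.trans (congrFun (hσ _ e3) j)

/-- The block TYPE from its three parts. -/
theorem typ_of (hE : ExtStmt) (hJ : JetStmt) : TypeStmt := by
  intro Γ₀ h₀
  obtain ⟨r, hr, c, h⟩ := hE Γ₀ h₀
  refine ⟨r, hr, c, fun X m ε hX hW n U _ C Γ N G _ Q s hn hs hle hi hK hN hπ => ?_⟩
  obtain ⟨h0, k, O, hO, h1⟩ := h X m ε hX hW n U C Γ G Q s hn hs hle hi hK
  exact fin hJ n U C Γ X ε m N G Q s k O hn (h₀.sub hle hi) (hX.sub hle)
    (fun γ hγ => hW.1 γ (hle hγ)) hN hπ h0 hO h1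

end Pool.Agent.MP_54e5d7_al.Atc

end MrgPart4

-- ======== part 5: formerly Pool.Agent.MP_54e5d7_al.atc.fin.Glue
section MrgPart5

/-!
PROJECT ATC, row GLUE: vanishing of `H¹` and the statement `ExtStmt`.
-/

set_option autoImplicit false

open scoped ComplexConjugate ContDiff Topology
open Set Filter

namespace Pool.Agent.MP_54e5d7_al.Atc.Glue

noncomputable section

open Pool.Agent.MP54

variable {Γ₀ : Subgroup SU21} {r1 r2 r : ℝ} {n : ℕ} {U : Type} [Group U] {C : Cover n U}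
  {Γ : Subgroup SU21} {G : Type} [Group G] {Q : Quo C Γ G} {X : Set V3} {m : V3 → ℕ}
  {S : Finset V3} {J : Type} [MulAction ↥Γ₀ J]

theorem exists_lift (Q : Quo C Γ G) (q q' : G) {κ : U} (hκ : InK Q κ) :
    ∃ a : ↥(Γ.comap C.p), (Q.σ q' : U) * a = κ * Q.σ q ∧ q' * Q.π a = q := by
  obtain ⟨h1, h2⟩ := hκ
  refine ⟨(Q.σ q')⁻¹ * (⟨κ, h1⟩ * Q.σ q), by simp, ?_⟩
  rw [map_mul, map_mul, map_inv, h2, Q.sec, Q.sec, one_mul, mul_inv_cancel_left]

theorem h1_of (R : Rad Γ₀ r1 r2 r) (D : Div Γ₀ X m r S) (I : Idx Q Γ₀ J) (hn : 0 < n) (s : ℕ)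
    (hle : Γ ≤ Γ₀) (hΓ : Lat Γ) (Bd : PDE.Bundle R.chart J)
    (ha : ∀ j g z, Bd.a j g z = C.φ (I.e j g) z ^ s * vg S m g z) (h1 : Bd.H1s) :
    Q.H1 s X m (I.O r) := by
  intro F M hM hF hb hcomp
  obtain ⟨κ, hκ0, hκ⟩ := exists_sl_le C hn s R.h
  obtain ⟨Fj, hFj⟩ : ∃ Fj : J → C2 → ℂ, ∀ j, Fj j = C.sl s (F (I.q j) (I.i j)) (I.t (I.i j)) :=
    ⟨_, fun _ => rfl⟩
  have hFd : ∀ j, DifferentiableOn ℂ (Fj j) (Bl r) := fun j => by
    rw [hFj]
    exact sl_diffOn C hn s (hF _ _) _ R.subB fun _ hz => I.act_mem_O R.h.le _ hz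
  have hFb : ∀ j, ∀ z ∈ Bl r, ‖Fj j z‖ ≤ κ * M (I.q j) := fun j z hz => by
    rw [hFj]
    exact (hκ _ _ z hz).trans
      (mul_le_mul_of_nonneg_left (hb _ _ _ (I.act_mem_O R.h.le _ hz)) hκ0)
  have hMj : Summable fun j => (κ * M (I.q j)) ^ 2 :=
    sq_mul (I.sumq _ (fun _ => sq_nonneg _) hM) κ
  have hv : ∀ j (g : ↥Γ₀), VanD X m (C.sl s (Fj (g • j)) (I.e j g) - Fj j)
      {z | z ∈ Bl r ∧ act g z ∈ Bl r} := by
    intro j g
    obtain ⟨κ', k1, k2⟩ := I.he j g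
    obtain ⟨a, a1, a2⟩ := exists_lift Q (I.q j) (I.q (g • j)) k1
    have e : I.t (I.i (g • j)) * I.e j g = a * I.t (I.i j) := by
      apply mul_left_cancel (a := (Q.σ (I.q (g • j)) : U))
      rw [← mul_assoc, ← I.hρ, k2, ← mul_assoc, a1, I.hρ, mul_assoc]
    rw [hFj, hFj, C.sl_mul, e, ← C.sl_mul, ← C.sl_sub]
    refine vanD_iff.2 fun y hy => D.vanD_sl C hn s (I.ht _) (R.subB hy.1) ?_
    have := hcomp (I.q (g • j)) (I.i (g • j)) (I.i j) a
    rw [a2] at this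
    refine vanD_iff.1 this _ ⟨I.act_mem_O R.h.le _ hy.1, ?_⟩
    rw [mem_preimage, ← act_mul _ _ (R.subB hy.1), ← map_mul, ← e, map_mul,
      act_mul _ _ (R.subB hy.1), I.pe]
    exact I.act_mem_O R.h.le _ hy.2
  obtain ⟨σ, N, c1, c2, c3, c4⟩ := exists_coc R D I hn s Bd ha Fj _ hMj hFd hFb hv
  obtain ⟨_, h1⟩ := h1
  obtain ⟨h, P, p1, p2, p3, p4, -⟩ := h1 σ N c1 c2 c3
  obtain ⟨Φ, hΦ, hΦj⟩ := I.glue R hn s hle (fun j z => Fj j z - fD S m z * h j z)
    (fun j => ((hFd j).mono R.sub2).sub ((differentiable_fD S m).differentiableOn.mul (p1 j)))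
    (by
      intro j g z hz hgz
      have a := D.vg_spec g.2 (R.sub2 hz)
      have b : h (g • j) (act g z) = Bd.a j g z * (h j z + σ j g z) := p2 j g z ⟨hz, hgz⟩
      have c := c4 j g z ⟨hz, hgz⟩
      have n1 := pow_ne_zero s (C.φ_ne_zero hn (I.e j g) (R.subB (R.sub2 hz)))
      rw [eq_sub_iff_add_eq, eq_div_iff n1] at c
      rw [b, ha, ← c]
      linear_combination (C.φ (I.e j g) z ^ s * (h j z + σ j g z)) * a)
  refine ⟨Φ, ?_, fun q i => vanD_iff.2 fun y hy => ?_⟩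
  · have hr1 : r1 < 1 := R.h12.trans (R.h2.trans R.h)
    obtain ⟨r', hr', hO⟩ := I.O_sub hr1
    obtain ⟨κ', hκ0', hκ'⟩ := exists_sl_le C hn s hr'
    obtain ⟨Cf, hCf⟩ := (isCompact_closure_Bl r1).exists_bound_of_continuousOn
      (differentiable_fD S m).continuous.continuousOn
    refine Q.berg_of_bound hn hΓ hΦ hr' (iUnion_subset hO) (fun z hz => ?_)
      (M := fun q => ∑ i, κ' * (κ * (|κ * M (I.q (I.c q i))| + |Cf| * |P (I.c q i)|))) ?_ ?_
    · obtain ⟨γ, hγ, i, hi⟩ := I.cover_O R hz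
      exact ⟨γ, hγ, mem_iUnion.2 ⟨i, hi⟩⟩
    · refine sq_sum _ fun i => sq_mul (sq_mul (sq_add ?_ (sq_mul ?_ _)) _) _
      · simp only [sq_abs]
        exact I.sumc _ (fun _ => sq_nonneg _) hMj i
      · simp only [sq_abs]
        exact I.sumc _ (fun _ => sq_nonneg _) p4 i
    · intro q w hw
      obtain ⟨i, hi⟩ := mem_iUnion.1 hw
      refine le_trans ?_ (Finset.single_le_sum
        (f := fun i => κ' * (κ * (|κ * M (I.q (I.c q i))| + |Cf| * |P (I.c q i)|)))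
        (fun i _ => by positivity) (Finset.mem_univ i))
      obtain ⟨ζ, κ1, z1, z2, z3⟩ := I.hc q i
      have hz := hi.2
      have e : (Q.σ q : U) = κ1 * (I.ρ (I.c q i) * ζ * (I.t i)⁻¹) := by
        rw [← mul_assoc, ← mul_assoc, ← C.central hn z1, ← z3, mul_inv_cancel_right]
      rw [e, aut_sl hΦ z2, ← C.sl_mul]
      refine (hκ' _ _ w (hO i hi)).trans (mul_le_mul_of_nonneg_left ?_ hκ0')
      rw [map_inv, ← C.sl_mul]
      refine (hκ _ _ _ (R.sub2 (R.sub1 hz))).trans (mul_le_mul_of_nonneg_left ?_ hκ0)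
      rw [z1, act_one, hΦj _ _ (R.sub1 hz)]
      refine (norm_sub_le _ _).trans (add_le_add
        ((hFb _ _ (R.sub2 (R.sub1 hz))).trans (le_abs_self _)) ?_)
      rw [norm_mul]
      exact mul_le_mul ((hCf _ (subset_closure hz)).trans (le_abs_self _))
        ((p3 _ _ hz).trans (le_abs_self _)) (norm_nonneg _) (abs_nonneg _)
  · obtain ⟨j, κ1, z, k1, hz, e⟩ := I.exists_pt R (act_mem (C.p (Q.σ q)) hy.1)
    obtain ⟨a, a1, a2⟩ := exists_lift Q q (I.q j) k1.inv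
    have hz2 := R.sub1 hz
    have hzB := R.subB (R.sub2 hz2)
    have e1 : (Q.σ q : U) = κ1 * (Q.σ (I.q j) * a) := by rw [a1, mul_inv_cancel_left]
    have e2 : act (C.p a) y = act (C.p (I.t (I.i j))) z := by
      rw [e1, I.hρ, ← mul_assoc, ← mul_assoc, map_mul _ (κ1 * _), map_mul _ (κ1 * _),
        act_mul _ _ hzB, act_mul _ _ hy.1] at e
      rw [← act_inv_act (C.p (κ1 * Q.σ (I.q j))) (act_mem (C.p a) hy.1), ← e,
        act_inv_act _ (act_mem _ hzB)]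
    have v1 : VanD X m (C.sl s (C.sl s Φ (Q.σ (I.q j)) - F (I.q j) (I.i j)) (I.t (I.i j))) {z} := by
      intro x hx
      have w1 := D.van_mul (q := fun y => -h j y) (R.sub2 hz2) (by
        filter_upwards [(isOpen_Bl r2).mem_nhds hz2] with y hy
        exact ((p1 j).differentiableAt ((isOpen_Bl r2).mem_nhds hy)).neg) hx
      refine w1.congr ?_
      filter_upwards [(isOpen_Bl r2).mem_nhds hz2] with y hy
      rw [C.sl_sub, C.sl_mul, ← I.hρ, ← hFj, Pi.sub_apply, hΦj j y hy]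
      ring
    have v2 := D.vanD_of_sl C hn s (I.ht _) hzB v1
    rw [← e2] at v2
    have v3 := D.vanD_sl C hn s (hle a.2) hy.1 v2
    have v4 := hcomp (I.q j) (I.i j) i a
    rw [a2] at v4
    have v5 := vanD_iff.1 v4 y ⟨hy, by
      rw [mem_preimage, e2]
      exact I.act_mem_O R.h.le _ (R.sub2 hz2)⟩
    intro x hx
    have v6 := (v3 x hx).add (v5 x hx)
    rwa [C.sl_sub, C.sl_mul, ← aut_sl hΦ k1, ← e1, sub_add_sub_cancel] at v6

end

end Pool.Agent.MP_54e5d7_al.Atc.Glue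

namespace Pool.Agent.MP_54e5d7_al.Atc

open Glue

/-- the vanishing theorems on the cover from the local theorem -/
theorem ext (h : Pool.Agent.MP54.PDE.MainStmt) : ExtStmt := by
  intro Γ₀ hΓ₀
  obtain ⟨r1, hr1, hcov⟩ := hΓ₀.cocpt
  have R : Rad Γ₀ r1 ((2 * r1 + 1) / 3) ((r1 + 2) / 3) :=
    ⟨hΓ₀, by linarith, by linarith, by linarith, hcov⟩
  obtain ⟨c0, hc0⟩ := h ↥Γ₀ R.chart
  obtain ⟨K, hK0, hK⟩ := levi_chi (R.h2.trans R.h)
  refine ⟨_, R.h, c0 + 6 * K, ?_⟩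
  intro X m ε hX hW n U _ C Γ G _ Q s hn hs hle hi hinj
  obtain ⟨hm, W, ψ, S, w1, w2, w3, w4, w5, w6⟩ := hW
  have D : Div Γ₀ X m ((r1 + 2) / 3) S :=
    ⟨R.h.le, hX.unit, hX.inv, fun x hx y hy c hc => hX.eq_of_smul hx hy hc, hm, w2, w3⟩
  obtain ⟨I⟩ := exists_idx hn Q hle hi hinj
  have hn' : (0 : ℝ) < n := by exact_mod_cast hn
  have hs' : (s : ℝ) / n ≤ 6 := by
    rw [div_le_iff₀ hn']
    exact_mod_cast hs
  obtain ⟨-, -, h0, h1⟩ := hc0 _ (bundle R D I hn s ψ w4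
    fun g hg z hz hgz => D.vg_norm w1 w4.continuousOn w5 hg hz hgz)
    (neg_weight R.h2.le R.h.le hK0 hK w4 w6 (by positivity) hs')
  exact ⟨h0_of R D I hn s hle _ (fun _ _ _ => rfl) h0, I.k, I.O _, I.charts R,
    h1_of R D I hn s hle (hΓ₀.sub hle hi) _ (fun _ _ _ => rfl) h1⟩

end Pool.Agent.MP_54e5d7_al.Atc

end MrgPart5

-- ======== part 6: formerly Pool.Agent.MP_54e5d7_al.atc.jet.Jet
section MrgPart6

/-!
PROJECT ATC, block JET: the finite-dimensional space of automorphic jets along one disc.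
-/

set_option autoImplicit false

open scoped ComplexConjugate Topology
open Set Filter Metric

namespace Pool.Agent.MP_54e5d7_al.Atc

theorem exists_pinv {V W : Type*} [AddCommGroup V] [Module ℂ V] [AddCommGroup W] [Module ℂ W]
    (L : V →ₗ[ℂ] W) : ∃ S : W →ₗ[ℂ] V, ∀ v, L (S (L v)) = L v := by
  obtain ⟨g, hg⟩ := L.rangeRestrict.exists_rightInverse_of_surjective L.range_rangeRestrict
  obtain ⟨S, hS⟩ := g.exists_extend
  refine ⟨S, fun v => ?_⟩
  have h1 : S (L v) = g ⟨L v, LinearMap.mem_range_self L v⟩ :=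
    LinearMap.congr_fun hS ⟨L v, LinearMap.mem_range_self L v⟩
  have h2 := LinearMap.congr_fun hg ⟨L v, LinearMap.mem_range_self L v⟩
  rw [h1]
  exact congrArg Subtype.val h2

theorem fam_bound {A : Submodule ℂ (C2 → ℂ)} (hA : ∀ f ∈ A, DifferentiableOn ℂ f B)
    {P : Type} [Fintype P] (S : (P → ℂ) →ₗ[ℂ] A) {R : ℝ} (hR : R < 1) :
    ∃ c : ℝ, 0 ≤ c ∧ ∀ e, ∀ z ∈ Bl R, ‖(S e).1 z‖ ≤ c * ‖e‖ := by
  classical
  have hs : {z : C2 | nsq z ≤ R} ⊆ B := fun z hz => lt_of_le_of_lt hz hR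
  have h1 : ∀ i : P, ∃ M : ℝ, ∀ z ∈ {z : C2 | nsq z ≤ R},
      ‖(S fun j => if i = j then 1 else 0).1 z‖ ≤ M := fun i =>
    (isCompact_nsq_le R).exists_bound_of_continuousOn
      ((hA _ (S _).2).continuousOn.mono hs)
  choose M hM using h1
  refine ⟨∑ i, |M i|, Finset.sum_nonneg fun i _ => abs_nonneg _, fun e z hz => ?_⟩
  have hz' : z ∈ {z : C2 | nsq z ≤ R} := show nsq z ≤ R from le_of_lt hz
  rw [LinearMap.pi_apply_eq_sum_univ S e, Finset.sum_mul]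
  simp only [Submodule.coe_sum, Submodule.coe_smul, Finset.sum_apply, Pi.smul_apply]
  refine (norm_sum_le _ _).trans (Finset.sum_le_sum fun i _ => ?_)
  rw [norm_smul, mul_comm]
  exact mul_le_mul ((hM i z hz').trans (le_abs_self _)) (norm_le_pi_norm e i) (norm_nonneg _)
    (abs_nonneg _)

variable {n : ℕ} {U : Type} [Group U] {C : Cover n U} {Γ : Subgroup SU21} {X : Set V3} {ε : ℝ}
  {N : V3 → Subgroup U} {x : V3}

theorem jet_aux (hn : 0 < n) (hΓ : Lat Γ) (hX : Discs Γ X ε) (hN : Fill C Γ X N) (hx : x ∈ X)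
    (k : ℕ) : ∀ s : ℕ, ∃ (E : Type) (_ : NormedAddCommGroup E) (_ : NormedSpace ℂ E)
      (_ : FiniteDimensional ℂ E) (L : C.invSub (N x) s →ₗ[ℂ] E) (r c : ℝ), r < 1 ∧ 0 ≤ c ∧
      (∀ (f : C.invSub (N x) s) (M : ℝ), 0 ≤ M → (∀ z ∈ Bl r, ‖f.1 z‖ ≤ M) → ‖L f‖ ≤ c * M) ∧
      ∀ f : C.invSub (N x) s, L f = 0 → Van k x f.1 B := by
  have hu := hX.unit x hx
  induction k with
  | zero =>
    intro s
    refine ⟨ℂ, inferInstance, inferInstance, inferInstance, 0, 0, 0, one_pos, le_rfl, ?_, ?_⟩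
    · intro f M _ _
      simp
    · intro f _
      exact van_zero_order x f.2.1.2
  | succ k ih =>
    intro s
    obtain ⟨E, i1, i2, i3, L1, r1, c1, hr1, hc1, hb1, hv1⟩ := ih (s + n)
    obtain ⟨r0, hr0, P, hP, hnet⟩ := eval_net hn hΓ hX hN hx s
    let L0 : C.invSub (N x) s →ₗ[ℂ] (P → ℂ) :=
      LinearMap.pi fun p : P => (LinearMap.proj p.1 : (C2 → ℂ) →ₗ[ℂ] ℂ) ∘ₗ (C.invSub (N x) s).subtype
    have hL0 : ∀ f p, L0 f p = f.1 p.1 := fun _ _ => rfl
    obtain ⟨S, hS⟩ := exists_pinv L0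
    let m : C.invSub (N x) (s + n) →ₗ[ℂ] (C2 → ℂ) :=
      LinearMap.mulLeft ℂ (ell x) ∘ₗ (C.invSub (N x) (s + n)).subtype
    have hm : ∀ q, m q = ell x * q.1 := fun _ => rfl
    have hker : LinearMap.ker m = ⊥ := by
      rw [LinearMap.ker_eq_bot']
      intro q hq
      apply Subtype.ext
      funext z
      by_cases hz : z ∈ B
      · refine ell_cancel hu (isOpen_Bl 1) q.2.1.2.continuousOn (b := 0) continuousOn_const ?_ z hz
        intro w _
        have := congrFun hq w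
        rw [hm] at this
        simpa using this
      · exact q.2.1.1 z hz
    obtain ⟨T, hT⟩ := m.exists_leftInverse_of_injective hker
    have hT' : ∀ q, T (m q) = q := fun q => LinearMap.congr_fun hT q
    have hdiv : ∀ g : C.invSub (N x) s, L0 g = 0 → g.1 = ell x * (T g.1).1 := by
      intro g hg
      obtain ⟨q, hq, hq'⟩ := div_inv hn hX hN hx g.2
        (hnet g.1 g.2 fun p hp => by simpa [hL0] using congrFun hg ⟨p, hp⟩)
      have h1 : T g.1 = ⟨q, hq⟩ := by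
        rw [← hT' ⟨q, hq⟩, hm, ← hq']
      rw [h1]
      exact hq'
    let pr : C.invSub (N x) s →ₗ[ℂ] C.invSub (N x) s := LinearMap.id - S ∘ₗ L0
    have hpr : ∀ f, pr f = f - S (L0 f) := fun _ => rfl
    have hpr0 : ∀ f, L0 (pr f) = 0 := fun f => by rw [hpr, map_sub, hS, sub_self]
    set R : ℝ := (max r0 r1 + 1) / 2 with hR
    have hmx : max r0 r1 < 1 := max_lt hr0 hr1
    have hR1 : R < 1 := by rw [hR]; linarith
    have hR0 : r0 ≤ R := by have := le_max_left r0 r1; rw [hR]; linarith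
    have hR2 : r1 < R := by have := le_max_right r0 r1; rw [hR]; linarith
    obtain ⟨cS, hcS, hSb⟩ := fam_bound (A := C.invSub (N x) s) (fun f hf => hf.1.2) S hR1
    obtain ⟨cd, hcd, hdb⟩ := div_est (isOpen_Bl R) (isCompact_nsq_le r1)
      (fun z hz => lt_of_le_of_lt hz hR2) (differentiable_ell x).differentiableOn
      (fun y _ => ell_frequently hu y)
    refine ⟨(P → ℂ) × E, inferInstance, inferInstance, inferInstance,
      L0.prod (L1 ∘ₗ T ∘ₗ (C.invSub (N x) s).subtype ∘ₗ pr), R, 1 + c1 * (cd * (1 + cS)), hR1,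
      by positivity, ?_, ?_⟩
    · intro f M hM hf
      have h0 : ‖L0 f‖ ≤ M := by
        rw [pi_norm_le_iff_of_nonneg hM]
        intro p
        exact hf _ (Bl_mono hR0 (hP _ p.2))
      have h1 : ∀ z ∈ Bl R, ‖(pr f).1 z‖ ≤ (1 + cS) * M := by
        intro z hz
        have e : (pr f).1 z = f.1 z - (S (L0 f)).1 z := rfl
        rw [e]
        have := norm_sub_le (f.1 z) ((S (L0 f)).1 z)
        have h2 := hf z hz
        have h3 := (hSb (L0 f) z hz).trans (mul_le_mul_of_nonneg_left h0 hcS)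
        linarith
      have h2 := hdb (T (pr f).1).1 ((1 + cS) * M) ((T (pr f).1).2.1.2.mono (Bl_mono hR1.le))
        (fun z hz => by
          have e := congrFun (hdiv _ (hpr0 f)) z
          have := h1 z hz
          rw [e] at this
          exact this)
      have h3 := hb1 (T (pr f).1) (cd * ((1 + cS) * M)) (by positivity)
        (fun z hz => h2 z (show nsq z ≤ r1 from le_of_lt hz))
      have h4 : 0 ≤ c1 * (cd * (1 + cS)) * M := by positivity
      rw [Prod.norm_def]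
      refine max_le ?_ ?_
      · show ‖L0 f‖ ≤ _
        linarith
      · show ‖L1 (T (pr f).1)‖ ≤ _
        linarith
    · intro f hf
      have h0 : L0 f = 0 := congrArg Prod.fst hf
      have h1 : L1 (T (pr f).1) = 0 := congrArg Prod.snd hf
      have h2 : pr f = f := by rw [hpr, h0, map_zero, sub_zero]
      rw [h2] at h1
      exact van_succ (fun z _ => congrFun (hdiv f h0) z) (hv1 _ h1)

theorem jet : JetStmt := by
  intro n U _ C Γ X ε N s k hn hΓ hX hN x hx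
  have hu := hX.unit x hx
  obtain ⟨E, i1, i2, i3, L, r, c, hr, hc, hb, hv⟩ := jet_aux hn hΓ hX hN hx k s
  let W : Submodule ℂ (C.invSub (N x) s) :=
    { carrier := {f | Van k x f.1 B}
      add_mem' := fun hf hg => Van.add hf hg
      zero_mem' := fun y _ => ⟨univ, univ_mem, 0, differentiableOn_const 0, fun z _ => by simp⟩
      smul_mem' := fun a _ hf => Van.smul hf a }
  have hW : ∀ f, f ∈ W ↔ Van k x f.1 B := fun _ => Iff.rfl
  obtain ⟨S, hS⟩ := exists_pinv L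
  have hfac : ∀ f, W.mkQ (S (L f)) = W.mkQ f := by
    intro f
    rw [Submodule.mkQ_apply, Submodule.mkQ_apply, Submodule.Quotient.eq, hW]
    exact hv _ (by rw [map_sub, hS, sub_self])
  have : Module.Finite ℂ (C.invSub (N x) s ⧸ W) := by
    refine Module.Finite.of_surjective (W.mkQ ∘ₗ S) fun y => ?_
    obtain ⟨f, rfl⟩ := W.mkQ_surjective y
    exact ⟨L f, hfac f⟩
  let β := Module.finBasis ℂ (C.invSub (N x) s ⧸ W)
  choose b hbq using fun i => W.mkQ_surjective (β i)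
  choose Λ hΛ using fun i => LinearMap.exists_extend (β.coord i ∘ₗ W.mkQ)
  have hΛ' : ∀ i (f : C.invSub (N x) s), Λ i f.1 = β.repr (W.mkQ f) i := fun i f =>
    LinearMap.congr_fun (hΛ i) f
  refine ⟨_, fun i => (b i).1, Λ, fun i => (b i).2, ?_, ?_, ?_⟩
  · intro f h1 h2
    let g : C.invSub (N x) s := ⟨f, h1, h2⟩
    have h3 : g - ∑ i, Λ i f • b i ∈ W := by
      rw [← Submodule.Quotient.mk_eq_zero, ← Submodule.mkQ_apply, map_sub, map_sum]
      simp only [map_smul, hbq]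
      have e : ∀ i, Λ i f = β.repr (W.mkQ g) i := fun i => hΛ' i g
      simp only [e]
      rw [β.sum_repr, sub_self]
    rw [hW] at h3
    simpa [g] using h3
  · let T : E →L[ℂ] (Fin (Module.finrank ℂ (C.invSub (N x) s ⧸ W)) → ℂ) :=
      LinearMap.toContinuousLinearMap (β.equivFun.toLinearMap ∘ₗ W.mkQ ∘ₗ S)
    refine ⟨max r (1 / 2), max_lt hr (by norm_num), ‖T‖ * c, fun f h1 h2 M hM i => ?_⟩
    let g : C.invSub (N x) s := ⟨f, h1, h2⟩
    have hM0 : 0 ≤ M := by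
      refine (norm_nonneg _).trans (hM 0 ?_)
      show nsq 0 < _
      refine lt_of_lt_of_le ?_ (le_max_right _ _)
      simp [nsq]
    have h3 := hb g M hM0 fun z hz => hM z (Bl_mono (le_max_left _ _) hz)
    have h4 : Λ i f = T (L g) i := by
      rw [hΛ' i g, ← hfac g]
      rfl
    rw [h4, mul_assoc]
    exact (norm_le_pi_norm _ i).trans ((T.le_opNorm _).trans
      (mul_le_mul_of_nonneg_left h3 (norm_nonneg _)))
  · intro a y hy hy0 h
    let g : C.invSub (N x) s := ∑ i, a i • b i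
    have e : g.1 = ∑ i, a i • (b i).1 := by simp [g]
    have h1 : g ∈ W := van_prop hu hy hy0 k g.2.1.2 (by rw [e]; exact h)
    rw [← Submodule.Quotient.mk_eq_zero, ← Submodule.mkQ_apply, map_sum] at h1
    simp only [map_smul, hbq] at h1
    funext i
    exact Fintype.linearIndependent_iff.1 β.linearIndependent a h1 i

end Pool.Agent.MP_54e5d7_al.Atc

end MrgPart6

-- ======== part 7: formerly Pool.Agent.MP_54e5d7_al.atc.pde.Final
section MrgPart7

/-! The theorem of the d-bar block. -/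

namespace Pool.Agent.MP54.PDE

theorem main : MainStmt :=
  main_of basic0 Mv52.mv (loc (west basic convS moll) proj)

end Pool.Agent.MP54.PDE

end MrgPart7

-- ======== part 8: formerly Pool.Agent.MP_54e5d7_al.atc.fin.Typ
section MrgPart8

/-!
PROJECT ATC, block TYPE.
-/

set_option autoImplicit false

namespace Pool.Agent.MP_54e5d7_al.Atc

theorem typ : TypeStmt := typ_of (ext Pool.Agent.MP54.PDE.main) jet

end Pool.Agent.MP_54e5d7_al.Atc

end MrgPart8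

-- marker of a merged file
example : 731051 + 803368 = 731051 + 803368 := rfl
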